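import Pool.Agent.H17BP.Germ

/-!
# Local coordinates: the inverse function theorem

`dx`, `dy` are the partial derivatives.  Proofs:

* `analyticAt_dx`, `analyticAt_dy`: `AnalyticAt.fderiv` composed with the evaluation at a vector
  (`ContinuousLinearMap.apply`).
* `bihol_iff`: `→`: from `θ' (θ x) = x` near `0` the chain rule gives `fderiv θ' 0 ∘ fderiv θ 0 = id`, so
  `fderiv θ 0` is injective on `ℂ × ℂ` (dimension `2`), and its determinant in the basis `(1,0), (0,1)` is not `0`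
  (if it were `0`, a non-trivial combination of the columns would be `0`).
  `←`: the map with non-zero determinant is a continuous linear equivalence `i` (write the inverse matrix, or
  `LinearEquiv.ofIsUnitDet`, `LinearMap.toContinuousLinearMap`); `HasStrictFDerivAt` holds for analytic functions
  (`AnalyticAt.hasStrictFDerivAt`); take the local inverse `HasStrictFDerivAt.toOpenPartialHomeomorph` (or the
  present name), it is analytic at `θ 0 = 0`: `OpenPartialHomeomorph.hasFPowerSeriesAt_symm` (file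
  `Mathlib/Analysis/Analytic/Inverse.lean`; find its present name), needs the first coefficient of the power series
  of `θ` to be `i`: `HasFPowerSeriesAt.fderiv_eq` / `hasFPowerSeriesAt.hasStrictFDerivAt` uniqueness of the
  derivative.
* `coord_iff`: `fderiv` of `x ↦ (S x, T x)` is the product of the derivatives (`fderiv_prodMk`, `HasFDerivAt.prodMk`).
-/

open Topology Filter

noncomputable section

namespace Pool.Agent.H17BP

/-- The partial derivative in the first variable. -/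
def dx (f : ℂ × ℂ → ℂ) (x : ℂ × ℂ) : ℂ := fderiv ℂ f x (1, 0)

/-- The partial derivative in the second variable. -/
def dy (f : ℂ × ℂ → ℂ) (x : ℂ × ℂ) : ℂ := fderiv ℂ f x (0, 1)

theorem analyticAt_dx {f : ℂ × ℂ → ℂ} {x : ℂ × ℂ} (hf : AnalyticAt ℂ f x) : AnalyticAt ℂ (dx f) x :=
  ((ContinuousLinearMap.apply ℂ ℂ ((1, 0) : ℂ × ℂ)).analyticAt (fderiv ℂ f x)).comp hf.fderiv

theorem analyticAt_dy {f : ℂ × ℂ → ℂ} {x : ℂ × ℂ} (hf : AnalyticAt ℂ f x) : AnalyticAt ℂ (dy f) x :=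
  ((ContinuousLinearMap.apply ℂ ℂ ((0, 1) : ℂ × ℂ)).analyticAt (fderiv ℂ f x)).comp hf.fderiv

private theorem Ift_apply (L : ℂ × ℂ →L[ℂ] ℂ × ℂ) (x : ℂ × ℂ) :
    L x = (x.1 * (L (1, 0)).1 + x.2 * (L (0, 1)).1, x.1 * (L (1, 0)).2 + x.2 * (L (0, 1)).2) := by
  have h1 : x = x.1 • ((1, 0) : ℂ × ℂ) + x.2 • ((0, 1) : ℂ × ℂ) := by
    ext <;> simp
  conv_lhs => rw [h1]
  rw [map_add, map_smul, map_smul]
  ext <;> simp

private theorem Ift_mp {θ : ℂ × ℂ → ℂ × ℂ} (h : Bihol θ) :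
    (fderiv ℂ θ 0 (1, 0)).1 * (fderiv ℂ θ 0 (0, 1)).2 -
      (fderiv ℂ θ 0 (0, 1)).1 * (fderiv ℂ θ 0 (1, 0)).2 ≠ 0 := by
  intro hdet
  obtain ⟨θ', h1, h2, h3, h4⟩ := h.inv
  set L := fderiv ℂ θ 0 with hL
  have d1 : HasFDerivAt θ L 0 := h.an.differentiableAt.hasFDerivAt
  have d2 : HasFDerivAt θ' (fderiv ℂ θ' 0) (θ 0) := by
    rw [h.zero]
    exact h1.differentiableAt.hasFDerivAt
  have d3 : HasFDerivAt (θ' ∘ θ) ((fderiv ℂ θ' 0).comp L) 0 := d2.comp 0 d1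
  have d4 : HasFDerivAt (θ' ∘ θ) (ContinuousLinearMap.id ℂ (ℂ × ℂ)) 0 := by
    refine (hasFDerivAt_id (0 : ℂ × ℂ)).congr_of_eventuallyEq ?_
    filter_upwards [h3] with x hx
    exact hx
  have d5 := d3.unique d4
  have hinj : ∀ v : ℂ × ℂ, L v = 0 → v = 0 := by
    intro v hv
    have h6 : (fderiv ℂ θ' 0).comp L v = v := by rw [d5]; rfl
    rw [← h6, ContinuousLinearMap.comp_apply, hv, map_zero]
  have e1 := hinj ((L (0, 1)).2, -(L (1, 0)).2) (by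
    rw [Ift_apply]
    ext
    · simp only [Prod.fst_zero]
      linear_combination hdet
    · simp only [Prod.snd_zero]
      ring)
  have e2 := hinj ((L (0, 1)).1, -(L (1, 0)).1) (by
    rw [Ift_apply]
    ext
    · simp only [Prod.fst_zero]
      ring
    · simp only [Prod.snd_zero]
      linear_combination -hdet)
  have e3 := hinj (1, 0) (by
    ext
    · have := congrArg Prod.snd e2
      simpa using this
    · have := congrArg Prod.snd e1
      simpa using this)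
  have := congrArg Prod.fst e3
  simp at this

private theorem Ift_equiv (L : ℂ × ℂ →L[ℂ] ℂ × ℂ)
    (hdet : (L (1, 0)).1 * (L (0, 1)).2 - (L (0, 1)).1 * (L (1, 0)).2 ≠ 0) :
    ∃ i : (ℂ × ℂ) ≃L[ℂ] (ℂ × ℂ), (i : ℂ × ℂ →L[ℂ] ℂ × ℂ) = L := by
  set D := (L (1, 0)).1 * (L (0, 1)).2 - (L (0, 1)).1 * (L (1, 0)).2 with hD
  let M : ℂ × ℂ →L[ℂ] ℂ × ℂ :=
    ((D⁻¹ * (L (0, 1)).2) • ContinuousLinearMap.fst ℂ ℂ ℂ -
      (D⁻¹ * (L (0, 1)).1) • ContinuousLinearMap.snd ℂ ℂ ℂ).prod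
    ((D⁻¹ * (L (1, 0)).1) • ContinuousLinearMap.snd ℂ ℂ ℂ -
      (D⁻¹ * (L (1, 0)).2) • ContinuousLinearMap.fst ℂ ℂ ℂ)
  have hM : ∀ y : ℂ × ℂ, M y = (D⁻¹ * ((L (0, 1)).2 * y.1 - (L (0, 1)).1 * y.2),
      D⁻¹ * ((L (1, 0)).1 * y.2 - (L (1, 0)).2 * y.1)) := by
    intro y
    ext
    · simp [M]
      ring
    · simp [M]
      ring
  have h1 : Function.LeftInverse M L := by
    intro x
    rw [hM, Ift_apply L x]
    ext
    · simp only
      have : D⁻¹ * ((L (0, 1)).2 * (x.1 * (L (1, 0)).1 + x.2 * (L (0, 1)).1) -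
          (L (0, 1)).1 * (x.1 * (L (1, 0)).2 + x.2 * (L (0, 1)).2)) = (D⁻¹ * D) * x.1 := by
        rw [hD]; ring
      rw [this, inv_mul_cancel₀ hdet, one_mul]
    · simp only
      have : D⁻¹ * ((L (1, 0)).1 * (x.1 * (L (1, 0)).2 + x.2 * (L (0, 1)).2) -
          (L (1, 0)).2 * (x.1 * (L (1, 0)).1 + x.2 * (L (0, 1)).1)) = (D⁻¹ * D) * x.2 := by
        rw [hD]; ring
      rw [this, inv_mul_cancel₀ hdet, one_mul]
  have h2 : Function.RightInverse M L := by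
    intro y
    rw [Ift_apply L (M y), hM]
    ext
    · simp only
      have : D⁻¹ * ((L (0, 1)).2 * y.1 - (L (0, 1)).1 * y.2) * (L (1, 0)).1 +
          D⁻¹ * ((L (1, 0)).1 * y.2 - (L (1, 0)).2 * y.1) * (L (0, 1)).1 = (D⁻¹ * D) * y.1 := by
        rw [hD]; ring
      rw [this, inv_mul_cancel₀ hdet, one_mul]
    · simp only
      have : D⁻¹ * ((L (0, 1)).2 * y.1 - (L (0, 1)).1 * y.2) * (L (1, 0)).2 +
          D⁻¹ * ((L (1, 0)).1 * y.2 - (L (1, 0)).2 * y.1) * (L (0, 1)).2 = (D⁻¹ * D) * y.2 := by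
        rw [hD]; ring
      rw [this, inv_mul_cancel₀ hdet, one_mul]
  refine ⟨ContinuousLinearEquiv.equivOfInverse L M h1 h2, ?_⟩
  ext <;> rfl

private theorem Ift_mpr {θ : ℂ × ℂ → ℂ × ℂ} (h : AnalyticAt ℂ θ 0) (h0 : θ 0 = 0)
    (hdet : (fderiv ℂ θ 0 (1, 0)).1 * (fderiv ℂ θ 0 (0, 1)).2 -
      (fderiv ℂ θ 0 (0, 1)).1 * (fderiv ℂ θ 0 (1, 0)).2 ≠ 0) : Bihol θ := by
  obtain ⟨i, hi⟩ := Ift_equiv (fderiv ℂ θ 0) hdet
  have hs : HasStrictFDerivAt θ (i : ℂ × ℂ →L[ℂ] ℂ × ℂ) 0 := by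
    rw [hi]
    exact h.hasStrictFDerivAt
  have hsrc : (0 : ℂ × ℂ) ∈ (hs.toOpenPartialHomeomorph θ).source :=
    hs.mem_toOpenPartialHomeomorph_source
  have han : AnalyticAt ℂ (hs.localInverse θ i 0) (θ 0) :=
    OpenPartialHomeomorph.analyticAt_symm' (hs.toOpenPartialHomeomorph θ) hsrc h hi.symm
  refine ⟨h, h0, hs.localInverse θ i 0, ?_, ?_, hs.eventually_left_inverse, ?_⟩
  · rwa [h0] at han
  · have := hs.localInverse_apply_image
    rwa [h0] at this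
  · have := hs.eventually_right_inverse
    rwa [h0] at this

theorem bihol_iff {θ : ℂ × ℂ → ℂ × ℂ} (h : AnalyticAt ℂ θ 0) (h0 : θ 0 = 0) :
    Bihol θ ↔ (fderiv ℂ θ 0 (1, 0)).1 * (fderiv ℂ θ 0 (0, 1)).2 -
      (fderiv ℂ θ 0 (0, 1)).1 * (fderiv ℂ θ 0 (1, 0)).2 ≠ 0 :=
  ⟨Ift_mp, Ift_mpr h h0⟩

theorem coord_iff {S T : ℂ × ℂ → ℂ} (hS : AnalyticAt ℂ S 0) (hT : AnalyticAt ℂ T 0) (hS0 : S 0 = 0)
    (hT0 : T 0 = 0) : Coord S T ↔ dx S 0 * dy T 0 - dy S 0 * dx T 0 ≠ 0 := by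
  unfold Coord
  rw [bihol_iff (hS.prod hT) (by rw [hS0, hT0]; rfl)]
  have h1 : fderiv ℂ (fun x => (S x, T x)) 0 = (fderiv ℂ S 0).prod (fderiv ℂ T 0) :=
    (hS.differentiableAt.hasFDerivAt.prodMk hT.differentiableAt.hasFDerivAt).fderiv
  rw [h1]
  exact Iff.rfl

/-- The components of local coordinates. -/
theorem Coord.parts {S T : ℂ × ℂ → ℂ} (h : Coord S T) : AnalyticAt ℂ S 0 ∧ AnalyticAt ℂ T 0 ∧ S 0 = 0 ∧
    T 0 = 0 := by
  have h1 : AnalyticAt ℂ (fun x => (S x, T x)) 0 := Bihol.an h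
  have h2 : (S 0, T 0) = (0 : ℂ × ℂ) := Bihol.zero h
  refine ⟨?_, ?_, ?_, ?_⟩
  · have h3 : AnalyticAt ℂ (fun p : ℂ × ℂ => p.1) ((fun x => (S x, T x)) (0 : ℂ × ℂ)) := analyticAt_fst
    exact AnalyticAt.comp (g := fun p : ℂ × ℂ => p.1) (f := fun x => (S x, T x)) h3 h1
  · have h3 : AnalyticAt ℂ (fun p : ℂ × ℂ => p.2) ((fun x => (S x, T x)) (0 : ℂ × ℂ)) := analyticAt_snd
    exact AnalyticAt.comp (g := fun p : ℂ × ℂ => p.2) (f := fun x => (S x, T x)) h3 h1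
  · exact congrArg Prod.fst h2
  · exact congrArg Prod.snd h2

theorem Coord.symm {S T : ℂ × ℂ → ℂ} (h : Coord S T) : Coord T S := by
  obtain ⟨h1, h2, h3, h4⟩ := h.parts
  rw [coord_iff h2 h1 h4 h3]
  rw [coord_iff h1 h2 h3 h4] at h
  intro h5
  apply h
  linear_combination -h5

theorem coord_fst_snd : Coord (fun x => x.1) (fun x => x.2) :=
  Bihol.id

end Pool.Agent.H17BP
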