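import Pool.Agent.H17BP.Ind
import Pool.Agent.H17R.Defs

/-!
# From the extension theorem for models to projective surfaces
-/

open Topology Filter MvPolynomial

noncomputable section

namespace Pool.Agent.H17BP

open Pool.Agent.H17 (PN VanishesAt ZariskiClosedIn HolomorphicInto puncturedDisc PseudoBrodyHyperbolic
  PseudoPicardHyperbolic)
open Pool.Agent.H62.FC (Homog)
open Pool.Agent.H17R (openVar)

variable {N : ℕ} {P : Ideal (MvPolynomial (Fin (N + 1)) ℂ)}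

/-- The affine cone of the projective variety, without the vertex. -/
def cone (P : Ideal (MvPolynomial (Fin (N + 1)) ℂ)) : Set (Fin (N + 1) → ℂ) :=
  {x | x ≠ 0 ∧ ∀ Q ∈ P, eval x Q = 0}

/-- The projective variety. -/
abbrev variety (P : Ideal (MvPolynomial (Fin (N + 1)) ℂ)) : Set (PN N) :=
  openVar P (Fin.elim0 : Fin 0 → MvPolynomial (Fin (N + 1)) ℂ)

theorem rep_mk_fin {x : Fin (N + 1) → ℂ} (hx : x ≠ 0) :
    ∃ a : ℂ, a ≠ 0 ∧ (Projectivization.mk ℂ x hx).rep = a • x := by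
  obtain ⟨a, ha⟩ := Projectivization.exists_smul_eq_mk_rep ℂ x hx
  exact ⟨a, a.ne_zero, by rw [← ha]; rfl⟩

theorem eval_smul_form {d : ℕ} {Q : MvPolynomial (Fin (N + 1)) ℂ} (hQ : Q.IsHomogeneous d) (c : ℂ)
    (x : Fin (N + 1) → ℂ) : eval (c • x) Q = c ^ d * eval x Q := by
  rw [MvPolynomial.eval_eq', MvPolynomial.eval_eq', Finset.mul_sum]
  apply Finset.sum_congr rfl
  intro m hm
  have hdeg : ∑ i, m i = d := by
    have := hQ (MvPolynomial.mem_support_iff.1 hm)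
    rw [Finsupp.weight_apply] at this
    simpa [Finsupp.sum_fintype] using this
  have h1 : ∏ i, (c • x) i ^ m i = c ^ d * ∏ i, x i ^ m i := by
    rw [← hdeg, ← Finset.prod_pow_eq_pow_sum, ← Finset.prod_mul_distrib]
    exact Finset.prod_congr rfl fun i _ => by simp [mul_pow]
  rw [h1]
  ring

theorem rep_mem_cone (hP : Homog P) {x : PN N} : x.rep ∈ cone P ↔ x ∈ variety P := by
  constructor
  · rintro ⟨-, h2⟩
    exact ⟨fun Q hQ n _ => h2 Q hQ, fun m => m.elim0⟩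
  · rintro ⟨h1, -⟩
    refine ⟨x.rep_nonzero, fun Q hQ => ?_⟩
    rw [← MvPolynomial.sum_homogeneousComponent Q, map_sum]
    exact Finset.sum_eq_zero fun i _ => h1 _ (hP Q hQ i) i (homogeneousComponent_isHomogeneous i Q)

theorem mk_mem_variety (hP : Homog P) {x : Fin (N + 1) → ℂ} (hx : x ≠ 0)
    (hX : ∀ x ∈ cone P, ∀ c : ℂ, c ≠ 0 → c • x ∈ cone P) :
    Projectivization.mk ℂ x hx ∈ variety P ↔ x ∈ cone P := by
  rw [← rep_mem_cone hP]
  obtain ⟨a, ha, h⟩ := rep_mk_fin hx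
  rw [h]
  constructor
  · intro h1
    have h2 := hX _ h1 a⁻¹ (inv_ne_zero ha)
    rwa [smul_smul, inv_mul_cancel₀ ha, one_smul] at h2
  · intro h1
    exact hX _ h1 a ha

theorem vanishesAt_mk {d : ℕ} {Q : MvPolynomial (Fin (N + 1)) ℂ} (hQ : Q.IsHomogeneous d)
    {x : Fin (N + 1) → ℂ} (hx : x ≠ 0) : VanishesAt Q (Projectivization.mk ℂ x hx) ↔ eval x Q = 0 := by
  obtain ⟨a, ha, h⟩ := rep_mk_fin hx
  unfold VanishesAt
  rw [h, eval_smul_form hQ, mul_eq_zero]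
  exact ⟨fun h => h.resolve_left (pow_ne_zero _ ha), Or.inr⟩

theorem holP_rep {f : ℂ → PN N} {U : Set ℂ} (hf : HolomorphicInto f U) {z₀ : ℂ} (hz : z₀ ∈ U) :
    HolP (fun z => (f z).rep) z₀ := by
  obtain ⟨φ, hφ, he⟩ := hf z₀ hz
  refine ⟨φ, hφ, he.self_of_nhds.1, ?_⟩
  filter_upwards [he] with z hz'
  obtain ⟨h1, h2⟩ := hz'
  obtain ⟨a, ha, h3⟩ := rep_mk_fin h1
  exact ⟨a, ha, by rw [h2, h3]⟩

theorem Pr.mk_eq {x y : Fin (N + 1) → ℂ} (h : Pr x y) (hx : x ≠ 0) (hy : y ≠ 0) :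
    Projectivization.mk ℂ x hx = Projectivization.mk ℂ y hy := by
  obtain ⟨c, hc, h⟩ := h
  rw [Projectivization.mk_eq_mk_iff']
  exact ⟨c, h.symm⟩

/-- If every entire curve lies in the set of the common zeros of the forms in `S`, and the variety has a section of a
multiple of the canonical bundle minus a hyperplane, then holomorphic maps from the punctured disc extend, if they
are not maps into a certain hypersurface. -/
theorem exists_form_picard [hPp : P.IsPrime] (hP : Homog P) (hX : Surface (cone P))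
    (hthin : ∀ σ τ, IsChart (cone P) σ τ → ∀ (d : ℕ) (Q : MvPolynomial (Fin (N + 1)) ℂ), Q.IsHomogeneous d →
      Q ∉ P → ∃ᶠ p in 𝓝 (0 : ℂ × ℂ), eval (σ p) Q ≠ 0)
    {M D₀ : ℕ} (hM : 1 ≤ M) {Ω : (Fin (N + 1) → ℂ) → (Fin (N + 1) → ℂ) → (Fin (N + 1) → ℂ) → ℂ}
    (hΩ : IsForm (cone P) M 1 Ω) {Q₀ : MvPolynomial (Fin (N + 1)) ℂ} (hQ₀ : Q₀.IsHomogeneous D₀) (hQ₀P : Q₀ ∉ P)
    (hz : NoZeros (cone P) {x | x ∈ cone P ∧ eval x Q₀ = 0} Ω) {S : Set (MvPolynomial (Fin (N + 1)) ℂ)}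
    (hS : ∀ Q ∈ S, ∃ n, Q.IsHomogeneous n)
    (hne : {x | x ∈ variety P ∧ ∀ Q ∈ S, VanishesAt Q x} ≠ variety P)
    (hbr : ∀ f : ℂ → PN N, HolomorphicInto f Set.univ → (∀ z, f z ∈ variety P) → (∃ z w, f z ≠ f w) →
      ∀ z, f z ∈ {x | x ∈ variety P ∧ ∀ Q ∈ S, VanishesAt Q x}) :
    ∃ (d : ℕ) (Q : MvPolynomial (Fin (N + 1)) ℂ), Q.IsHomogeneous d ∧ Q ∉ P ∧
      ∀ f : ℂ → PN N, HolomorphicInto f puncturedDisc → (∀ z ∈ puncturedDisc, f z ∈ variety P) →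
        (∃ z ∈ puncturedDisc, ¬ VanishesAt Q (f z)) →
        ∃ g : ℂ → PN N, HolomorphicInto g (Metric.ball 0 1) ∧ ∀ z ∈ puncturedDisc, g z = f z := by
  classical
  -- a form which vanishes on the exceptional set
  obtain ⟨x₁, hx₁, hx₁S⟩ : ∃ x ∈ variety P, ∃ Q ∈ S, ¬ VanishesAt Q x := by
    by_contra hcon
    push Not at hcon
    apply hne
    ext x
    exact ⟨fun h => h.1, fun h => ⟨h, hcon x h⟩⟩
  obtain ⟨Q₁, hQ₁S, hQ₁x⟩ := hx₁S
  obtain ⟨d₁, hQ₁⟩ := hS Q₁ hQ₁S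
  have hQ₁P : Q₁ ∉ P := fun h => hQ₁x (hx₁.1 Q₁ h d₁ hQ₁)
  obtain ⟨l, hl⟩ : ∃ l, x₁.rep l ≠ 0 := by
    by_contra hcon
    push Not at hcon
    exact x₁.rep_nonzero (funext hcon)
  have hlP : (X l : MvPolynomial (Fin (N + 1)) ℂ) ∉ P := by
    intro h
    have := ((rep_mem_cone hP).2 hx₁).2 _ h
    rw [eval_X] at this
    exact hl this
  set Q : MvPolynomial (Fin (N + 1)) ℂ := Q₀ * Q₁ * X l with hQdef
  have hQhom : Q.IsHomogeneous (D₀ + d₁ + 1) := (hQ₀.mul hQ₁).mul (isHomogeneous_X ℂ l)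
  have hQP : Q ∉ P := by
    intro h
    rcases hPp.mem_or_mem h with h | h
    · rcases hPp.mem_or_mem h with h | h
      · exact hQ₀P h
      · exact hQ₁P h
    · exact hlP h
  set B : Set (Fin (N + 1) → ℂ) := {x | x ∈ cone P ∧ eval x Q = 0} with hBdef
  have hmodel : Model (cone P) B M 1 Ω (fun (_ : Unit) x => eval x Q) (D₀ + d₁ + 1) := by
    refine ⟨hX, hM, le_rfl, hΩ, ?_, ⟨by omega, ?_, ?_, ?_, ?_⟩, ?_, ?_⟩
    · intro x hx hxB v hv w hw hi
      refine hz x hx (fun h => hxB ⟨hx, ?_⟩) v hv w hw hi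
      rw [hQdef, map_mul, map_mul, h.2, zero_mul, zero_mul]
    · intro _ x
      have h : ∀ i : Fin (N + 1), AnalyticAt ℂ (fun y : Fin (N + 1) → ℂ => y i) x := fun i =>
        (ContinuousLinearMap.proj (R := ℂ) (φ := fun _ : Fin (N + 1) => ℂ) i).analyticAt x
      have := AnalyticAt.aeval_mvPolynomial (𝕜 := ℂ) h Q
      simpa [MvPolynomial.aeval_eq_eval] using this
    · intro _ c x
      exact eval_smul_form hQhom c x
    · intro x
      exact ⟨fun h => ⟨h.1, fun _ => h.2⟩, fun h => ⟨h.1, h.2 ()⟩⟩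
    · intro x hx
      exact ⟨(), Eventually.of_forall fun y hy h => ⟨hy, h⟩⟩
    · intro σ τ h
      exact (hthin σ τ h _ Q hQhom hQP).mono fun p hp hpB => hp hpB.2
    · -- Brody
      rintro f hf hfX ⟨z₁, hz₁⟩ z w
      by_contra hzw
      have hf0 : ∀ z, f z ≠ 0 := fun z => (hfX z).1
      let F : ℂ → PN N := fun z => Projectivization.mk ℂ (f z) (hf0 z)
      have hF : HolomorphicInto F Set.univ := by
        intro z₀ _
        obtain ⟨G, hG, hG0, he⟩ := hf z₀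
        refine ⟨G, hG, ?_⟩
        filter_upwards [he, hG.continuousAt.eventually_ne hG0] with z h1 h2
        exact ⟨h2, h1.mk_eq (hf0 z) h2⟩
      have h1 := hbr F hF (fun z => (mk_mem_variety hP (hf0 z) hX.smul).2 (hfX z)) ⟨z, w, fun h => by
        rw [Projectivization.mk_eq_mk_iff'] at h
        obtain ⟨a, ha⟩ := h
        refine hzw ⟨a, ?_, ha.symm⟩
        rintro rfl
        rw [zero_smul] at ha
        exact hf0 z ha.symm⟩ z₁
      have h2 := h1.2 Q₁ hQ₁S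
      rw [vanishesAt_mk hQ₁] at h2
      apply hz₁
      refine ⟨hfX z₁, ?_⟩
      rw [hQdef, map_mul, map_mul, h2, mul_zero, zero_mul]
  have hpic := picard_of_model hmodel
  refine ⟨_, Q, hQhom, hQP, ?_⟩
  · rintro f hf hfX ⟨z₁, hz₁, hz₁Q⟩
    have hball : ∀ z : ℂ, z ≠ 0 → ‖z‖ < 1 → z ∈ puncturedDisc := fun z h0 h1 => ⟨by simpa using h1, h0⟩
    have hball' : ∀ z ∈ puncturedDisc, z ≠ 0 ∧ ‖z‖ < 1 := fun z hz => ⟨hz.2, by simpa using hz.1⟩
    obtain ⟨F, hF, hF0, he⟩ := hpic 1 one_pos (fun z => (f z).rep)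
      (fun z h0 h1 => ⟨holP_rep hf (hball z h0 h1), (rep_mem_cone hP).2 (hfX z (hball z h0 h1))⟩)
      ⟨z₁, (hball' z₁ hz₁).1, (hball' z₁ hz₁).2, fun h => hz₁Q h.2⟩
    refine ⟨fun z => if z = 0 then Projectivization.mk ℂ (F 0) hF0 else f z, ?_, ?_⟩
    · intro z₀ hz₀
      by_cases h0 : z₀ = 0
      · subst h0
        refine ⟨F, hF, ?_⟩
        rw [eventually_nhdsWithin_iff] at he
        filter_upwards [he, hF.continuousAt.eventually_ne hF0] with z h1 h2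
        refine ⟨h2, ?_⟩
        by_cases h3 : z = 0
        · subst h3
          rw [if_pos rfl]
        · rw [if_neg h3, ← (h1 h3).mk_eq (f z).rep_nonzero h2, Projectivization.mk_rep]
      · obtain ⟨φ, hφ, hφe⟩ := hf z₀ ⟨hz₀, h0⟩
        refine ⟨φ, hφ, ?_⟩
        filter_upwards [hφe, isOpen_compl_singleton.mem_nhds (show z₀ ∈ ({0} : Set ℂ)ᶜ from h0)] with z h1 h2
        obtain ⟨h3, h4⟩ := h1
        have h5 : z ≠ 0 := h2
        exact ⟨h3, by rw [if_neg h5, h4]⟩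
    · intro z hz
      exact if_neg hz.2

end Pool.Agent.H17BP
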