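import Pool.Agent.H62.FC.Trdeg
import Pool.Agent.H17BP.Final

/-!
# A variety of dimension `0` is a point

`FunField Q` is algebraic over `ℂ` (`IsTranscendenceBasis` with the empty family: e.g.
`IsTranscendenceBasis.isAlgebraic`, the subalgebra adjoined by the empty range is `⊥`), so every element of it is in the
range of `algebraMap` (`IsAlgClosed.algebraMap_bijective_of_isIntegral` or `IsAlgClosed.algebraMap_surjective_of_isAlgebraic`).
Let `X j ∉ Q`, so `coordFun Q j ≠ 0` (`Pool.Agent.H92.GT.Proj.aeval_coordFun_eq_zero_iff Q (X j)`).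
`Pool.Agent.H92.GT.Proj.proj_point Q hj` gives `y` in `functionField Q` with `y j = 1` and `aeval y G = 0 ↔ G ∈ Q` for forms
`G`.  `y i = algebraMap c_i`; the form `X i - C c_i * X j` has `aeval y = y i - c_i y j = 0`, so it is in `Q`, and every point
`x` of the variety satisfies `x i = c_i * x j`, so `x.rep = x.rep j • c`, `x.rep j ≠ 0`: `x` is the point given by `c`.
-/

open Topology Filter MvPolynomial

noncomputable section

namespace Pool.Agent.H17BP

open Pool.Agent.H17LG.Variety (FunField)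
open Pool.Agent.H62.FC (Homog)

variable {N : ℕ} {Q : Ideal (MvPolynomial (Fin (N + 1)) ℂ)}

theorem eq_of_trdeg_zero [Q.IsPrime] (hQ : Homog Q) (hX : ∃ i, (X i : MvPolynomial (Fin (N + 1)) ℂ) ∉ Q)
    (hz : ∃ z : Fin 0 → FunField Q, IsTranscendenceBasis ℂ z) :
    ∀ x ∈ variety Q, ∀ y ∈ variety Q, x = y := by
  have _ := hQ
  obtain ⟨j, hj⟩ := hX
  obtain ⟨z, hz⟩ := hz
  have hcj : Pool.Agent.H17GT.coordFun Q j ≠ 0 := by
    intro h
    apply hj
    rw [← Pool.Agent.H92.GT.Proj.aeval_coordFun_eq_zero_iff Q (X j), aeval_X]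
    exact h
  obtain ⟨y, hy1, -, hker⟩ := Pool.Agent.H92.GT.Proj.proj_point Q hcj
  have halg : Algebra.IsAlgebraic ℂ (FunField Q) := hz.isEmpty_iff_isAlgebraic.1 inferInstance
  have halg' : Algebra.IsAlgebraic ℂ (Pool.Agent.H17GT.functionField Q) := halg
  have hsurj : Function.Surjective (algebraMap ℂ (Pool.Agent.H17GT.functionField Q)) :=
    (IsAlgClosed.algebraMap_bijective_of_isIntegral (k := ℂ)
      (K := Pool.Agent.H17GT.functionField Q)).2
  choose c hc using fun i => hsurj (y i)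
  have hform : ∀ i, (X i - C (c i) * X j : MvPolynomial (Fin (N + 1)) ℂ).IsHomogeneous 1 := by
    intro i
    refine (isHomogeneous_X ℂ i).sub ?_
    have h := (isHomogeneous_C (Fin (N + 1)) (c i)).mul (isHomogeneous_X ℂ j)
    simpa using h
  have hmem : ∀ i, (X i - C (c i) * X j : MvPolynomial (Fin (N + 1)) ℂ) ∈ Q := by
    intro i
    rw [← hker 1 _ (hform i), map_sub, map_mul, aeval_X, aeval_X, hy1, mul_one, aeval_C, hc i,
      sub_self]
  have hrep : ∀ x ∈ variety Q, x.rep j ≠ 0 ∧ x.rep = x.rep j • c := by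
    intro x hx
    have h1 : x.rep = x.rep j • c := by
      funext i
      have h2 : eval x.rep (X i - C (c i) * X j) = 0 := hx.1 _ (hmem i) 1 (hform i)
      rw [map_sub, map_mul, eval_X, eval_X, eval_C, sub_eq_zero] at h2
      rw [Pi.smul_apply, smul_eq_mul, h2]
      ring
    refine ⟨fun h2 => x.rep_nonzero ?_, h1⟩
    rw [h1, h2, zero_smul]
  intro x hx x' hx'
  obtain ⟨h1, h2⟩ := hrep x hx
  obtain ⟨h3, h4⟩ := hrep x' hx'
  rw [← x.mk_rep, ← x'.mk_rep, Projectivization.mk_eq_mk_iff']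
  refine ⟨x.rep j / x'.rep j, ?_⟩
  rw [h4, h2, smul_smul]
  congr 1
  simp only [Pi.smul_apply, smul_eq_mul]
  have h5 : c j ≠ 0 := by
    intro h6
    apply h1
    have := congrFun h2 j
    rw [Pi.smul_apply, smul_eq_mul, h6, mul_zero] at this
    exact this
  have h6 : c j = 1 := by
    have h7 : algebraMap ℂ (Pool.Agent.H17GT.functionField Q) (c j) = algebraMap ℂ _ 1 := by
      rw [hc j, hy1, map_one]
    exact (algebraMap ℂ (Pool.Agent.H17GT.functionField Q)).injective h7
  rw [h6, mul_one, mul_one]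
  exact div_mul_cancel₀ _ h3

end Pool.Agent.H17BP
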