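import Pool.Agent.H17BP.Final

/-!
# The ideal of a holomorphic map

`mapIdeal f U`: the polynomials which vanish on the cone over `f U`.

* `mem_mapIdeal_form`: `eval_smul_form`; `VanishesAt Q x` is `eval x.rep Q = 0`; take `c = 1` for one direction.
* `mapIdeal_homog`: for fixed `z ∈ U`: `eval (c • x) Q = ∑ k, c ^ k * eval x (homogeneousComponent k Q)` is a polynomial in `c`
  which vanishes for all `c`, so all coefficients vanish (e.g. `Polynomial.funext`, or the lemma
  `Pool.Agent.H62.FC.eval_homogeneousComponent_eq_zero` in `Pool/Agent/H62/FC/CurveIdeal.lean`).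
* `mapIdeal_isPrime`: `1` is not in it (`U ≠ ∅`).  Let `A * B ∈ I`, `A ∉ I`, `B ∉ I`.  There are homogeneous components `A_k`,
  `B_l` not in `I` (`sum_homogeneousComponent`, ideal), i.e. `VanishesAt A_k (f z)` fails for some `z ∈ U`.  For a form `R` the set
  of the `z₀ ∈ U` with `VanishesAt R (f z)` for all `z` near `z₀` is open, and so is the set of the `z₀ ∈ U` with
  `¬ VanishesAt R (f z)` for all `z ≠ z₀` near `z₀`; they cover `U` (local lift `φ` of `f`, `z ↦ eval (φ z) R` is analytic at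
  `z₀`, `AnalyticAt.eventually_eq_zero_or_eventually_ne_zero`, `vanishesAt_mk`); `U` is preconnected, so one of them is `U`;
  if `R ∉ I` it is the second one.  So near a point `z₀ ∈ U`, for `z ≠ z₀`, both `A_k` and `B_l` do not vanish at `f z`.  For
  such a `z ∈ U` the polynomials `c ↦ eval (c • x) A`, `c ↦ eval (c • x) B` (`x = (f z).rep`) are not zero (their coefficients at
  `c ^ k`, `c ^ l` are `eval x A_k ≠ 0`, `eval x B_l ≠ 0`), their product is zero for all `c`: contradiction.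
-/

open Topology Filter MvPolynomial

noncomputable section

namespace Pool.Agent.H17BP

open Pool.Agent.H17 (PN VanishesAt ZariskiClosedIn HolomorphicInto puncturedDisc)
open Pool.Agent.H62.FC (Homog)

variable {N : ℕ} {f : ℂ → PN N} {U : Set ℂ}

/-- The ideal of the polynomials which vanish on the cone over `f U`. -/
def mapIdeal (f : ℂ → PN N) (U : Set ℂ) : Ideal (MvPolynomial (Fin (N + 1)) ℂ) where
  carrier := {Q | ∀ z ∈ U, ∀ c : ℂ, eval (c • (f z).rep) Q = 0}
  add_mem' := by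
    intro A B hA hB z hz c
    rw [map_add, hA z hz c, hB z hz c, add_zero]
  zero_mem' := by
    intro z _ c
    rw [map_zero]
  smul_mem' := by
    intro A B hB z hz c
    rw [smul_eq_mul, map_mul, hB z hz c, mul_zero]

/-- The polynomial `c ↦ Q (c x)`. -/
private def MapIdeal_poly (x : Fin (N + 1) → ℂ) (Q : MvPolynomial (Fin (N + 1)) ℂ) : Polynomial ℂ :=
  ∑ k ∈ Finset.range (Q.totalDegree + 1), Polynomial.C (eval x (homogeneousComponent k Q)) * Polynomial.X ^ k

private lemma MapIdeal_poly_eval (x : Fin (N + 1) → ℂ) (Q : MvPolynomial (Fin (N + 1)) ℂ) (c : ℂ) :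
    (MapIdeal_poly x Q).eval c = eval (c • x) Q := by
  conv_rhs => rw [← MvPolynomial.sum_homogeneousComponent Q]
  rw [MapIdeal_poly, Polynomial.eval_finsetSum, map_sum]
  refine Finset.sum_congr rfl fun k _ => ?_
  rw [eval_smul_form (homogeneousComponent_isHomogeneous k Q)]
  rw [Polynomial.eval_mul, Polynomial.eval_C, Polynomial.eval_pow, Polynomial.eval_X, mul_comm]

private lemma MapIdeal_poly_coeff (x : Fin (N + 1) → ℂ) (Q : MvPolynomial (Fin (N + 1)) ℂ) (n : ℕ) :
    (MapIdeal_poly x Q).coeff n = eval x (homogeneousComponent n Q) := by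
  rw [MapIdeal_poly, Polynomial.finsetSum_coeff]
  simp only [Polynomial.coeff_C_mul, Polynomial.coeff_X_pow]
  by_cases hn : n ∈ Finset.range (Q.totalDegree + 1)
  · rw [Finset.sum_eq_single n]
    · simp
    · intro b _ hb
      rw [if_neg hb.symm, mul_zero]
    · intro h
      exact absurd hn h
  · rw [Finset.sum_eq_zero, homogeneousComponent_eq_zero, map_zero]
    · rw [Finset.mem_range] at hn
      omega
    · intro k hk
      rw [if_neg, mul_zero]
      rintro rfl
      exact hn hk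

private lemma MapIdeal_comp {x : Fin (N + 1) → ℂ} {Q : MvPolynomial (Fin (N + 1)) ℂ}
    (h : ∀ c : ℂ, eval (c • x) Q = 0) (n : ℕ) : eval x (homogeneousComponent n Q) = 0 := by
  have h1 : MapIdeal_poly x Q = 0 := by
    apply Polynomial.funext
    intro c
    rw [MapIdeal_poly_eval, h c, Polynomial.eval_zero]
  rw [← MapIdeal_poly_coeff, h1, Polynomial.coeff_zero]

theorem mem_mapIdeal_form {d : ℕ} {Q : MvPolynomial (Fin (N + 1)) ℂ} (hQ : Q.IsHomogeneous d) :
    Q ∈ mapIdeal f U ↔ ∀ z ∈ U, VanishesAt Q (f z) := by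
  constructor
  · intro h z hz
    have h1 := h z hz 1
    rw [one_smul] at h1
    exact h1
  · intro h z hz c
    have h1 : eval (f z).rep Q = 0 := h z hz
    rw [eval_smul_form hQ, h1, mul_zero]

theorem mapIdeal_homog : Homog (mapIdeal f U) := by
  intro Q hQ n z hz c
  rw [eval_smul_form (homogeneousComponent_isHomogeneous n Q), MapIdeal_comp (hQ z hz) n, mul_zero]

private lemma MapIdeal_analytic {φ : ℂ → Fin (N + 1) → ℂ} {z₀ : ℂ} (hφ : AnalyticAt ℂ φ z₀)
    (R : MvPolynomial (Fin (N + 1)) ℂ) : AnalyticAt ℂ (fun z => eval (φ z) R) z₀ := by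
  have hi : ∀ i, AnalyticAt ℂ (fun z => φ z i) z₀ := fun i =>
    (ContinuousLinearMap.proj (R := ℂ) (φ := fun _ : Fin (N + 1) => ℂ) i).analyticAt _ |>.comp hφ
  induction R using MvPolynomial.induction_on with
  | C a =>
    simp only [eval_C]
    exact analyticAt_const
  | add p q hp hq =>
    simp only [map_add]
    exact hp.add hq
  | mul_X p i hp =>
    simp only [map_mul, eval_X]
    exact hp.mul (hi i)

private lemma MapIdeal_notMem (hUc : IsPreconnected U) (hf : HolomorphicInto f U)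
    {d : ℕ} {R : MvPolynomial (Fin (N + 1)) ℂ} (hR : R.IsHomogeneous d) (hRI : R ∉ mapIdeal f U) {z₀ : ℂ}
    (hz₀ : z₀ ∈ U) : ∀ᶠ z in 𝓝[≠] z₀, ¬ VanishesAt R (f z) := by
  have hu : IsOpen {x : ℂ | ∀ᶠ z in 𝓝 x, VanishesAt R (f z)} := isOpen_setOfPred_eventually_nhds
  have hv : IsOpen {x : ℂ | ∀ᶠ z in 𝓝[≠] x, ¬ VanishesAt R (f z)} := isOpen_setOfPred_eventually_nhdsWithin
  have hcov : U ⊆ {x : ℂ | ∀ᶠ z in 𝓝 x, VanishesAt R (f z)} ∪
      {x : ℂ | ∀ᶠ z in 𝓝[≠] x, ¬ VanishesAt R (f z)} := by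
    intro z₁ hz₁
    obtain ⟨φ, hφ, he⟩ := hf z₁ hz₁
    rcases (MapIdeal_analytic hφ R).eventually_eq_zero_or_eventually_ne_zero with h | h
    · left
      change ∀ᶠ z in 𝓝 z₁, VanishesAt R (f z)
      filter_upwards [h, he] with z h1 h2
      obtain ⟨h3, h4⟩ := h2
      rw [h4, vanishesAt_mk hR]
      exact h1
    · right
      change ∀ᶠ z in 𝓝[≠] z₁, ¬ VanishesAt R (f z)
      filter_upwards [h, he.filter_mono nhdsWithin_le_nhds] with z h1 h2
      obtain ⟨h3, h4⟩ := h2
      rw [h4, vanishesAt_mk hR]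
      exact h1
  by_contra hcon
  have h1 : z₀ ∈ {x : ℂ | ∀ᶠ z in 𝓝 x, VanishesAt R (f z)} := (hcov hz₀).resolve_right hcon
  apply hRI
  rw [mem_mapIdeal_form hR]
  intro z hz
  rcases hcov hz with h2 | h2
  · have h3 : ∀ᶠ w in 𝓝 z, VanishesAt R (f w) := h2
    exact h3.self_of_nhds
  · exfalso
    obtain ⟨w, -, hw1, hw2⟩ := hUc _ _ hu hv hcov ⟨z₀, hz₀, h1⟩ ⟨z, hz, h2⟩
    have h3 : ∀ᶠ z in 𝓝 w, VanishesAt R (f z) := hw1
    have h4 : ∀ᶠ z in 𝓝[≠] w, ¬ VanishesAt R (f z) := hw2
    obtain ⟨t, ht1, ht2⟩ := ((h3.filter_mono nhdsWithin_le_nhds).and h4).exists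
    exact ht2 ht1

theorem mapIdeal_isPrime (hUo : IsOpen U) (hUc : IsPreconnected U) (hne : U.Nonempty) (hf : HolomorphicInto f U) :
    (mapIdeal f U).IsPrime := by
  obtain ⟨z₀, hz₀⟩ := hne
  have hcomp : ∀ A : MvPolynomial (Fin (N + 1)) ℂ, A ∉ mapIdeal f U →
      ∃ k, homogeneousComponent k A ∉ mapIdeal f U := by
    intro A hA
    by_contra hcon
    push Not at hcon
    apply hA
    rw [← MvPolynomial.sum_homogeneousComponent A]
    exact Ideal.sum_mem _ fun i _ => hcon i
  refine ⟨?_, ?_⟩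
  · intro htop
    have h1 : (1 : MvPolynomial (Fin (N + 1)) ℂ) ∈ mapIdeal f U := by
      rw [htop]
      trivial
    have h2 := h1 z₀ hz₀ 1
    rw [map_one] at h2
    exact one_ne_zero h2
  · intro A B hAB
    by_contra hcon
    push Not at hcon
    obtain ⟨k, hk⟩ := hcomp A hcon.1
    obtain ⟨l, hl⟩ := hcomp B hcon.2
    have h1 := MapIdeal_notMem hUc hf (homogeneousComponent_isHomogeneous k A) hk hz₀
    have h2 := MapIdeal_notMem hUc hf (homogeneousComponent_isHomogeneous l B) hl hz₀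
    have h3' : ∀ᶠ z in 𝓝 z₀, z ∈ U := hUo.mem_nhds hz₀
    have h3 : ∀ᶠ z in 𝓝[≠] z₀, z ∈ U := h3'.filter_mono nhdsWithin_le_nhds
    obtain ⟨z, ⟨h4, h5⟩, h6⟩ := ((h1.and h2).and h3).exists
    have h7 : MapIdeal_poly (f z).rep A * MapIdeal_poly (f z).rep B = 0 := by
      apply Polynomial.funext
      intro c
      rw [Polynomial.eval_mul, MapIdeal_poly_eval, MapIdeal_poly_eval, ← map_mul, Polynomial.eval_zero]
      exact hAB z h6 c
    rcases mul_eq_zero.1 h7 with h8 | h8
    · apply h4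
      change eval (f z).rep (homogeneousComponent k A) = 0
      rw [← MapIdeal_poly_coeff, h8, Polynomial.coeff_zero]
    · apply h5
      change eval (f z).rep (homogeneousComponent l B) = 0
      rw [← MapIdeal_poly_coeff, h8, Polynomial.coeff_zero]

theorem exists_X_notMem (hne : U.Nonempty) : ∃ i, (X i : MvPolynomial (Fin (N + 1)) ℂ) ∉ mapIdeal f U := by
  obtain ⟨z, hz⟩ := hne
  by_contra hcon
  push Not at hcon
  apply (f z).rep_nonzero
  funext i
  have h1 := hcon i z hz 1
  rw [one_smul, eval_X] at h1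
  exact h1

theorem mem_variety_mapIdeal {z : ℂ} (hz : z ∈ U) : f z ∈ variety (mapIdeal f U) := by
  refine ⟨fun Q hQ n hn => (mem_mapIdeal_form hn).1 hQ z hz, fun m => m.elim0⟩

theorem le_mapIdeal {P : Ideal (MvPolynomial (Fin (N + 1)) ℂ)} (hP : Homog P) (h : ∀ z ∈ U, f z ∈ variety P) :
    P ≤ mapIdeal f U := by
  intro Q hQ
  rw [← MvPolynomial.sum_homogeneousComponent Q]
  refine Ideal.sum_mem _ fun i _ => ?_
  rw [mem_mapIdeal_form (homogeneousComponent_isHomogeneous i Q)]
  exact fun z hz => (h z hz).1 _ (hP Q hQ i) i (homogeneousComponent_isHomogeneous i Q)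

end Pool.Agent.H17BP
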