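import Pool.Agent.H17BP.TrdegLt
import Pool.Agent.H17BP.MapIdeal
import Pool.Agent.H17BP.ConstV
import Pool.Agent.H17.PicardExt
import Pool.Agent.H17R.Brody
import Pool.Agent.H62.FC.CurveIdeal

/-!
# The same exceptional set

If holomorphic maps from the punctured disc to a surface extend, unless they are maps into a hypersurface, then they
extend unless they are maps into the set which contains the entire curves.
-/

open Topology Filter MvPolynomial

noncomputable section

namespace Pool.Agent.H17BP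

open Pool.Agent.H17 (PN VanishesAt ZariskiClosedIn HolomorphicInto puncturedDisc zeroLocus)
open Pool.Agent.H17LG.Variety (FunField)
open Pool.Agent.H62.FC (Homog exists_fin_basis trdeg_mono)

variable {N : ℕ} {P : Ideal (MvPolynomial (Fin (N + 1)) ℂ)}

theorem isPreconnected_puncturedDisc : IsPreconnected puncturedDisc := by
  have h : puncturedDisc = Complex.exp '' {z : ℂ | z.re < 0} := by
    ext z
    constructor
    · rintro ⟨h1, h2⟩
      have h3 : z ≠ 0 := h2
      refine ⟨Complex.log z, ?_, Complex.exp_log h3⟩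
      rw [mem_ball_zero_iff] at h1
      change (Complex.log z).re < 0
      rw [Complex.log_re]
      exact Real.log_neg (norm_pos_iff.mpr h3) h1
    · rintro ⟨w, hw, rfl⟩
      refine ⟨?_, Complex.exp_ne_zero w⟩
      rw [mem_ball_zero_iff, Complex.norm_exp]
      have h1 := Real.exp_lt_exp.mpr hw
      rwa [Real.exp_zero] at h1
  rw [h]
  exact (convex_halfSpace_re_lt 0).isPreconnected.image Complex.exp Complex.continuous_exp.continuousOn

theorem picard_of_form [P.IsPrime] (hP : Homog P) {z : Fin 2 → FunField P} (hz : IsTranscendenceBasis ℂ z)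
    {S : Set (MvPolynomial (Fin (N + 1)) ℂ)} (hS : ∀ Q ∈ S, ∃ n, Q.IsHomogeneous n)
    (hbr : ∀ f : ℂ → PN N, HolomorphicInto f Set.univ → (∀ z, f z ∈ variety P) → (∃ z w, f z ≠ f w) →
      ∀ z, f z ∈ {x | x ∈ variety P ∧ ∀ Q ∈ S, VanishesAt Q x})
    {d : ℕ} {Q : MvPolynomial (Fin (N + 1)) ℂ} (hQ : Q.IsHomogeneous d) (hQP : Q ∉ P)
    {f : ℂ → PN N} (hf : HolomorphicInto f puncturedDisc) (hfX : ∀ z ∈ puncturedDisc, f z ∈ variety P)
    (hfQ : ∀ z ∈ puncturedDisc, VanishesAt Q (f z))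
    (hfS : ∃ z ∈ puncturedDisc, f z ∉ {x | x ∈ variety P ∧ ∀ Q ∈ S, VanishesAt Q x}) :
    ∃ g : ℂ → PN N, HolomorphicInto g (Metric.ball 0 1) ∧ ∀ z ∈ puncturedDisc, g z = f z := by
  have hopen : IsOpen puncturedDisc := Metric.isOpen_ball.sdiff isClosed_singleton
  obtain ⟨z₁, hz₁, hz₁S⟩ := hfS
  have hne : puncturedDisc.Nonempty := ⟨z₁, hz₁⟩
  set I := mapIdeal f puncturedDisc with hI
  have hIp : I.IsPrime := mapIdeal_isPrime hopen isPreconnected_puncturedDisc hne hf
  have hIh : Homog I := mapIdeal_homog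
  have hPI : P ≤ I := le_mapIdeal hP hfX
  have hIX : ∃ i, (X i : MvPolynomial (Fin (N + 1)) ℂ) ∉ I := exists_X_notMem hne
  obtain ⟨w, hw⟩ := exists_fin_basis (P := I) hIX
  have hw2 : w < 2 := trdeg_lt hP hIh hPI (fun h => hQP (h ((mem_mapIdeal_form hQ).2 hfQ))) hIX ⟨z, hz⟩ hw
  -- a form of `S` which is not in `I`
  obtain ⟨R, hRS, hRz⟩ : ∃ R ∈ S, ¬ VanishesAt R (f z₁) := by
    by_contra hcon
    push Not at hcon
    exact hz₁S ⟨hfX z₁ hz₁, hcon⟩
  obtain ⟨n, hR⟩ := hS R hRS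
  have hRI : R ∉ I := fun h => hRz ((mem_mapIdeal_form hR).1 h z₁ hz₁)
  let κ : Type := {Q : MvPolynomial (Fin (N + 1)) ℂ // Q ∈ I ∧ ∃ n, Q.IsHomogeneous n}
  let G : κ → MvPolynomial (Fin (N + 1)) ℂ := fun l => l.1
  have hG : ∀ l : κ, (G l).IsHomogeneous (l.2.2.choose) := fun l => l.2.2.choose_spec
  have hmem : ∀ x : PN N, x ∈ zeroLocus G ↔ x ∈ variety I := by
    intro x
    constructor
    · intro h
      exact ⟨fun Q hQ n hn => h ⟨Q, hQ, n, hn⟩, fun m => m.elim0⟩
    · intro h l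
      exact h.1 l.1 l.2.1 _ l.2.2.choose_spec
  refine Pool.Agent.H17.picard_of_brody (G := G) hG ?_ hf fun z hz => (hmem _).2 (mem_variety_mapIdeal hz)
  -- there are no entire curves
  intro h hh hhX
  by_contra hcon
  push Not at hcon
  have hhP : ∀ z, h z ∈ variety P := fun z =>
    ⟨fun Q hQ n hn => ((hmem _).1 (hhX z)).1 Q (hPI hQ) n hn, fun m => m.elim0⟩
  have hhS := hbr h hh hhP hcon
  set J := mapIdeal h Set.univ with hJ
  have hJp : J.IsPrime := mapIdeal_isPrime isOpen_univ isPreconnected_univ Set.univ_nonempty hh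
  have hJX : ∃ i, (X i : MvPolynomial (Fin (N + 1)) ℂ) ∉ J := exists_X_notMem Set.univ_nonempty
  have hJh : Homog J := mapIdeal_homog
  have hIJ : I ≤ J := le_mapIdeal hIh fun z _ => (hmem _).1 (hhX z)
  have hRJ : R ∈ J := (mem_mapIdeal_form hR).2 fun z _ => (hhS z).2 R hRS
  obtain ⟨w', hw'⟩ := exists_fin_basis (P := J) hJX
  have hlt : w' < w := trdeg_lt hIh hJh hIJ (fun h => hRI (h hRJ)) hJX hw hw'
  have hw0 : w' = 0 := by omega
  subst hw0
  obtain ⟨a, b, hab⟩ := hcon
  exact hab (eq_of_trdeg_zero hJh hJX hw' _ (mem_variety_mapIdeal (Set.mem_univ a)) _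
    (mem_variety_mapIdeal (Set.mem_univ b)))

end Pool.Agent.H17BP
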