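import Pool.Agent.H17BP.Surf

/-!
# Holomorphic curves in a closed surface, the induction hypothesis

Holomorphic maps into `ℙ(V)` are given by functions with values in `V ∖ {0}`, which are not required to be
continuous, see `HolP`.
-/

open Topology Filter

noncomputable section

namespace Pool.Agent.H17BP

variable {V : Type} [NormedAddCommGroup V] [NormedSpace ℂ V]

/-- The two vectors are proportional. -/
def Pr (x y : V) : Prop := ∃ c : ℂ, c ≠ 0 ∧ x = c • y

/-- The function `f` is, near `z₀`, proportional to a holomorphic function without zeros, that is, `f` defines a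
holomorphic map to `ℙ(V)`. -/
def HolP (f : ℂ → V) (z₀ : ℂ) : Prop :=
  ∃ F : ℂ → V, AnalyticAt ℂ F z₀ ∧ F z₀ ≠ 0 ∧ ∀ᶠ z in 𝓝 z₀, Pr (f z) (F z)

/-- Every holomorphic map from `ℂ` to the projective set with the cone `X` which is not a map into `B` is
constant. -/
def Brody (X B : Set V) : Prop :=
  ∀ f : ℂ → V, (∀ z, HolP f z) → (∀ z, f z ∈ X) → (∃ z, f z ∉ B) → ∀ z w, Pr (f z) (f w)

/-- Every holomorphic map from a punctured disc to the projective set with the cone `X` which is not a map into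
`B` extends to the disc. -/
def Picard (X B : Set V) : Prop :=
  ∀ r : ℝ, 0 < r → ∀ f : ℂ → V, (∀ z : ℂ, z ≠ 0 → ‖z‖ < r → HolP f z ∧ f z ∈ X) →
    (∃ z : ℂ, z ≠ 0 ∧ ‖z‖ < r ∧ f z ∉ B) →
    ∃ F : ℂ → V, AnalyticAt ℂ F 0 ∧ F 0 ≠ 0 ∧ ∀ᶠ z in 𝓝[≠] (0 : ℂ), Pr (f z) (F z)

/-- The subset `B` of `X` is the set of the common zeros of the forms `Q i` of degree `D`, and near every point
it is the set of the zeros of one of these forms. -/
structure Eqs (X B : Set V) {κ : Type} (Q : κ → V → ℂ) (D : ℕ) : Prop where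
  pos : 1 ≤ D
  an : ∀ i x, AnalyticAt ℂ (Q i) x
  smul : ∀ i (c : ℂ) x, Q i (c • x) = c ^ D * Q i x
  mem_iff : ∀ x, x ∈ B ↔ x ∈ X ∧ ∀ i, Q i x = 0
  gen : ∀ x ∈ X, ∃ i, ∀ᶠ y in 𝓝 x, y ∈ X → Q i y = 0 → y ∈ B

/-- A closed surface with a curve `B` in it, a section `Ω` of `m K - j H` without zeros outside `B`, such that
every holomorphic map from `ℂ` which is not a map into `B` is constant. -/
structure Model (X B : Set V) (m j : ℕ) (Ω : V → V → V → ℂ) {κ : Type} (Q : κ → V → ℂ) (D : ℕ) :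
    Prop where
  surf : Surface X
  one_m : 1 ≤ m
  one_j : 1 ≤ j
  form : IsForm X m j Ω
  noZeros : NoZeros X B Ω
  eqs : Eqs X B Q D
  thin : ∀ σ τ, IsChart X σ τ → ∃ᶠ p in 𝓝 (0 : ℂ × ℂ), σ p ∉ B
  brody : Brody X B

/-- At the point `x` the curve `B` has a local equation which becomes a monomial after at most `n` blow-ups over
every point. -/
def ResAt (X B : Set V) (x : V) (n : ℕ) : Prop :=
  ∃ σ τ g, IsChart X σ τ ∧ σ 0 = x ∧ LocalEq B σ g ∧ ResN n g

end Pool.Agent.H17BP
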