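import Pool.Agent.H17BP.ArtA

/-!
# Resolution of the singularities of a plane curve germ

`claim_zero`: a slice of order `0` means `φ 0 ≠ 0` (the slice at `z = 0` is `φ 0`): `Mono`, `ResN 0`.
`claim_succ`: let the slice of `φ` along `v` have order `≤ k + 1`.  If it is `≤ k`: `hk`.  So let it be `k + 1`; then
`v ≠ 0` (the slice along `0` is constant: order `0` or `⊤`).  `exists_lin`: `θ` with `θ (0, y) = y v`, so
`φ₁ = φ ∘ θ` has `analyticOrderAt (fun y => φ₁ (0, y)) 0 = k + 1`; `exists_nf`: with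
`θ₂ (x, y) = (x, y + ρ x)` (`bihol_shift`) `φ₁ ∘ θ₂` is `IsNF k c`.  Let `Θ = θ ∘ θ₂`; by `ResN.of_comp` it is enough
to treat `(D₁ ∘ Θ)^a (D₂ ∘ Θ)^b (φ ∘ Θ)`, with `φ ∘ Θ` in normal form `IsNF k c` and `Coord (D₁ ∘ Θ) (D₂ ∘ Θ)`
(`Bihol.comp`).  If some `c j`, `j < k`, has finite order: `claim_inner` with `u = 1`.  Otherwise all `c j` vanish
near `0` and `φ ∘ Θ = y^(k+1) U` near `0` (the condition near `x = 0` pulls back to the product neighbourhood):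
`res_pow` with `F = x.2` (`dy F 0 = 1`), `n = k + 1`.
-/

open Topology Filter

noncomputable section

namespace Pool.Agent.H17BP

theorem claim_zero : Claim 0 := by
  intro φ hφ hs D₁ D₂ hD a b
  obtain ⟨v, hv⟩ := hs
  have h1 : analyticOrderAt (fun z : ℂ => φ (z * v.1, z * v.2)) 0 = 0 := by
    simpa using hv
  rw [(ArtA_slice_an hφ v).analyticOrderAt_eq_zero] at h1
  have h2 : ((0 : ℂ) * v.1, (0 : ℂ) * v.2) = 0 := by simp
  rw [h2] at h1
  exact ⟨0, D₁, D₂, a, b, φ, hD, hφ, h1, Eventually.of_forall fun x => rfl⟩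

theorem claim_succ {k : ℕ} (hk : Claim k) : Claim (k + 1) := by
  intro φ hφ hs D₁ D₂ hD a b
  by_cases hs1 : SliceLE k φ
  · exact hk φ hφ hs1 D₁ D₂ hD a b
  obtain ⟨v, hv⟩ := hs
  have hv1 : ((k : ℕ) : ℕ∞) < analyticOrderAt (fun z : ℂ => φ (z * v.1, z * v.2)) 0 := by
    by_contra h
    push Not at h
    exact hs1 ⟨v, h⟩
  have hv2 : analyticOrderAt (fun z : ℂ => φ (z * v.1, z * v.2)) 0 = ((k + 1 : ℕ) : ℕ∞) := by
    refine le_antisymm hv ?_
    have h1 := Order.add_one_le_of_lt hv1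
    exact_mod_cast h1
  have hv0 : v ≠ 0 := by
    intro h
    subst h
    have h1 := ArtA_slice_an hφ 0
    have h2 : analyticOrderAt (fun z : ℂ => φ (z * (0 : ℂ × ℂ).1, z * (0 : ℂ × ℂ).2)) 0 ≠ ⊤ := by
      rw [hv2]
      exact ENat.natCast_ne_top _
    have h3 : analyticOrderAt (fun z : ℂ => φ (z * (0 : ℂ × ℂ).1, z * (0 : ℂ × ℂ).2)) 0 ≠ 0 := by
      rw [hv2]
      exact_mod_cast Nat.succ_ne_zero k
    rw [Ne, h1.analyticOrderAt_eq_zero, not_not] at h3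
    rw [Ne, analyticOrderAt_eq_top] at h2
    refine h2 (Eventually.of_forall fun z => ?_)
    simpa using h3
  obtain ⟨θ, hθ, hθy⟩ := exists_lin hv0
  have hφ1 : AnalyticAt ℂ (fun x => φ (θ x)) 0 := ArtA_comp_an hφ hθ.an hθ.zero
  have ho : analyticOrderAt (fun y : ℂ => (fun x => φ (θ x)) (0, y)) 0 = ((k + 1 : ℕ) : ℕ∞) := by
    have h1 : (fun y : ℂ => (fun x => φ (θ x)) (0, y)) = fun z : ℂ => φ (z * v.1, z * v.2) := by
      funext y
      simp only [hθy]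
    rw [h1]
    exact hv2
  obtain ⟨ρ, hρ, hρ0, c, hc⟩ := exists_nf hφ1 ho
  have hθ2 := bihol_shift hρ hρ0
  have hΘ := hθ.comp hθ2
  obtain ⟨Θ, hΘe⟩ : ∃ Θ : ℂ × ℂ → ℂ × ℂ, Θ = θ ∘ fun x : ℂ × ℂ => (x.1, x.2 + ρ x.1) := ⟨_, rfl⟩
  rw [← hΘe] at hΘ
  have hc' : IsNF k c (φ ∘ Θ) := by
    rw [hΘe]
    exact hc
  have hDΘ : Coord (D₁ ∘ Θ) (D₂ ∘ Θ) := Bihol.comp hD hΘ
  have hfin : ∃ N, ResN N ((fun x => D₁ x ^ a * D₂ x ^ b * φ x) ∘ Θ) := by
    by_cases hf : ∃ j < k, analyticOrderAt (c j) 0 ≠ ⊤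
    · obtain ⟨j, hjk, hj⟩ := hf
      obtain ⟨K, hK⟩ := ENat.ne_top_iff_exists.1 hj
      obtain ⟨N, hN⟩ := claim_inner hk K hc' ⟨j, hjk, hK.symm⟩ hDΘ a b (u := fun _ => 1) analyticAt_const
        one_ne_zero
      refine ⟨N, hN.congr (Eventually.of_forall fun x => ?_)⟩
      simp
    · push Not at hf
      obtain ⟨-, U, hU, hU0, hUe⟩ := hc'
      have h1 : ∀ᶠ x in 𝓝 (0 : ℂ × ℂ), ∀ j ∈ Finset.range k, c j x.1 = 0 := by
        rw [Finset.eventually_all]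
        intro j hj
        have h2 := analyticOrderAt_eq_top.1 (hf j (Finset.mem_range.1 hj))
        have h3 : Tendsto (fun x : ℂ × ℂ => x.1) (𝓝 0) (𝓝 0) := continuous_fst.tendsto 0
        exact h3.eventually h2
      obtain ⟨N, hN⟩ := res_pow (F := fun x : ℂ × ℂ => x.2) analyticAt_snd rfl (Or.inr (by
        have h2 : fderiv ℂ (fun x : ℂ × ℂ => x.2) 0 = ContinuousLinearMap.snd ℂ ℂ ℂ := fderiv_snd
        unfold dy
        rw [h2]
        simp)) hDΘ a b (k + 1) hU hU0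
      refine ⟨N, hN.congr ?_⟩
      filter_upwards [hUe, h1] with x h2 h3
      simp only [Function.comp_apply] at h2 ⊢
      rw [h2, Finset.sum_eq_zero (fun j hj => by rw [h3 j hj, zero_mul]), zero_add]
      ring
  obtain ⟨N, hN⟩ := hfin
  exact ⟨N, ResN.of_comp hΘ hN⟩

theorem claim (m : ℕ) : Claim m := by
  induction m with
  | zero => exact claim_zero
  | succ k ih => exact claim_succ ih

/-- **Resolution of a plane curve germ** by finitely many point blow-ups. -/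
theorem exists_resN {g : ℂ × ℂ → ℂ} (hg : AnalyticAt ℂ g 0) (h : ¬ ∀ᶠ x in 𝓝 (0 : ℂ × ℂ), g x = 0) :
    ∃ n, ResN n g := by
  obtain ⟨m, v, hv⟩ := exists_slice_of_ne hg h
  obtain ⟨N, hN⟩ := claim m g hg ⟨v, hv⟩ _ _ coord_fst_snd 0 0
  exact ⟨N, hN.congr (Eventually.of_forall fun x => by simp)⟩

end Pool.Agent.H17BP
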