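import Pool.Agent.H17BP.ResS
import Pool.Agent.H62.BU.SurfB
import Pool.Agent.H62.BU.FormB
import Pool.Agent.H62.BU.LiftB

/-!
# The two sets of definitions agree
-/

open Topology Filter

noncomputable section

namespace Pool.Agent.H17BP

variable {V : Type} [NormedAddCommGroup V] [NormedSpace ℂ V] {X B : Set V}

theorem chart_iff {σ : ℂ × ℂ → V} {τ : V → ℂ × ℂ} : H62.BU.IsChart X σ τ ↔ IsChart X σ τ :=
  ⟨fun h => ⟨h.σ_an, h.σ_mem, h.ne, h.τ_an, h.left, h.right, h.inv⟩,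
    fun h => ⟨h.σ_an, h.σ_mem, h.ne, h.τ_an, h.left, h.right, h.inv⟩⟩

theorem surface_iff : H62.BU.Surface X ↔ Surface X :=
  ⟨fun h => ⟨h.zero, h.smul, h.closed, fun x hx => by
      obtain ⟨σ, τ, h1, h2⟩ := h.chart x hx
      exact ⟨σ, τ, chart_iff.1 h1, h2⟩⟩,
    fun h => ⟨h.zero, h.smul, h.closed, fun x hx => by
      obtain ⟨σ, τ, h1, h2⟩ := h.chart x hx
      exact ⟨σ, τ, chart_iff.2 h1, h2⟩⟩⟩

theorem isForm_iff {m j : ℕ} {Ω : V → V → V → ℂ} : H62.BU.IsForm X m j Ω ↔ IsForm X m j Ω :=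
  ⟨fun h => ⟨fun x hx v hv w hw => h.add_smul x hx v w hv hw, fun x hx v hv w hw => h.det x hx v w hv hw,
      fun x hx v hv w hw => h.scale x hx v w hv hw, h.analytic⟩,
    fun h => ⟨fun x hx v w hv hw => h.add_smul x hx v hv w hw, fun x hx v w hv hw => h.det x hx v hv w hw,
      fun x hx v w hv hw => h.scale x hx v hv w hw, h.analytic⟩⟩

theorem noZeros_iff {Ω : V → V → V → ℂ} : H62.BU.NoZeroOff X B Ω ↔ NoZeros X B Ω :=
  ⟨fun h x hx hB v hv w hw => h x hx hB v w hv hw, fun h x hx hB v w hv hw => h x hx hB v hv w hw⟩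

theorem Eqs.sub {κ : Type} {Q : κ → V → ℂ} {D : ℕ} (h : Eqs X B Q D) : B ⊆ X :=
  fun x hx => ((h.mem_iff x).1 hx).1

theorem Eqs.cone {κ : Type} {Q : κ → V → ℂ} {D : ℕ} (h : Eqs X B Q D)
    (hX : ∀ x ∈ X, ∀ c : ℂ, c ≠ 0 → c • x ∈ X) : ∀ x ∈ B, ∀ c : ℂ, c ≠ 0 → c • x ∈ B := by
  intro x hx c hc
  have h1 := (h.mem_iff x).1 hx
  exact (h.mem_iff _).2 ⟨hX x h1.1 c hc, fun i => by rw [h.smul, h1.2 i, mul_zero]⟩

theorem Pr.mem_iff (hX : ∀ x ∈ X, ∀ c : ℂ, c ≠ 0 → c • x ∈ X) {x y : V} (h : Pr x y) : x ∈ X ↔ y ∈ X := by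
  constructor
  · intro hx
    obtain ⟨c, hc, e⟩ := h.symm
    rw [e]
    exact hX x hx c hc
  · intro hy
    obtain ⟨c, hc, e⟩ := h
    rw [e]
    exact hX y hy c hc

end Pool.Agent.H17BP
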