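import Mathlib

/-!
# Division of an analytic function by a coordinate

`f : ℂ × ℂ → E` analytic at `0`, `f (0, y) = 0` for small `y`: then `f x = x.1 • g x` near `0` with `g` analytic
at `0`.

Proof.  Let `HasFPowerSeriesOnBall f p 0 r`.  The function `y ↦ f (0, y)` has the power series
`p.compContinuousLinearMap (inr)`, so (uniqueness in one variable, `HasFPowerSeriesAt.eq_zero` or
`HasFPowerSeriesAt.apply_eq_zero`) `p n (fun _ => (0, y)) = 0` for all `n, y`.  Let `π w = (0, w.2)`, `e = (1, 0)`.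
For `w = (x, y)` telescoping in the arguments gives
`p (n+1) (w, …, w) = p (n+1) (w, …, w) - p (n+1) (π w, …, π w)
  = ∑_{k ≤ n} x • p (n+1) (π w, …, π w [k times], e, w, …, w)` because `w - π w = x e`.
Define `q n (v_1, …, v_n) = ∑_{k ≤ n} p (n+1) (π v_1, …, π v_k, e, v_{k+1}, …, v_n)`; then
`‖q n‖ ≤ (n+1) ‖p (n+1)‖ C ^ (n+1)` with a constant `C` for `‖π‖, ‖e‖`, so `q` has positive radius and
`g x = ∑ q n (x, …, x)` is analytic at `0` and `f x = x.1 • g x`.

Other possible proofs are fine: e.g. as a parameter integral, or one first proves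
`HasFPowerSeriesAt` for `∑ a_{ij} x^i y^j` with `‖a_{ij}‖ ≤ C r^(-i-j)`; or (shorter) use the mean value form
`g x = ∫ t in 0..1, fderiv ℂ f (t x.1, x.2) (1, 0)`: on a small ball the power series of `fderiv f` (evaluated at
`(1,0)`) is composed with the linear map `(t x.1, x.2)` and integrated term by term:
`q n = ∫ t in 0..1, (p' n).compContinuousLinearMap (L_t)` (Bochner integral of continuous multilinear maps),
`‖q n‖ ≤ sup ‖p' n‖ C ^ n`, and `HasFPowerSeriesOnBall` for `g` by `intervalIntegral` of a uniformly convergent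
series (`hasSum_integral_of_summable_norm` / `tendstoUniformlyOn`), and `f x - f (0, x.2) = x.1 • g x` is the
fundamental theorem of calculus along the segment.
-/

open Topology Filter

noncomputable section

namespace Pool.Agent.H17BP

variable {E : Type} [NormedAddCommGroup E] [NormedSpace ℂ E] [CompleteSpace E]

/-- the linear map `(x, y) ↦ (t x, y)` -/
private def Div_L (t : ℝ) : ℂ × ℂ →L[ℂ] ℂ × ℂ :=
  ((t : ℂ) • ContinuousLinearMap.fst ℂ ℂ ℂ).prod (ContinuousLinearMap.snd ℂ ℂ ℂ)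

private theorem Div_L_apply (t : ℝ) (w : ℂ × ℂ) : Div_L t w = ((t : ℂ) * w.1, w.2) := rfl

private theorem Div_L_eq (t : ℝ) : Div_L t =
    (t : ℂ) • ((ContinuousLinearMap.fst ℂ ℂ ℂ).prod (0 : ℂ × ℂ →L[ℂ] ℂ)) +
      (0 : ℂ × ℂ →L[ℂ] ℂ).prod (ContinuousLinearMap.snd ℂ ℂ ℂ) := by
  apply ContinuousLinearMap.ext
  intro w
  rw [Div_L_apply]
  apply Prod.ext
  · simp
  · simp

private theorem Div_L_cont : Continuous Div_L := by
  have h : Div_L = fun t : ℝ =>
      (t : ℂ) • ((ContinuousLinearMap.fst ℂ ℂ ℂ).prod (0 : ℂ × ℂ →L[ℂ] ℂ)) +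
      (0 : ℂ × ℂ →L[ℂ] ℂ).prod (ContinuousLinearMap.snd ℂ ℂ ℂ) := funext Div_L_eq
  rw [h]
  exact (Complex.continuous_ofReal.smul continuous_const).add continuous_const

private theorem Div_norm_L_apply {t : ℝ} (h0 : 0 ≤ t) (h1 : t ≤ 1) (w : ℂ × ℂ) :
    ‖Div_L t w‖ ≤ ‖w‖ := by
  rw [Div_L_apply, Prod.norm_def, Prod.norm_def]
  refine max_le_max ?_ le_rfl
  rw [norm_mul, Complex.norm_real, Real.norm_of_nonneg h0]
  exact mul_le_of_le_one_left (norm_nonneg _) h1

private theorem Div_norm_L {t : ℝ} (h0 : 0 ≤ t) (h1 : t ≤ 1) : ‖Div_L t‖ ≤ 1 := by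
  refine ContinuousLinearMap.opNorm_le_bound _ zero_le_one fun w => ?_
  rw [one_mul]
  exact Div_norm_L_apply h0 h1 w

/-- the `n`-th term after composition with `Div_L t` -/
private def Div_A {n : ℕ} (P : ContinuousMultilinearMap ℂ (fun _ : Fin n => ℂ × ℂ) E) (t : ℝ) :
    ContinuousMultilinearMap ℂ (fun _ : Fin n => ℂ × ℂ) E :=
  P.compContinuousLinearMap (fun _ => Div_L t)

omit [CompleteSpace E] in
private theorem Div_A_cont {n : ℕ}
    (P : ContinuousMultilinearMap ℂ (fun _ : Fin n => ℂ × ℂ) E) : Continuous (Div_A P) := by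
  have h : Div_A P = fun t => P.compContinuousLinearMapLRight (E := fun _ : Fin n => ℂ × ℂ)
      (fun _ => Div_L t) := rfl
  rw [h]
  exact (P.compContinuousLinearMapLRight (E := fun _ : Fin n => ℂ × ℂ)).cont.comp
    (continuous_pi fun _ => Div_L_cont)

omit [CompleteSpace E] in
private theorem Div_norm_A {n : ℕ} (P : ContinuousMultilinearMap ℂ (fun _ : Fin n => ℂ × ℂ) E)
    {t : ℝ} (h0 : 0 ≤ t) (h1 : t ≤ 1) : ‖Div_A P t‖ ≤ ‖P‖ := by
  refine (ContinuousMultilinearMap.norm_compContinuousLinearMap_le _ _).trans ?_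
  refine mul_le_of_le_one_right (norm_nonneg _) ?_
  exact Finset.prod_le_one (fun _ _ => norm_nonneg _) fun _ _ => Div_norm_L h0 h1

/-- the series of the quotient -/
private def Div_q (Q : FormalMultilinearSeries ℂ (ℂ × ℂ) E) : FormalMultilinearSeries ℂ (ℂ × ℂ) E :=
  fun n => ∫ t in (0 : ℝ)..1, Div_A (Q n) t

omit [CompleteSpace E] in
private theorem Div_norm_q (Q : FormalMultilinearSeries ℂ (ℂ × ℂ) E) (n : ℕ) :
    ‖Div_q Q n‖ ≤ ‖Q n‖ := by
  have h := intervalIntegral.norm_integral_le_of_norm_le_const (a := (0 : ℝ)) (b := 1)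
    (f := Div_A (Q n)) (C := ‖Q n‖) (fun t ht => by
      rw [Set.uIoc_of_le zero_le_one] at ht
      exact Div_norm_A (Q n) ht.1.le ht.2)
  rw [sub_zero, abs_one, mul_one] at h
  exact h

private theorem Div_q_apply (Q : FormalMultilinearSeries ℂ (ℂ × ℂ) E) (n : ℕ) (w : ℂ × ℂ) :
    Div_q Q n (fun _ => w) = ∫ t in (0 : ℝ)..1, Q n (fun _ => Div_L t w) := by
  have h := (ContinuousMultilinearMap.apply ℂ (fun _ : Fin n => ℂ × ℂ) E
    (fun _ => w)).intervalIntegral_comp_comm (a := (0 : ℝ)) (b := 1) (μ := MeasureTheory.volume)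
    (f := Div_A (Q n)) ((Div_A_cont (Q n)).intervalIntegrable 0 1)
  exact h.symm

/-- the sum of the series of the quotient is the parameter integral -/
private theorem Div_sum {D : ℂ × ℂ → E} {Q : FormalMultilinearSeries ℂ (ℂ × ℂ) E} {r : ENNReal}
    (hQ : HasFPowerSeriesOnBall D Q 0 r) {w : ℂ × ℂ} (hw : w ∈ Metric.eball (0 : ℂ × ℂ) r) :
    HasSum (fun n => Div_q Q n (fun _ => w)) (∫ t in (0 : ℝ)..1, D (Div_L t w)) := by
  have hwr : (‖w‖₊ : ENNReal) < Q.radius := by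
    have h1 : (‖w‖₊ : ENNReal) < r := by
      have := Metric.mem_eball.1 hw
      rwa [edist_zero_right] at this
    exact lt_of_lt_of_le h1 hQ.r_le
  have hsum : Summable fun n => ‖Q n‖ * (‖w‖₊ : ℝ) ^ n := Q.summable_norm_mul_pow hwr
  simp only [Div_q_apply]
  refine intervalIntegral.hasSum_integral_of_dominated_convergence
    (fun n _ => ‖Q n‖ * (‖w‖₊ : ℝ) ^ n) ?_ ?_ ?_ ?_ ?_
  · intro n
    have hc : Continuous fun t : ℝ => Q n (fun _ => Div_L t w) := by
      refine (Q n).cont.comp (continuous_pi fun _ => ?_)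
      exact Div_L_cont.clm_apply continuous_const
    exact hc.aestronglyMeasurable
  · intro n
    refine Filter.Eventually.of_forall fun t ht => ?_
    rw [Set.uIoc_of_le zero_le_one] at ht
    refine ((Q n).le_opNorm _).trans ?_
    refine mul_le_mul_of_nonneg_left ?_ (norm_nonneg _)
    rw [Finset.prod_const, Finset.card_univ, Fintype.card_fin, coe_nnnorm]
    exact pow_le_pow_left₀ (norm_nonneg _) (Div_norm_L_apply ht.1.le ht.2 w) n
  · exact Filter.Eventually.of_forall fun t _ => hsum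
  · exact intervalIntegrable_const
  · refine Filter.Eventually.of_forall fun t ht => ?_
    rw [Set.uIoc_of_le zero_le_one] at ht
    have hm : Div_L t w ∈ Metric.eball (0 : ℂ × ℂ) r := by
      rw [Metric.mem_eball, edist_zero_right] at hw ⊢
      refine lt_of_le_of_lt ?_ hw
      rw [← ofReal_norm, ← ofReal_norm]
      exact ENNReal.ofReal_le_ofReal (Div_norm_L_apply ht.1.le ht.2 w)
    have h := hQ.hasSum hm
    rw [zero_add] at h
    exact h

theorem exists_div_x {f : ℂ × ℂ → E} (hf : AnalyticAt ℂ f 0) (h : ∀ᶠ y in 𝓝 (0 : ℂ), f (0, y) = 0) :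
    ∃ g : ℂ × ℂ → E, AnalyticAt ℂ g 0 ∧ ∀ᶠ x in 𝓝 (0 : ℂ × ℂ), f x = x.1 • g x := by
  obtain ⟨p, r, hp⟩ := hf
  have hD := (ContinuousLinearMap.apply ℂ E ((1 : ℂ), (0 : ℂ))).comp_hasFPowerSeriesOnBall hp.fderiv
  set Q : FormalMultilinearSeries ℂ (ℂ × ℂ) E :=
    (ContinuousLinearMap.apply ℂ E ((1 : ℂ), (0 : ℂ))).compFormalMultilinearSeries p.derivSeries
    with hQdef
  set D : ℂ × ℂ → E := (ContinuousLinearMap.apply ℂ E ((1 : ℂ), (0 : ℂ))) ∘ fderiv ℂ f with hDdef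
  have hrad : Q.radius ≤ (Div_q Q).radius := FormalMultilinearSeries.radius_le_of_le (Div_norm_q Q)
  have hpos : 0 < (Div_q Q).radius := lt_of_lt_of_le (lt_of_lt_of_le hD.r_pos hD.r_le) hrad
  have hg := (Div_q Q).hasFPowerSeriesOnBall hpos
  refine ⟨(Div_q Q).sum, hg.analyticAt, ?_⟩
  have h2 : ∀ᶠ w in 𝓝 (0 : ℂ × ℂ), f (0, w.2) = 0 := by
    have h3 : Tendsto (fun w : ℂ × ℂ => w.2) (𝓝 (0 : ℂ × ℂ)) (𝓝 (0 : ℂ)) :=
      continuous_snd.tendsto' _ _ rfl
    exact h3.eventually h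
  filter_upwards [Metric.eball_mem_nhds (0 : ℂ × ℂ) hp.r_pos, h2] with w hw hw0
  have hball : ∀ t ∈ Set.uIcc (0 : ℝ) 1, Div_L t w ∈ Metric.eball (0 : ℂ × ℂ) r := by
    intro t ht
    rw [Set.uIcc_of_le zero_le_one] at ht
    rw [Metric.mem_eball, edist_zero_right] at hw ⊢
    refine lt_of_le_of_lt ?_ hw
    rw [← ofReal_norm, ← ofReal_norm]
    exact ENNReal.ofReal_le_ofReal (Div_norm_L_apply ht.1 ht.2 w)
  have hsum : (Div_q Q).sum w = ∫ t in (0 : ℝ)..1, D (Div_L t w) :=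
    (Div_sum hD hw).tsum_eq
  have hderiv : ∀ t ∈ Set.uIcc (0 : ℝ) 1,
      HasDerivAt (fun t : ℝ => f (Div_L t w)) (w.1 • D (Div_L t w)) t := by
    intro t ht
    have e1 : HasFDerivAt f (fderiv ℂ f (Div_L t w)) (Div_L t w) :=
      (hp.analyticAt_of_mem (hball t ht)).differentiableAt.hasFDerivAt
    have e2 : HasDerivAt (fun t : ℝ => Div_L t w) ((w.1, 0) : ℂ × ℂ) t := by
      have e3 : HasDerivAt (fun t : ℝ => (t : ℂ) * w.1) (1 * w.1) t :=
        (Complex.ofRealCLM.hasDerivAt (x := t)).mul_const w.1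
      rw [one_mul] at e3
      exact e3.prodMk (hasDerivAt_const t w.2)
    have e4 := (e1.restrictScalars ℝ).comp_hasDerivAt t e2
    have e5 : ((fderiv ℂ f (Div_L t w)).restrictScalars ℝ) ((w.1, 0) : ℂ × ℂ) =
        w.1 • D (Div_L t w) := by
      have e6 : ((w.1, 0) : ℂ × ℂ) = w.1 • ((1 : ℂ), (0 : ℂ)) := by
        rw [Prod.smul_mk, smul_eq_mul, smul_eq_mul, mul_one, mul_zero]
      rw [ContinuousLinearMap.coe_restrictScalars', e6, map_smul]
      rfl
    rw [e5] at e4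
    exact e4
  have hcont : ContinuousOn (fun t : ℝ => w.1 • D (Div_L t w)) (Set.uIcc 0 1) := by
    refine ContinuousOn.const_smul ?_ _
    refine hD.continuousOn.comp ?_ hball
    exact (Div_L_cont.clm_apply continuous_const).continuousOn
  have hftc := intervalIntegral.integral_eq_sub_of_hasDerivAt hderiv hcont.intervalIntegrable
  rw [intervalIntegral.integral_smul] at hftc
  rw [hsum, hftc]
  have e7 : Div_L 1 w = w := by
    rw [Div_L_apply, Complex.ofReal_one, one_mul]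
  have e8 : Div_L 0 w = (0, w.2) := by
    rw [Div_L_apply, Complex.ofReal_zero, zero_mul]
  rw [e7, e8, hw0, sub_zero]

/-- The same with the second variable (apply `exists_div_x` to `f ∘ Prod.swap`). -/
theorem exists_div_y {f : ℂ × ℂ → E} (hf : AnalyticAt ℂ f 0) (h : ∀ᶠ x in 𝓝 (0 : ℂ), f (x, 0) = 0) :
    ∃ g : ℂ × ℂ → E, AnalyticAt ℂ g 0 ∧ ∀ᶠ x in 𝓝 (0 : ℂ × ℂ), f x = x.2 • g x := by
  have hs : AnalyticAt ℂ (fun w : ℂ × ℂ => (w.2, w.1)) 0 := analyticAt_snd.prod analyticAt_fst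
  have hf' : AnalyticAt ℂ (fun w : ℂ × ℂ => f (w.2, w.1)) 0 := by
    refine AnalyticAt.fun_comp (g := f) (f := fun w : ℂ × ℂ => (w.2, w.1)) ?_ hs
    exact hf
  obtain ⟨g, hg, hfg⟩ := exists_div_x (f := fun w : ℂ × ℂ => f (w.2, w.1)) hf' h
  refine ⟨fun w => g (w.2, w.1), ?_, ?_⟩
  · refine AnalyticAt.fun_comp (g := g) (f := fun w : ℂ × ℂ => (w.2, w.1)) ?_ hs
    exact hg
  · have ht : Tendsto (fun w : ℂ × ℂ => (w.2, w.1)) (𝓝 (0 : ℂ × ℂ)) (𝓝 (0 : ℂ × ℂ)) :=
      (continuous_snd.prodMk continuous_fst).tendsto' _ _ rfl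
    exact ht.eventually hfg

end Pool.Agent.H17BP
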