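import Pool.Agent.H17BP.Ift
import Pool.Agent.H17BP.Div

/-!
# The charts of the blow-up, up to coordinate changes

Proof of `bchart_class`.  By definition `β = θ₁ ∘ bl 0 ∘ θ₂`; it is enough to write `θ₁ ∘ bl 0` as `bl c ∘ θ'` or
`blInf ∘ θ'` (then compose with `θ₂`).  Let `θ₁ = (A, B)`, so `A 0 = B 0 = 0` and
`d := dx A 0 * dy B 0 - dy A 0 * dx B 0 ≠ 0` (`coord_iff`).  The functions `A (x, x w)`, `B (x, x w)` vanish for
`x = 0`, so (`exists_div_x`) they are `x A₁(x, w)`, `x B₁(x, w)`, and by differentiating in `x` at `x = 0`: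
`A₁ (0, w) = dx A 0 + w dy A 0`, `B₁ (0, w) = dx B 0 + w dy B 0`.
If `A₁ 0 ≠ 0`: `c = B₁ 0 / A₁ 0`, `θ' = (x A₁, B₁ / A₁ - c)`: `bl c θ' = (x A₁, x A₁ (B₁ / A₁)) = θ₁ (x, x w)`, and
`θ'` is `Bihol` by `coord_iff`: its derivative matrix at `0` is `((A₁ 0, 0), (*, d / (A₁ 0)²))`.
If `A₁ 0 = dx A 0 = 0`: `B₁ 0 = dx B 0 ≠ 0`, `θ' = (A₁ / B₁, x B₁)`, `blInf θ' = (x A₁, x B₁)`, determinant
`- (dy A 0 / B₁ 0) * B₁ 0 = - dy A 0 ≠ 0`.
-/

open Topology Filter

noncomputable section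

namespace Pool.Agent.H17BP

private theorem ChartC_derX {f : ℂ × ℂ → ℂ} (hf : AnalyticAt ℂ f 0) :
    HasDerivAt (fun t : ℂ => f (t, 0)) (dx f 0) 0 := by
  have h1 : HasDerivAt (fun t : ℂ => (t, (0 : ℂ))) ((1 : ℂ), (0 : ℂ)) 0 :=
    (hasDerivAt_id (0 : ℂ)).prodMk (hasDerivAt_const (0 : ℂ) (0 : ℂ))
  have h2 : HasFDerivAt f (fderiv ℂ f 0) ((fun t : ℂ => (t, (0 : ℂ))) 0) := hf.differentiableAt.hasFDerivAt
  exact HasFDerivAt.comp_hasDerivAt (f := fun t : ℂ => (t, (0 : ℂ))) (0 : ℂ) h2 h1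

private theorem ChartC_derY {f : ℂ × ℂ → ℂ} (hf : AnalyticAt ℂ f 0) :
    HasDerivAt (fun w : ℂ => f (0, w)) (dy f 0) 0 := by
  have h1 : HasDerivAt (fun w : ℂ => ((0 : ℂ), w)) ((0 : ℂ), (1 : ℂ)) 0 :=
    (hasDerivAt_const (0 : ℂ) (0 : ℂ)).prodMk (hasDerivAt_id (0 : ℂ))
  have h2 : HasFDerivAt f (fderiv ℂ f 0) ((fun w : ℂ => ((0 : ℂ), w)) 0) := hf.differentiableAt.hasFDerivAt
  exact HasFDerivAt.comp_hasDerivAt (f := fun w : ℂ => ((0 : ℂ), w)) (0 : ℂ) h2 h1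

/-- the strict transform of a function in the chart `bl 0` -/
private theorem ChartC_div {A : ℂ × ℂ → ℂ} (hA : AnalyticAt ℂ A 0) (hA0 : A 0 = 0) :
    ∃ A₁ : ℂ × ℂ → ℂ, AnalyticAt ℂ A₁ 0 ∧ (∀ᶠ x in 𝓝 (0 : ℂ × ℂ), A (bl 0 x) = x.1 * A₁ x) ∧
      ∀ᶠ w in 𝓝 (0 : ℂ), A₁ (0, w) = dx A 0 + w * dy A 0 := by
  have hcomp : AnalyticAt ℂ (fun x => A (bl 0 x)) 0 := by
    have h1 : AnalyticAt ℂ A (bl 0 0) := by rw [bl_zero]; exact hA
    exact h1.comp (analyticAt_bl 0 0)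
  obtain ⟨A₁, h1, h2⟩ := exists_div_x hcomp (Eventually.of_forall fun y => by
    change A (bl 0 (0, y)) = 0
    have : bl 0 ((0 : ℂ), y) = 0 := by
      unfold bl
      simp
    rw [this, hA0])
  refine ⟨A₁, h1, h2, ?_⟩
  have hc : Tendsto (fun w : ℂ => ((0 : ℂ), w)) (𝓝 0) (𝓝 (0 : ℂ × ℂ)) := by
    have : Continuous (fun w : ℂ => ((0 : ℂ), w)) := by fun_prop
    exact this.tendsto' 0 0 rfl
  have h3 := hc.eventually h2.eventually_nhds
  have h4 := hc.eventually h1.eventually_analyticAt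
  filter_upwards [h3, h4] with w hw3 hw4
  -- two derivatives in `t`
  have hc' : Tendsto (fun t : ℂ => (t, w)) (𝓝 0) (𝓝 ((0 : ℂ), w)) := by
    have : Continuous (fun t : ℂ => (t, w)) := by fun_prop
    exact this.tendsto' 0 _ rfl
  have h5 := hc'.eventually hw3
  have hd1 : HasDerivAt (fun t : ℂ => A₁ (t, w)) (fderiv ℂ A₁ (0, w) (1, 0)) 0 := by
    have h6 : HasDerivAt (fun t : ℂ => (t, w)) ((1 : ℂ), (0 : ℂ)) 0 :=
      (hasDerivAt_id (0 : ℂ)).prodMk (hasDerivAt_const (0 : ℂ) w)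
    have h7 : HasFDerivAt A₁ (fderiv ℂ A₁ (0, w)) ((fun t : ℂ => (t, w)) 0) := hw4.differentiableAt.hasFDerivAt
    exact HasFDerivAt.comp_hasDerivAt (f := fun t : ℂ => (t, w)) (0 : ℂ) h7 h6
  have hd2 : HasDerivAt (fun t : ℂ => t * A₁ (t, w)) (A₁ (0, w)) 0 := by
    have h8 : HasDerivAt (fun t : ℂ => t * A₁ (t, w)) (1 * A₁ (0, w) + 0 * fderiv ℂ A₁ (0, w) (1, 0)) 0 :=
      (hasDerivAt_id (0 : ℂ)).mul hd1
    rwa [one_mul, zero_mul, add_zero] at h8
  have hd3 : HasDerivAt (fun t : ℂ => A (bl 0 (t, w))) (A₁ (0, w)) 0 := by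
    refine hd2.congr_of_eventuallyEq ?_
    filter_upwards [h5] with t ht
    exact ht
  have hd4 : HasDerivAt (fun t : ℂ => A (bl 0 (t, w))) (fderiv ℂ A 0 (1, w)) 0 := by
    have h6 : HasDerivAt (fun t : ℂ => bl 0 (t, w)) ((1 : ℂ), w) 0 := by
      have h7 : HasDerivAt (fun t : ℂ => t * (0 + w)) (1 * (0 + w)) 0 := (hasDerivAt_id (0 : ℂ)).mul_const (0 + w)
      have h8 : HasDerivAt (fun t : ℂ => (t, t * (0 + w))) ((1 : ℂ), 1 * (0 + w)) 0 :=
        (hasDerivAt_id (0 : ℂ)).prodMk h7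
      have h9 : ((1 : ℂ), w) = ((1 : ℂ), 1 * (0 + w)) := by rw [one_mul, zero_add]
      rw [h9]
      exact h8
    have h7 : HasFDerivAt A (fderiv ℂ A 0) ((fun t : ℂ => bl 0 (t, w)) 0) := by
      have h8 : bl 0 ((0 : ℂ), w) = 0 := by
        unfold bl
        simp
      change HasFDerivAt A (fderiv ℂ A 0) (bl 0 ((0 : ℂ), w))
      rw [h8]
      exact hA.differentiableAt.hasFDerivAt
    exact HasFDerivAt.comp_hasDerivAt (f := fun t : ℂ => bl 0 (t, w)) (0 : ℂ) h7 h6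
  rw [hd3.unique hd4]
  have h9 : ((1 : ℂ), w) = (1, 0) + w • ((0 : ℂ), (1 : ℂ)) := by
    ext <;> simp
  rw [h9, map_add, map_smul]
  rfl

private theorem ChartC_core {θ₁ : ℂ × ℂ → ℂ × ℂ} (h : Bihol θ₁) : ∃ θ : ℂ × ℂ → ℂ × ℂ, Bihol θ ∧
    ((∃ c : ℂ, ∀ᶠ x in 𝓝 0, θ₁ (bl 0 x) = bl c (θ x)) ∨ ∀ᶠ x in 𝓝 0, θ₁ (bl 0 x) = blInf (θ x)) := by
  have hco : Coord (fun x => (θ₁ x).1) (fun x => (θ₁ x).2) := h
  obtain ⟨hA, hB, hA0, hB0⟩ := hco.parts
  have hd := (coord_iff hA hB hA0 hB0).1 hco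
  obtain ⟨A₁, a1, a2, a3⟩ := ChartC_div hA hA0
  obtain ⟨B₁, b1, b2, b3⟩ := ChartC_div hB hB0
  generalize hpa : dx (fun x => (θ₁ x).1) 0 = pa at *
  generalize hqa : dy (fun x => (θ₁ x).1) 0 = qa at *
  generalize hpb : dx (fun x => (θ₁ x).2) 0 = pb at *
  generalize hqb : dy (fun x => (θ₁ x).2) 0 = qb at *
  have a4 : A₁ 0 = pa := by
    have := a3.self_of_nhds
    rwa [zero_mul, add_zero] at this
  have b4 : B₁ 0 = pb := by
    have := b3.self_of_nhds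
    rwa [zero_mul, add_zero] at this
  -- the derivative of an affine function
  have haff : ∀ p q : ℂ, HasDerivAt (fun w : ℂ => p + w * q) q 0 := by
    intro p q
    have := ((hasDerivAt_id (0 : ℂ)).mul_const q).const_add p
    simpa using this
  -- the derivative of a product with `x`
  have hprod : ∀ {C : ℂ × ℂ → ℂ}, AnalyticAt ℂ C 0 → dx (fun x => x.1 * C x) 0 = C 0 ∧ dy (fun x => x.1 * C x) 0 = 0 := by
    intro C hC
    have hS : AnalyticAt ℂ (fun x : ℂ × ℂ => x.1 * C x) 0 := analyticAt_fst.mul hC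
    constructor
    · refine (ChartC_derX hS).unique ?_
      have h1 := (hasDerivAt_id (0 : ℂ)).mul (ChartC_derX hC)
      have h2 : (1 : ℂ) * C (0, 0) + id (0 : ℂ) * dx C 0 = C 0 := by
        rw [one_mul, id, zero_mul, add_zero]
        rfl
      rw [← h2]
      exact h1
    · refine (ChartC_derY hS).unique ?_
      have h1 : (fun w : ℂ => ((0 : ℂ), w).1 * C (0, w)) = fun _ => 0 := by
        funext w
        simp
      rw [h1]
      exact hasDerivAt_const _ _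
  by_cases hz : pa = 0
  · -- the point at infinity
    have hpb0 : pb ≠ 0 := by
      intro h0
      apply hd
      rw [hz, h0]
      ring
    have hqa0 : qa ≠ 0 := by
      intro h0
      apply hd
      rw [hz, h0]
      ring
    have hB1 : B₁ 0 ≠ 0 := by rw [b4]; exact hpb0
    have hS : AnalyticAt ℂ (fun x => A₁ x / B₁ x) 0 := a1.div b1 hB1
    have hT : AnalyticAt ℂ (fun x : ℂ × ℂ => x.1 * B₁ x) 0 := analyticAt_fst.mul b1
    have hSy : dy (fun x => A₁ x / B₁ x) 0 = qa / pb := by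
      refine (ChartC_derY hS).unique ?_
      have h1 := (haff pa qa).div (haff pb qb) (by simpa using hpb0)
      have h2 : HasDerivAt (fun w : ℂ => (pa + w * qa) / (pb + w * qb)) (qa / pb) 0 := by
        refine h1.congr_deriv ?_
        rw [hz]
        simp only [zero_mul, add_zero, sub_zero]
        field_simp
      refine h2.congr_of_eventuallyEq ?_
      filter_upwards [a3, b3] with w hwa hwb
      rw [hwa, hwb]
    have hθ : Coord (fun x => A₁ x / B₁ x) (fun x : ℂ × ℂ => x.1 * B₁ x) := by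
      rw [coord_iff hS hT (by rw [a4, hz, zero_div]) (by simp)]
      rw [(hprod b1).2, (hprod b1).1, hSy, b4]
      intro h0
      apply hqa0
      field_simp at h0
      simpa using h0
    refine ⟨fun x => (A₁ x / B₁ x, x.1 * B₁ x), hθ, Or.inr ?_⟩
    filter_upwards [a2, b2, b1.continuousAt.eventually_ne hB1] with x h1 h2 h3
    unfold blInf
    ext
    · change (θ₁ (bl 0 x)).1 = A₁ x / B₁ x * (x.1 * B₁ x)
      rw [h1]
      field_simp
    · exact h2
  · -- a finite point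
    have hA1 : A₁ 0 ≠ 0 := by rw [a4]; exact hz
    have hS : AnalyticAt ℂ (fun x : ℂ × ℂ => x.1 * A₁ x) 0 := analyticAt_fst.mul a1
    have hT : AnalyticAt ℂ (fun x => B₁ x / A₁ x - pb / pa) 0 := (b1.div a1 hA1).sub analyticAt_const
    have hTy : dy (fun x => B₁ x / A₁ x - pb / pa) 0 = (pa * qb - qa * pb) / pa ^ 2 := by
      refine (ChartC_derY hT).unique ?_
      have h1 := ((haff pb qb).div (haff pa qa) (by simpa using hz)).sub_const (pb / pa)
      have h2 : HasDerivAt (fun w : ℂ => (pb + w * qb) / (pa + w * qa) - pb / pa) ((pa * qb - qa * pb) / pa ^ 2) 0 := by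
        refine h1.congr_deriv ?_
        simp only [zero_mul, add_zero]
        ring
      refine h2.congr_of_eventuallyEq ?_
      filter_upwards [a3, b3] with w hwa hwb
      rw [hwa, hwb]
    have hθ : Coord (fun x : ℂ × ℂ => x.1 * A₁ x) (fun x => B₁ x / A₁ x - pb / pa) := by
      rw [coord_iff hS hT (by simp) (by rw [a4, b4, sub_self])]
      rw [(hprod a1).1, (hprod a1).2, hTy, a4, zero_mul, sub_zero]
      exact mul_ne_zero hz (div_ne_zero hd (pow_ne_zero 2 hz))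
    refine ⟨fun x => (x.1 * A₁ x, B₁ x / A₁ x - pb / pa), hθ, Or.inl ⟨pb / pa, ?_⟩⟩
    filter_upwards [a2, b2, a1.continuousAt.eventually_ne hA1] with x h1 h2 h3
    unfold bl at *
    ext
    · exact h1
    · change (θ₁ (x.1, x.1 * (0 + x.2))).2 = x.1 * A₁ x * (pb / pa + (B₁ x / A₁ x - pb / pa))
      rw [h2]
      field_simp
      ring

theorem bchart_class {β : ℂ × ℂ → ℂ × ℂ} (h : BChart β) : ∃ θ : ℂ × ℂ → ℂ × ℂ, Bihol θ ∧
    ((∃ c : ℂ, ∀ᶠ x in 𝓝 0, β x = bl c (θ x)) ∨ ∀ᶠ x in 𝓝 0, β x = blInf (θ x)) := by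
  obtain ⟨θ₁, θ₂, h1, h2, h3⟩ := h
  obtain ⟨θ, h4, h5⟩ := ChartC_core h1
  refine ⟨θ ∘ θ₂, h4.comp h2, ?_⟩
  rcases h5 with ⟨c, h5⟩ | h5
  · refine Or.inl ⟨c, ?_⟩
    filter_upwards [h3, h2.tendsto.eventually h5] with x hx hx'
    rw [hx, hx']
    rfl
  · refine Or.inr ?_
    filter_upwards [h3, h2.tendsto.eventually h5] with x hx hx'
    rw [hx, hx']
    rfl

/-- `bl c = (linear map) ∘ bl 0`, `blInf = swap ∘ bl 0 ∘ swap`. -/
theorem bchart_bl (c : ℂ) : BChart (bl c) := by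
  refine ⟨fun x => (x.1, x.2 + c * x.1), fun x => x, ?_, Bihol.id, Eventually.of_forall fun x => ?_⟩
  · refine ⟨?_, by simp, fun x => (x.1, x.2 - c * x.1), ?_, by simp, Eventually.of_forall fun x => by simp,
      Eventually.of_forall fun x => by simp⟩
    · exact analyticAt_fst.prod (analyticAt_snd.add (analyticAt_const.mul analyticAt_fst))
    · exact analyticAt_fst.prod (analyticAt_snd.sub (analyticAt_const.mul analyticAt_fst))
  · unfold bl
    ext
    · rfl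
    · simp only
      ring

theorem bchart_blInf : BChart blInf := by
  have hsw : Bihol (fun x : ℂ × ℂ => (x.2, x.1)) :=
    ⟨analyticAt_snd.prod analyticAt_fst, rfl, fun x => (x.2, x.1), analyticAt_snd.prod analyticAt_fst, rfl,
      Eventually.of_forall fun _ => rfl, Eventually.of_forall fun _ => rfl⟩
  refine ⟨fun x => (x.2, x.1), fun x => (x.2, x.1), hsw, hsw, Eventually.of_forall fun x => ?_⟩
  unfold bl blInf
  ext
  · simp only
    ring
  · rfl

end Pool.Agent.H17BP
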