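import Pool.Agent.H17BP.MonoOpen
import Pool.Agent.H17BP.ChartC

/-!
# The points near `0` at which `g` is not a monomial

* `bl_near`: `bl c (s, t) = (s, s (c + t))` has near `p`, `p.1 ≠ 0`, the inverse `(S, T) ↦ (S, T / S - c)`.  So the inverse
  germ of `x ↦ bl c (p + x) - bl c p` is `y ↦ (a, b / a - c) - p` with `(a, b) = bl c p + y`, analytic because `a ≠ 0`
  near `y = 0` (or use `bihol_iff`).  `blInf_near`: the same with the coordinates exchanged.
* `Mono.of_near`: if `β (p + x) - β p` is `Bihol` and `(g ∘ β) (p + x)` is `Mono` then `g (β p + x)` is `Mono`: with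
  `θ x = β (p + x) - β p`: `g (β (p + x)) = (fun x => g (β p + x)) (θ x)`; compose with the inverse germ of `θ`
  (`ResN.of_comp` for `n = 0`).
* `ResN.near`: induction on `n`.  `n = 0` and the case `Mono g`: `Mono.near`.  `n + 1`: for all `c`, `ResN n (g ∘ bl c)` and
  `ResN n (g ∘ blInf)` (`bchart_bl`, `bchart_blInf`).  If the claim is false then there is an ultrafilter `U ≤ 𝓝[≠] 0` with
  `¬ Mono (g (p + ·))` for `U`-almost all `p` (`Filter.Frequently`, `Ultrafilter.of`, e.g. take `U` finer than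
  `𝓝[≠] 0 ⊓ 𝓟 {p | ¬ Mono ..}`).  `U`-almost surely `‖p.2‖ ≤ ‖p.1‖` or `U`-almost surely `‖p.1‖ ≤ ‖p.2‖`.
  First case: `p.1 ≠ 0` almost surely (because `p ≠ 0`); `p.2 / p.1` is in the closed unit ball (compact), so it tends to some
  `c` along `U` (`IsCompact.ultrafilter_le_nhds`); `p' = (p.1, p.2 / p.1 - c) → 0`, `p' ≠ 0`, `bl c p' = p`.  By induction
  for `g ∘ bl c`: `Mono ((g ∘ bl c) (p' + ·))` almost surely, and `Mono.of_near` with `bl_near`.
  Second case: `p.2 ≠ 0`, `p.1 / p.2 → c'`.  If `c' = 0`: `p' = (p.1 / p.2, p.2) → 0`, `blInf p' = p`, `blInf_near`.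
  If `c' ≠ 0` then `p.1 ≠ 0` almost surely and `p.2 / p.1 → c'⁻¹ = c`, continue as in the first case.
-/

open Topology Filter

noncomputable section

namespace Pool.Agent.H17BP

theorem bl_near (c : ℂ) {p : ℂ × ℂ} (hp : p.1 ≠ 0) : Bihol fun x => bl c (p + x) - bl c p := by
  have h1 : HasFDerivAt (fun x : ℂ × ℂ => p.1 + x.1) (ContinuousLinearMap.fst ℂ ℂ ℂ) 0 :=
    (hasFDerivAt_fst (𝕜 := ℂ) (E := ℂ) (F := ℂ)).const_add p.1
  have h2 : HasFDerivAt (fun x : ℂ × ℂ => c + (p.2 + x.2)) (ContinuousLinearMap.snd ℂ ℂ ℂ) 0 :=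
    ((hasFDerivAt_snd (𝕜 := ℂ) (E := ℂ) (F := ℂ)).const_add p.2).const_add c
  have h3 := (h1.prodMk (h1.mul h2)).sub_const (bl c p)
  have h4 : HasFDerivAt (fun x => bl c (p + x) - bl c p) _ 0 := h3
  have ha : AnalyticAt ℂ (fun x => bl c (p + x) - bl c p) 0 := by
    refine AnalyticAt.sub ?_ analyticAt_const
    exact (analyticAt_bl c (p + 0)).comp (analyticAt_const.add analyticAt_id)
  refine (bihol_iff ha (by simp)).mpr ?_
  rw [h4.fderiv]
  simpa using hp

theorem blInf_near {p : ℂ × ℂ} (hp : p.2 ≠ 0) : Bihol fun x => blInf (p + x) - blInf p := by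
  have h1 : HasFDerivAt (fun x : ℂ × ℂ => p.1 + x.1) (ContinuousLinearMap.fst ℂ ℂ ℂ) 0 :=
    (hasFDerivAt_fst (𝕜 := ℂ) (E := ℂ) (F := ℂ)).const_add p.1
  have h2 : HasFDerivAt (fun x : ℂ × ℂ => p.2 + x.2) (ContinuousLinearMap.snd ℂ ℂ ℂ) 0 :=
    (hasFDerivAt_snd (𝕜 := ℂ) (E := ℂ) (F := ℂ)).const_add p.2
  have h3 := ((h1.mul h2).prodMk h2).sub_const (blInf p)
  have h4 : HasFDerivAt (fun x => blInf (p + x) - blInf p) _ 0 := h3
  have ha : AnalyticAt ℂ (fun x => blInf (p + x) - blInf p) 0 := by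
    refine AnalyticAt.sub ?_ analyticAt_const
    exact (analyticAt_blInf (p + 0)).comp (analyticAt_const.add analyticAt_id)
  refine (bihol_iff ha (by simp)).mpr ?_
  rw [h4.fderiv]
  simpa using hp

theorem Mono.of_near {g : ℂ × ℂ → ℂ} {β : ℂ × ℂ → ℂ × ℂ} {p : ℂ × ℂ} (h : Bihol fun x => β (p + x) - β p)
    (hg : Mono fun x => (g ∘ β) (p + x)) : Mono fun x => g (β p + x) := by
  have h1 : ResN 0 ((fun x => g (β p + x)) ∘ fun x => β (p + x) - β p) := by
    have h2 : ((fun x => g (β p + x)) ∘ fun x => β (p + x) - β p) = fun x => (g ∘ β) (p + x) := by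
      funext x
      simp
    rw [h2]
    exact hg
  exact ResN.of_comp h h1

/-- the first case -/
private theorem FinG_key1 {g : ℂ × ℂ → ℂ} {U : Ultrafilter (ℂ × ℂ)} (hU0 : (U : Filter (ℂ × ℂ)) ≤ 𝓝 0)
    (hbad : ∀ᶠ p in (U : Filter (ℂ × ℂ)), ¬ Mono fun x => g (p + x)) {c : ℂ}
    (hc : Tendsto (fun p : ℂ × ℂ => p.2 / p.1) U (𝓝 c)) (h1 : ∀ᶠ p in (U : Filter (ℂ × ℂ)), p.1 ≠ 0)
    (hih : ∀ᶠ p in 𝓝[≠] (0 : ℂ × ℂ), Mono fun x => (g ∘ bl c) (p + x)) : False := by
  have ht1 : Tendsto (fun p : ℂ × ℂ => p.1) U (𝓝 0) := by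
    have h2 : Tendsto (fun p : ℂ × ℂ => p.1) (𝓝 0) (𝓝 (0 : ℂ × ℂ).1) := continuous_fst.tendsto 0
    exact h2.mono_left hU0
  have ht2 : Tendsto (fun p : ℂ × ℂ => p.2 / p.1 - c) U (𝓝 0) := by
    have h2 := hc.sub_const c
    rwa [sub_self] at h2
  have ht : Tendsto (fun p : ℂ × ℂ => (p.1, p.2 / p.1 - c)) U (𝓝[≠] 0) := by
    rw [tendsto_nhdsWithin_iff]
    refine ⟨?_, ?_⟩
    · exact ht1.prodMk_nhds ht2
    · filter_upwards [h1] with p hp
      intro h0
      exact hp (congrArg Prod.fst h0)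
  obtain ⟨p, hp1, hp2, hp3⟩ := ((ht.eventually hih).and (h1.and hbad)).exists
  apply hp3
  have h4 : bl c (p.1, p.2 / p.1 - c) = p := by
    unfold bl
    ext
    · rfl
    · simp only
      field_simp
      ring
  have h5 := Mono.of_near (bl_near c (p := (p.1, p.2 / p.1 - c)) hp2) hp1
  rw [h4] at h5
  exact h5

/-- the second case -/
private theorem FinG_key2 {g : ℂ × ℂ → ℂ} {U : Ultrafilter (ℂ × ℂ)} (hU0 : (U : Filter (ℂ × ℂ)) ≤ 𝓝 0)
    (hbad : ∀ᶠ p in (U : Filter (ℂ × ℂ)), ¬ Mono fun x => g (p + x))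
    (hc : Tendsto (fun p : ℂ × ℂ => p.1 / p.2) U (𝓝 0)) (h1 : ∀ᶠ p in (U : Filter (ℂ × ℂ)), p.2 ≠ 0)
    (hih : ∀ᶠ p in 𝓝[≠] (0 : ℂ × ℂ), Mono fun x => (g ∘ blInf) (p + x)) : False := by
  have ht1 : Tendsto (fun p : ℂ × ℂ => p.2) U (𝓝 0) := by
    have h2 : Tendsto (fun p : ℂ × ℂ => p.2) (𝓝 0) (𝓝 (0 : ℂ × ℂ).2) := continuous_snd.tendsto 0
    exact h2.mono_left hU0
  have ht : Tendsto (fun p : ℂ × ℂ => (p.1 / p.2, p.2)) U (𝓝[≠] 0) := by
    rw [tendsto_nhdsWithin_iff]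
    refine ⟨?_, ?_⟩
    · exact hc.prodMk_nhds ht1
    · filter_upwards [h1] with p hp
      intro h0
      exact hp (congrArg Prod.snd h0)
  obtain ⟨p, hp1, hp2, hp3⟩ := ((ht.eventually hih).and (h1.and hbad)).exists
  apply hp3
  have h4 : blInf (p.1 / p.2, p.2) = p := by
    unfold blInf
    ext
    · simp only
      field_simp
    · rfl
  have h5 := Mono.of_near (blInf_near (p := (p.1 / p.2, p.2)) hp2) hp1
  rw [h4] at h5
  exact h5

/-- bounded functions converge along an ultrafilter -/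
private theorem FinG_lim {U : Ultrafilter (ℂ × ℂ)} {f : ℂ × ℂ → ℂ}
    (h : ∀ᶠ p in (U : Filter (ℂ × ℂ)), ‖f p‖ ≤ 1) : ∃ c : ℂ, Tendsto f U (𝓝 c) := by
  have h1 : ((U.map f : Ultrafilter ℂ) : Filter ℂ) ≤ 𝓟 (Metric.closedBall (0 : ℂ) 1) := by
    rw [Filter.le_principal_iff, Ultrafilter.coe_map, Filter.mem_map]
    filter_upwards [h] with p hp
    simpa using hp
  obtain ⟨c, -, hc⟩ := (isCompact_closedBall (0 : ℂ) 1).ultrafilter_le_nhds (U.map f) h1
  exact ⟨c, hc⟩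

/-- If the germ `g` is resolved by finitely many blow-ups then it is a monomial times a unit at all points near `0`
different from `0`. -/
theorem ResN.near {n : ℕ} : ∀ {g : ℂ × ℂ → ℂ}, ResN n g →
    ∀ᶠ p in 𝓝[≠] (0 : ℂ × ℂ), Mono fun x => g (p + x) := by
  induction n with
  | zero =>
    intro g h
    exact (Mono.near h).filter_mono nhdsWithin_le_nhds
  | succ n ih =>
    intro g h
    rcases h with h | h
    · exact (Mono.near h).filter_mono nhdsWithin_le_nhds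
    · by_contra hne
      have hf : ∃ᶠ p in 𝓝[≠] (0 : ℂ × ℂ), ¬ Mono fun x => g (p + x) := Filter.not_eventually.mp hne
      have hnb := Filter.frequently_iff_neBot.mp hf
      obtain ⟨U, hU⟩ := Ultrafilter.exists_le (𝓝[≠] (0 : ℂ × ℂ) ⊓ 𝓟 {p | ¬ Mono fun x => g (p + x)})
      have hU1 : (U : Filter (ℂ × ℂ)) ≤ 𝓝[≠] 0 := hU.trans inf_le_left
      have hU0 : (U : Filter (ℂ × ℂ)) ≤ 𝓝 0 := hU1.trans nhdsWithin_le_nhds
      have hbad : ∀ᶠ p in (U : Filter (ℂ × ℂ)), ¬ Mono fun x => g (p + x) :=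
        Filter.le_principal_iff.mp (hU.trans inf_le_right)
      have hne0 : ∀ᶠ p in (U : Filter (ℂ × ℂ)), p ≠ 0 := by
        have h1 : ∀ᶠ p in 𝓝[≠] (0 : ℂ × ℂ), p ≠ 0 := eventually_mem_nhdsWithin
        exact h1.filter_mono hU1
      rcases U.em (fun p => ‖p.2‖ ≤ ‖p.1‖) with h1 | h1
      · have h2 : ∀ᶠ p in (U : Filter (ℂ × ℂ)), p.1 ≠ 0 := by
          filter_upwards [h1, hne0] with p hp1 hp2 h0
          apply hp2
          rw [h0, norm_zero] at hp1
          exact Prod.ext h0 (norm_le_zero_iff.mp hp1)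
        obtain ⟨c, hc⟩ := FinG_lim (U := U) (f := fun p => p.2 / p.1) (by
          filter_upwards [h1] with p hp
          rw [norm_div]
          exact div_le_one_of_le₀ hp (norm_nonneg _))
        exact FinG_key1 hU0 hbad hc h2 (ih (h (bl c) (bchart_bl c)))
      · have h2 : ∀ᶠ p in (U : Filter (ℂ × ℂ)), p.2 ≠ 0 := by
          filter_upwards [h1] with p hp1 h0
          apply hp1
          rw [h0, norm_zero]
          exact norm_nonneg _
        obtain ⟨c, hc⟩ := FinG_lim (U := U) (f := fun p => p.1 / p.2) (by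
          filter_upwards [h1] with p hp
          rw [norm_div]
          exact div_le_one_of_le₀ (not_le.mp hp).le (norm_nonneg _))
        by_cases hc0 : c = 0
        · rw [hc0] at hc
          exact FinG_key2 hU0 hbad hc h2 (ih (h blInf bchart_blInf))
        · have h3 : ∀ᶠ p in (U : Filter (ℂ × ℂ)), p.1 ≠ 0 := by
            filter_upwards [hc.eventually_ne hc0] with p hp h0
            apply hp
            rw [h0, zero_div]
          have h4 : Tendsto (fun p : ℂ × ℂ => p.2 / p.1) U (𝓝 c⁻¹) := by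
            have h5 := hc.inv₀ hc0
            refine h5.congr ?_
            intro p
            rw [inv_div]
          exact FinG_key1 hU0 hbad h4 h3 (ih (h (bl c⁻¹) (bchart_bl c⁻¹)))

end Pool.Agent.H17BP
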