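import Pool.Agent.H17BP.ChLem
import Pool.Agent.H17BP.FinG
import Pool.Agent.H17BP.Art

/-!
# The resolution number at a point of the surface

* `ResAt.chart`: let `σ, τ, g` be as in `ResAt`; `σ' p = c • σ (θ p)`, `c ≠ 0` near `0` (`IsChart.trans`).  As `B` is a cone,
  `σ' p ∈ B ↔ σ (θ p) ∈ B ↔ g (θ p) = 0`: `g ∘ θ` is a local equation, `ResN.comp`.
* `ResAt.pr`: `IsChart.scale` of the chart (the value at `0` is `a • x = y`) and `ResAt.chart`.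
* `ResAt.near`: for `y ∈ X` near `x`: `y = c • σ (τ y)`, `p = τ y` near `0` (`τ x = 0`); `p ≠ 0` because `y` is not proportional
  to `x = σ 0`.  `IsChart.near`: `x ↦ σ (p + x)` is a chart at `σ p`, `g (p + ·)` a local equation
  (`eventually_eventually_nhds`), `Mono` by `ResN.near`.  So `ResAt X B (σ p) 0`, then `ResAt.pr`.
* `exists_resAt`: choose a chart `σ` at `x` (`Surface.chart`) and `i` (`Eqs.gen`); `g p = Q i (σ p)` is analytic at `0`, and for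
  `p` near `0`: `σ p ∈ B ↔ g p = 0` (`mem_iff`, `gen`); `g` does not vanish identically near `0` by `thin`; `exists_resN`.
* `ResAt.of_notMem`: `x ∉ B`: with `i` and `g` as before, `g 0 = Q i x ≠ 0` (otherwise `x ∈ B` by `gen`,
  `self_of_nhds`), so `Mono g` with `a = b = 0`.
* `ResAt.nodal`: `g = S^a T^b u`.  Let `θ = (S, T)`, `θ'` the inverse germ; the chart `σ ∘ θ'` (`IsChart.comp`), in
  which `B` is given by `g (θ' x) = x.1^a x.2^b u(θ' x) = 0`.  If `a = b = 0`: not in `B` near `0`; `b = 0`, `a ≠ 0`: `x.1 = 0`;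
  `a ≠ 0`, `b ≠ 0`: `x.1 x.2 = 0`; `a = 0`, `b ≠ 0`: exchange `S`, `T` (`Coord.symm`).
-/

open Topology Filter

noncomputable section

namespace Pool.Agent.H17BP

variable {V : Type} [NormedAddCommGroup V] [NormedSpace ℂ V] {X B : Set V} {σ' : ℂ × ℂ → V} {τ' : V → ℂ × ℂ}
  {x y : V} {n k : ℕ}

theorem ResAt.mono_le (h : ResAt X B x n) (hnk : n ≤ k) : ResAt X B x k := by
  obtain ⟨σ, τ, g, h1, h2, h3, h4⟩ := h
  exact ⟨σ, τ, g, h1, h2, h3, h4.mono_le hnk⟩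

private theorem ResS_pr_mem (hB : ∀ x ∈ B, ∀ c : ℂ, c ≠ 0 → c • x ∈ B) (h : Pr x y) : x ∈ B ↔ y ∈ B := by
  obtain ⟨c, hc, rfl⟩ := h
  refine ⟨fun h1 => ?_, fun h1 => hB _ h1 c hc⟩
  have h2 := hB _ h1 c⁻¹ (inv_ne_zero hc)
  rwa [smul_smul, inv_mul_cancel₀ hc, one_smul] at h2

theorem ResAt.chart (hX : ∀ x ∈ X, ∀ c : ℂ, c ≠ 0 → c • x ∈ X) (hB : ∀ x ∈ B, ∀ c : ℂ, c ≠ 0 → c • x ∈ B)
    (h : ResAt X B x n) (h' : IsChart X σ' τ') (h0 : Pr (σ' 0) x) : ∃ g, LocalEq B σ' g ∧ ResN n g := by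
  obtain ⟨σ, τ, g, hc, hx, hg, hr⟩ := h
  rw [← hx] at h0
  obtain ⟨θ, hθ, hev⟩ := IsChart.trans hX hc h' h0
  refine ⟨g ∘ θ, ⟨?_, ?_⟩, hr.comp hθ⟩
  · have h1 : AnalyticAt ℂ g (θ 0) := by rw [hθ.zero]; exact hg.1
    exact h1.comp hθ.an
  · filter_upwards [hev, hθ.tendsto.eventually hg.2] with p hp1 hp2
    rw [ResS_pr_mem hB hp1]
    exact hp2

theorem ResAt.pr (hX : ∀ x ∈ X, ∀ c : ℂ, c ≠ 0 → c • x ∈ X) (hB : ∀ x ∈ B, ∀ c : ℂ, c ≠ 0 → c • x ∈ B)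
    (h : ResAt X B x n) (hy : Pr y x) : ResAt X B y n := by
  obtain ⟨σ, τ, g, hc, hx, hg, hr⟩ := h
  obtain ⟨a, ha, rfl⟩ := hy
  refine ⟨fun p => a • σ p, fun y => τ (a⁻¹ • y), g, hc.scale hX ha, ?_, ⟨hg.1, ?_⟩, hr⟩
  · show a • σ 0 = a • x
    rw [hx]
  · filter_upwards [hg.2] with p hp
    rw [ResS_pr_mem hB (⟨a, ha, rfl⟩ : Pr (a • σ p) (σ p))]
    exact hp

/-- Near `x` the curve is a monomial in local coordinates at all points different from `x`. -/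
theorem ResAt.near [FiniteDimensional ℂ V] (hX : ∀ x ∈ X, ∀ c : ℂ, c ≠ 0 → c • x ∈ X) (hB : ∀ x ∈ B, ∀ c : ℂ, c ≠ 0 → c • x ∈ B)
    (h : ResAt X B x n) : ∀ᶠ y in 𝓝 x, y ∈ X → ¬ Pr y x → ResAt X B y 0 := by
  obtain ⟨σ, τ, g, hc, hx, hg, hr⟩ := h
  have hτ0 : τ (σ 0) = 0 := hc.left.self_of_nhds
  have hτ : Tendsto τ (𝓝 (σ 0)) (𝓝 0) := by
    have h1 := hc.τ_an.continuousAt.tendsto
    rwa [hτ0] at h1
  have hadd : ∀ p : ℂ × ℂ, Tendsto (fun x : ℂ × ℂ => p + x) (𝓝 0) (𝓝 p) := fun p => by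
    have h1 : Continuous fun x : ℂ × ℂ => p + x := by fun_prop
    have h2 := h1.tendsto 0
    simpa using h2
  have e1 : ∀ᶠ p in 𝓝 (0 : ℂ × ℂ), LocalEq B (fun x => σ (p + x)) (fun x => g (p + x)) := by
    filter_upwards [hg.1.eventually_analyticAt, eventually_eventually_nhds.2 hg.2] with p hp1 hp2
    refine ⟨?_, (hadd p).eventually hp2⟩
    have h1 : AnalyticAt ℂ (fun x : ℂ × ℂ => p + x) 0 := analyticAt_const.add analyticAt_id
    have h2 : AnalyticAt ℂ g ((fun x : ℂ × ℂ => p + x) 0) := by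
      simp only [add_zero]
      exact hp1
    exact h2.comp h1
  have e2 : ∀ᶠ p in 𝓝 (0 : ℂ × ℂ), p ≠ 0 → Mono fun x => g (p + x) :=
    eventually_nhdsWithin_iff.1 (ResN.near hr)
  have e3 : ∀ᶠ p in 𝓝 (0 : ℂ × ℂ), p ≠ 0 → ResAt X B (σ p) 0 := by
    filter_upwards [hc.near, e1, e2] with p hp1 hp2 hp3 hp0
    exact ⟨_, _, _, hp1, by simp, hp2, hp3 hp0⟩
  rw [← hx]
  filter_upwards [hc.right, hτ.eventually e3] with y hy1 hy2 hyX hyn
  obtain ⟨c, hc0, hyc⟩ := hy1 hyX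
  have hne : τ y ≠ 0 := by
    intro h0
    rw [h0] at hyc
    exact hyn ⟨c, hc0, hyc⟩
  exact (hy2 hne).pr hX hB ⟨c, hc0, hyc⟩

private theorem ResS_localEq (hX : Surface X) {κ : Type} {Q : κ → V → ℂ} {D : ℕ} (hE : Eqs X B Q D)
    (hx : x ∈ X) : ∃ σ τ g, IsChart X σ τ ∧ σ 0 = x ∧ LocalEq B σ g := by
  obtain ⟨σ, τ, hc, hσ⟩ := hX.chart x hx
  obtain ⟨i, hi⟩ := hE.gen x hx
  refine ⟨σ, τ, fun p => Q i (σ p), hc, hσ, (hE.an i (σ 0)).comp hc.σ_an, ?_⟩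
  have ht : Tendsto σ (𝓝 0) (𝓝 x) := by
    have h1 := hc.σ_an.continuousAt.tendsto
    rwa [hσ] at h1
  filter_upwards [hc.σ_mem, ht.eventually hi] with p hp1 hp2
  exact ⟨fun h => ((hE.mem_iff _).1 h).2 i, fun h => hp2 hp1 h⟩

theorem exists_resAt (hX : Surface X) {κ : Type} {Q : κ → V → ℂ} {D : ℕ} (hE : Eqs X B Q D)
    (ht : ∀ σ τ, IsChart X σ τ → ∃ᶠ p in 𝓝 (0 : ℂ × ℂ), σ p ∉ B) (hx : x ∈ X) : ∃ n, ResAt X B x n := by
  obtain ⟨σ, τ, g, hc, hσ, hg⟩ := ResS_localEq hX hE hx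
  have hne : ¬ ∀ᶠ p in 𝓝 (0 : ℂ × ℂ), g p = 0 := by
    intro h0
    have h1 := ht σ τ hc
    refine h1 ?_
    filter_upwards [hg.2, h0] with p hp1 hp2 hp3
    exact hp3 (hp1.2 hp2)
  obtain ⟨n, hn⟩ := exists_resN hg.1 hne
  exact ⟨n, σ, τ, g, hc, hσ, hg, hn⟩

theorem ResAt.of_notMem (hX : Surface X) {κ : Type} {Q : κ → V → ℂ} {D : ℕ} (hE : Eqs X B Q D) (hx : x ∈ X)
    (hB : x ∉ B) : ResAt X B x 0 := by
  obtain ⟨σ, τ, g, hc, hσ, hg⟩ := ResS_localEq hX hE hx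
  have h1 := hg.2.self_of_nhds
  rw [hσ] at h1
  have hne : g 0 ≠ 0 := fun h0 => hB (h1.2 h0)
  have hm : Mono g := ⟨_, _, 0, 0, g, coord_fst_snd, hg.1, hne, Eventually.of_forall fun p => by simp⟩
  exact ⟨σ, τ, g, hc, hσ, hg, hm⟩

private theorem ResS_nodal_aux {σ : ℂ × ℂ → V} {τ : V → ℂ × ℂ} {g : ℂ × ℂ → ℂ} (hc : IsChart X σ τ)
    (hx : σ 0 = x) (hg : LocalEq B σ g) {S T u : ℂ × ℂ → ℂ} {a b : ℕ} (hST : Coord S T)
    (hu : AnalyticAt ℂ u 0) (hu0 : u 0 ≠ 0) (hev : ∀ᶠ x in 𝓝 0, g x = S x ^ a * T x ^ b * u x)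
    (hab : a = 0 → b = 0) : NodalAt X B x := by
  have hθ : Bihol fun x => (S x, T x) := hST
  obtain ⟨θ', hθ', h1, h2⟩ := hθ.exists_inv
  have hne : ∀ᶠ p in 𝓝 (0 : ℂ × ℂ), u p ≠ 0 := hu.continuousAt.eventually_ne hu0
  have hkey : ∀ᶠ p in 𝓝 (0 : ℂ × ℂ), (σ (θ' p) ∈ B ↔ p.1 ^ a * p.2 ^ b = 0) := by
    filter_upwards [hθ'.tendsto.eventually hg.2, hθ'.tendsto.eventually hev, hθ'.tendsto.eventually hne, h2]
      with p hp1 hp2 hp3 hp4
    have e1 : S (θ' p) = p.1 := congrArg Prod.fst hp4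
    have e2 : T (θ' p) = p.2 := congrArg Prod.snd hp4
    rw [hp1, hp2, e1, e2, mul_eq_zero]
    exact ⟨fun h => h.resolve_right hp3, Or.inl⟩
  refine ⟨_, _, hc.comp hθ' hθ h2 h1, ?_, ?_⟩
  · show σ (θ' 0) = x
    rw [hθ'.zero, hx]
  · by_cases ha : a = 0
    · left
      have hb := hab ha
      subst ha
      subst hb
      filter_upwards [hkey] with p hp h3
      have h4 := hp.1 h3
      simp at h4
    · right
      by_cases hb : b = 0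
      · left
        subst hb
        filter_upwards [hkey] with p hp
        rw [hp, pow_zero, mul_one]
        exact ⟨fun h => eq_zero_of_pow_eq_zero h, fun h => by rw [h, zero_pow ha]⟩
      · right
        filter_upwards [hkey] with p hp
        rw [hp, mul_eq_zero, mul_eq_zero]
        refine or_congr ?_ ?_
        · exact ⟨fun h => eq_zero_of_pow_eq_zero h, fun h => by rw [h, zero_pow ha]⟩
        · exact ⟨fun h => eq_zero_of_pow_eq_zero h, fun h => by rw [h, zero_pow hb]⟩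

theorem ResAt.nodal (h : ResAt X B x 0) : NodalAt X B x := by
  obtain ⟨σ, τ, g, hc, hx, hg, hr⟩ := h
  obtain ⟨S, T, a, b, u, hST, hu, hu0, hev⟩ := (hr : Mono g)
  by_cases hab : a = 0 → b = 0
  · exact ResS_nodal_aux hc hx hg hST hu hu0 hev hab
  · push Not at hab
    refine ResS_nodal_aux hc hx hg hST.symm hu hu0 (a := b) (b := a) ?_ (fun h => absurd h hab.2)
    filter_upwards [hev] with p hp
    rw [hp, mul_comm (S p ^ a)]

end Pool.Agent.H17BP
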