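import Pool.Agent.H62.FC.Trdeg

/-!
# The dimension of a proper closed subvariety is smaller

Start as in the proof of `trdeg_mono` (`Pool/Agent/H62/FC/Trdeg.lean`): `j` with `coordFun Q j ≠ 0` (from `hX`:
`aeval_coordFun_eq_zero_iff Q (X j)`), so `coordFun P j ≠ 0`; `proj_point` gives `y` in `K_Q = functionField Q` and `x` in
`K_P = functionField P` with `y j = 1`, `x j = 1`, and `aeval y G = 0 ↔ G ∈ Q`, `aeval x G = 0 ↔ G ∈ P` for forms `G`;
`exists_index` (needs `halg`) gives `J : Fin w → Fin (N + 1)` such that `y ∘ J` is a transcendence basis of `K_Q`, and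
`x ∘ J` is algebraically independent (`Trdeg_indep` is private there: copy it).

(a) For ALL polynomials `H` (not only forms): `aeval x H = 0 → aeval y H = 0`: let `d` be the total degree of `H`; the form
`H' = ∑ k ≤ d, X j ^ (d - k) * homogeneousComponent k H` has degree `d` and `aeval x H' = aeval x H` as `x j = 1`, the same for
`y` (`sum_homogeneousComponent`).  So `H' ∈ P ≤ Q` and `aeval y H = 0`.

(b) By `trdeg_mono`, `w ≤ r`.  Suppose `w = r`.  There is `F ∈ Q`, `F ∉ P`, and by `Homog Q` one may take `F` a form (some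
homogeneous component of `F` is not in `P`, all are in `Q`).  `f = aeval x F ≠ 0` and `aeval y F = 0`.  `f` is algebraic
over `A = Algebra.adjoin ℂ (range (x ∘ J))`, because `x ∘ J` is algebraically independent with `w = r = trdeg` elements
(otherwise `f` together with `x ∘ J` would be algebraically independent with `r + 1` elements:
`AlgebraicIndependent.cardinalMk_le_trdeg`; or: a finite algebraically independent family with `trdeg` elements is a
transcendence basis).  As `f ≠ 0` and `A` is a domain: there is a polynomial `q` over `A` with `q.coeff 0 ≠ 0` and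
`aeval f q = 0` (`exists_nonzero_coeff_and_aeval_eq_zero`).  Every coefficient of `q` is `aeval (x ∘ J) (c i)` with
`c i : MvPolynomial (Fin w) ℂ`, `c 0 ≠ 0`.  Let `H = ∑ i, rename J (c i) * F ^ i`: `aeval x H = 0`, so by (a)
`aeval y H = 0`; but `aeval y F = 0`, so `aeval y H = aeval (y ∘ J) (c 0) ≠ 0` (independence of `y ∘ J`): contradiction.
-/

open MvPolynomial
open Pool.Agent.H17GT (coordFun)
open Pool.Agent.H17LG.Variety (FunField)
open Pool.Agent.H62.FC (Homog trdeg_mono)

noncomputable section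

namespace Pool.Agent.H17BP

variable {N : ℕ} {P Q : Ideal (MvPolynomial (Fin (N + 1)) ℂ)}

/-- Coordinates which are algebraically independent on the smaller variety are so on the larger
one. -/
private lemma TrdegLt_indep {K L : Type} [Field K] [Algebra ℂ K] [Field L] [Algebra ℂ L] {k : ℕ}
    {x : Fin (N + 1) → K} {y : Fin (N + 1) → L}
    (h : ∀ G : MvPolynomial (Fin (N + 1)) ℂ, aeval x G = 0 → aeval y G = 0)
    {J : Fin k → Fin (N + 1)} (hJ : AlgebraicIndependent ℂ fun i => y (J i)) :
    AlgebraicIndependent ℂ fun i => x (J i) := by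
  rw [algebraicIndependent_iff] at hJ ⊢
  intro p hp
  apply hJ
  have h1 : aeval y (rename J p) = 0 := by
    apply h
    rw [aeval_rename]
    exact hp
  rw [aeval_rename] at h1
  exact h1

private lemma TrdegLt_hom {K L : Type} [Field K] [Algebra ℂ K] [Field L] [Algebra ℂ L]
    {j : Fin (N + 1)} {x : Fin (N + 1) → K} {y : Fin (N + 1) → L} (hx : x j = 1) (hy : y j = 1)
    (h : ∀ (n : ℕ) (G : MvPolynomial (Fin (N + 1)) ℂ), G.IsHomogeneous n → aeval x G = 0 →
      aeval y G = 0) (H : MvPolynomial (Fin (N + 1)) ℂ) (hH : aeval x H = 0) : aeval y H = 0 := by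
  have key : ∀ {K : Type} [Field K] [Algebra ℂ K] {x : Fin (N + 1) → K}, x j = 1 →
      aeval x (∑ k ∈ Finset.range (H.totalDegree + 1),
        X j ^ (H.totalDegree - k) * homogeneousComponent k H) = aeval x H := by
    intro K _ _ x hx
    conv_rhs => rw [← MvPolynomial.sum_homogeneousComponent H]
    rw [map_sum, map_sum]
    refine Finset.sum_congr rfl fun k _ => ?_
    rw [map_mul, map_pow, aeval_X, hx, one_pow, one_mul]
  rw [← key hy]
  refine h H.totalDegree _ ?_ (by rw [key hx, hH])
  apply MvPolynomial.IsHomogeneous.sum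
  intro d hd
  have h1 : d ≤ H.totalDegree := Nat.lt_succ_iff.1 (Finset.mem_range.1 hd)
  have h2 := (MvPolynomial.isHomogeneous_X_pow (R := ℂ) j (H.totalDegree - d)).mul
    (MvPolynomial.homogeneousComponent_isHomogeneous d H)
  rwa [Nat.sub_add_cancel h1] at h2

private lemma TrdegLt_core {K L : Type} [Field K] [Algebra ℂ K] [Field L] [Algebra ℂ L] {w : ℕ}
    {x : Fin (N + 1) → K} {y : Fin (N + 1) → L} {J : Fin w → Fin (N + 1)}
    (hxJ : IsTranscendenceBasis ℂ fun i => x (J i)) (hyJ : AlgebraicIndependent ℂ fun i => y (J i))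
    (hxy : ∀ H : MvPolynomial (Fin (N + 1)) ℂ, aeval x H = 0 → aeval y H = 0)
    {F : MvPolynomial (Fin (N + 1)) ℂ} (hF : aeval x F ≠ 0) (hF' : aeval y F = 0) : False := by
  have halg := hxJ.isAlgebraic
  obtain ⟨q, hq0, hq⟩ := (halg.isAlgebraic (aeval x F)).exists_nonzero_coeff_and_aeval_eq_zero
    (mem_nonZeroDivisors_of_ne_zero hF)
  have hc : ∀ u : Algebra.adjoin ℂ (Set.range fun i => x (J i)),
      ∃ c : MvPolynomial (Fin w) ℂ, aeval (fun i => x (J i)) c = (u : K) := by
    have h1 : ∀ u ∈ Algebra.adjoin ℂ (Set.range fun i => x (J i)),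
        ∃ c : MvPolynomial (Fin w) ℂ, aeval (fun i => x (J i)) c = u := by
      intro u hu
      rw [Algebra.adjoin_range_eq_range_aeval] at hu
      exact hu
    exact fun u => h1 _ u.2
  choose c hc using hc
  have h1 : aeval x (∑ i ∈ Finset.range (q.natDegree + 1), rename J (c (q.coeff i)) * F ^ i) = 0 := by
    rw [map_sum, ← hq, Polynomial.aeval_eq_sum_range]
    refine Finset.sum_congr rfl fun i _ => ?_
    rw [map_mul, map_pow, aeval_rename, Algebra.smul_def]
    congr 1
    exact hc _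
  have h2 := hxy _ h1
  rw [map_sum, Finset.sum_range_succ', Finset.sum_eq_zero, zero_add, map_mul, map_pow, pow_zero,
    mul_one, aeval_rename] at h2
  · rw [algebraicIndependent_iff] at hyJ
    have h3 : c (q.coeff 0) = 0 := hyJ _ h2
    have h4 := hc (q.coeff 0)
    rw [h3, map_zero] at h4
    exact hq0 (Subtype.ext h4.symm)
  · intro i _
    rw [map_mul, map_pow, hF', zero_pow (Nat.succ_ne_zero i), mul_zero]

theorem trdeg_lt [P.IsPrime] [Q.IsPrime] (hP : Homog P) (hQ : Homog Q) (hPQ : P ≤ Q) (hne : ¬ Q ≤ P)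
    (hX : ∃ i, (X i : MvPolynomial (Fin (N + 1)) ℂ) ∉ Q) {r w : ℕ}
    (hr : ∃ z : Fin r → FunField P, IsTranscendenceBasis ℂ z)
    (hw : ∃ z : Fin w → FunField Q, IsTranscendenceBasis ℂ z) : w < r := by
  refine lt_of_le_of_ne (trdeg_mono hP hQ hPQ hr hw) ?_
  rintro rfl
  obtain ⟨z, hz⟩ := hw
  obtain ⟨z', hz'⟩ := hr
  obtain ⟨j, hj0⟩ := hX
  have hj : coordFun Q j ≠ 0 := by
    intro h0
    exact hj0 ((Pool.Agent.H92.GT.Proj.aeval_coordFun_eq_zero_iff Q (X j)).1
      (by rw [aeval_X]; exact h0))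
  have hj' : coordFun P j ≠ 0 := by
    intro h0
    apply hj
    have h1 := (Pool.Agent.H92.GT.Proj.aeval_coordFun_eq_zero_iff P (X j)).1
      (by rw [aeval_X]; exact h0)
    have h2 := (Pool.Agent.H92.GT.Proj.aeval_coordFun_eq_zero_iff Q (X j)).2 (hPQ h1)
    rwa [aeval_X] at h2
  obtain ⟨y, hy1, hygen, hyker⟩ := Pool.Agent.H92.GT.Proj.proj_point Q hj
  obtain ⟨x, hx1, -, hxker⟩ := Pool.Agent.H92.GT.Proj.proj_point P hj'
  have halg : Algebra.IsAlgebraic (IntermediateField.adjoin ℂ (Set.range y))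
      (H17GT.functionField Q) := by
    rw [hygen]
    exact ⟨fun f => isAlgebraic_algebraMap (⟨f, IntermediateField.mem_top⟩ :
      (⊤ : IntermediateField ℂ (H17GT.functionField Q)))⟩
  obtain ⟨J, hJ⟩ := Pool.Agent.H92.GT.exists_index halg (z := z) hz
  have hxy : ∀ H : MvPolynomial (Fin (N + 1)) ℂ, aeval x H = 0 → aeval y H = 0 :=
    TrdegLt_hom hx1 hy1 fun n G hG h => (hyker n G hG).2 (hPQ ((hxker n G hG).1 h))
  have hind : AlgebraicIndependent ℂ fun i => x (J i) := TrdegLt_indep hxy hJ.1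
  have h2 := IsTranscendenceBasis.cardinalMk_eq_trdeg (R := ℂ) (A := H17GT.functionField P)
    (x := z') hz'
  have hbasis : IsTranscendenceBasis ℂ fun i => x (J i) :=
    hind.isTranscendenceBasis_of_trdeg_le_of_finite h2.ge
  obtain ⟨F₀, hF₀Q, hF₀P⟩ := Set.not_subset.1 hne
  obtain ⟨n, hn⟩ : ∃ n, homogeneousComponent n F₀ ∉ P := by
    by_contra hcon
    push Not at hcon
    apply hF₀P
    change F₀ ∈ P
    rw [← MvPolynomial.sum_homogeneousComponent F₀]
    exact Ideal.sum_mem _ fun i _ => hcon i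
  have hFQ := hQ F₀ hF₀Q n
  exact TrdegLt_core hbasis hJ.1 hxy
    (fun h => hn ((hxker n _ (homogeneousComponent_isHomogeneous n F₀)).1 h))
    ((hyker n _ (homogeneousComponent_isHomogeneous n F₀)).2 hFQ)

end Pool.Agent.H17BP
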