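import Pool.Agent.H17BP.ChLem

/-!
# Isolated points of a closed surface

`X ∩ sphere 0 1` is compact (`V` is finite dimensional, hence proper; `X ∩ sphere 0 1` is closed by `Surface.closed`).  Every
`x` in it has an open neighbourhood `U x` on which `y ∈ X → ¬ Pr y x → R y`; finitely many of them, `x ∈ F`, cover it
(`IsCompact.elim_nhds_subcover`).  Let `x ∈ X`; `x ≠ 0`; `y = (‖x‖⁻¹ : ℂ) • x ∈ X` has norm `1`, so it is in `U q`, `q ∈ F`:
`Pr y q`, hence `Pr x q`, or `R y`, hence `R x` by `hR`.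
-/

open Topology Filter

noncomputable section

namespace Pool.Agent.H17BP

variable {V : Type} [NormedAddCommGroup V] [NormedSpace ℂ V]

theorem exists_finset_of_isolated [FiniteDimensional ℂ V] {X : Set V} (hX : Surface X) {R : V → Prop}
    (hR : ∀ x y, Pr x y → R y → R x) (h : ∀ x ∈ X, ∀ᶠ y in 𝓝 x, y ∈ X → ¬ Pr y x → R y) :
    ∃ F : Finset V, (∀ q ∈ F, q ∈ X) ∧ ∀ x ∈ X, R x ∨ ∃ q ∈ F, Pr x q := by
  have : ProperSpace V := FiniteDimensional.proper ℂ V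
  have hcl : IsClosed (X ∩ Metric.sphere (0 : V) 1) := by
    refine isClosed_of_closure_subset fun y hy => ?_
    have h1 : y ∈ Metric.sphere (0 : V) 1 := by
      have := closure_mono Set.inter_subset_right hy
      rwa [Metric.isClosed_sphere.closure_eq] at this
    have h2 : y ∈ closure X := closure_mono Set.inter_subset_left hy
    refine ⟨hX.closed y h2 ?_, h1⟩
    rintro rfl
    simp at h1
  have hK : IsCompact (X ∩ Metric.sphere (0 : V) 1) :=
    (isCompact_sphere (0 : V) 1).of_isClosed_subset hcl Set.inter_subset_right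
  obtain ⟨F, hF, hcov⟩ := hK.elim_nhds_subcover (fun x => {y | y ∈ X → ¬ Pr y x → R y}) fun x hx => h x hx.1
  refine ⟨F, fun q hq => (hF q hq).1, fun x hx => ?_⟩
  have hx0 : x ≠ 0 := fun h0 => hX.zero (h0 ▸ hx)
  have hn : ((‖x‖⁻¹ : ℝ) : ℂ) ≠ 0 := by
    exact_mod_cast inv_ne_zero (norm_ne_zero_iff.2 hx0)
  have hy : ((‖x‖⁻¹ : ℝ) : ℂ) • x ∈ X := hX.smul x hx _ hn
  have hy1 : ((‖x‖⁻¹ : ℝ) : ℂ) • x ∈ Metric.sphere (0 : V) 1 := by
    rw [mem_sphere_zero_iff_norm, norm_smul, Complex.norm_real, norm_inv, norm_norm,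
      inv_mul_cancel₀ (norm_ne_zero_iff.2 hx0)]
  have hxy : Pr x (((‖x‖⁻¹ : ℝ) : ℂ) • x) := Pr.symm ⟨_, hn, rfl⟩
  obtain ⟨q, hq, hyq⟩ := Set.mem_iUnion₂.1 (hcov ⟨hy, hy1⟩)
  by_cases hP : Pr (((‖x‖⁻¹ : ℝ) : ℂ) • x) q
  · exact Or.inr ⟨q, hq, hxy.trans hP⟩
  · exact Or.inl (hR _ _ hxy (hyq hy hP))

end Pool.Agent.H17BP
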