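import Pool.Agent.H17BP.BlowM
import Pool.Agent.H17BP.FinS
import Pool.Agent.H17BP.Nodal

/-!
# The induction: from the nodal case to the general case
-/

open Topology Filter

noncomputable section

namespace Pool.Agent.H17BP

open Pool.Agent.H62.BU (blow total Ker phi om phi_smul)

/-- The extension theorem for models which are resolved by `n` blow-ups over every point. -/
def PicardN (n : ℕ) : Prop :=
  ∀ (V : Type) [NormedAddCommGroup V] [NormedSpace ℂ V] [FiniteDimensional ℂ V] (X B : Set V) (m j : ℕ)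
    (Ω : V → V → V → ℂ) (κ : Type) [Fintype κ] (Q : κ → V → ℂ) (D : ℕ), Model X B m j Ω Q D →
    (∀ x ∈ X, ResAt X B x n) → Picard X B

theorem picardN_zero : PicardN 0 := by
  intro V _ _ _ X B m j Ω κ _ Q D h h0
  exact nodal_picard h fun x hx => (h0 x hx).nodal

theorem phi_pr {V : Type} [NormedAddCommGroup V] [NormedSpace ℂ V] {ι : Type} [Fintype ι]
    {l : ι → V →L[ℂ] ℂ} {x y : V} (h : Pr x y) : Pr (phi l x) (phi l y) := by
  obtain ⟨c, hc, rfl⟩ := h
  exact ⟨c ^ 2, pow_ne_zero _ hc, phi_smul c y⟩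

theorem picardN_step {n : ℕ} (ih : PicardN n) : ∀ (k : ℕ) (V : Type) [NormedAddCommGroup V] [NormedSpace ℂ V]
    [FiniteDimensional ℂ V] (X B : Set V) (m j : ℕ) (Ω : V → V → V → ℂ) (κ : Type) [Fintype κ]
    (Q : κ → V → ℂ) (D : ℕ), Model X B m j Ω Q D → (∀ x ∈ X, ResAt X B x (n + 1)) →
    (∃ F : Finset V, F.card ≤ k ∧ ∀ x ∈ X, ResAt X B x n ∨ ∃ q ∈ F, Pr x q) → Picard X B := by
  intro k
  induction k with
  | zero =>
    intro V _ _ _ X B m j Ω κ _ Q D h h0 hF
    obtain ⟨F, hF1, hF2⟩ := hF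
    have hF0 : F = ∅ := Finset.card_eq_zero.1 (by omega)
    refine ih V X B m j Ω κ Q D h fun x hx => ?_
    rcases hF2 x hx with h1 | ⟨q, hq, -⟩
    · exact h1
    · rw [hF0] at hq
      simp at hq
  | succ k ihk =>
    intro V _ _ _ X B m j Ω κ _ Q D h h0 hF
    obtain ⟨F, hF1, hF2⟩ := hF
    have hX := h.surf.smul
    have hB := h.eqs.cone h.surf.smul
    by_cases hall : ∀ x ∈ X, ResAt X B x n
    · exact ih V X B m j Ω κ Q D h hall
    push Not at hall
    obtain ⟨x₀, hx₀, hx₀n⟩ := hall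
    rcases hF2 x₀ hx₀ with h1 | ⟨q, hqF, hxq⟩
    · exact absurd h1 hx₀n
    have hqX : q ∈ X := (hxq.mem_iff hX).1 hx₀
    have hqn : ¬ ResAt X B q n := fun h1 => hx₀n (h1.pr hX hB hxq)
    have hq0 : ¬ ResAt X B q 0 := fun h1 => hqn (h1.mono_le (Nat.zero_le n))
    have hqB : q ∈ B := by
      by_contra hqB
      exact hq0 (ResAt.of_notMem h.surf h.eqs hqX hqB)
    have hqne : q ≠ 0 := fun e => h.surf.zero (e ▸ hqX)
    obtain ⟨r, l, hl⟩ := exists_forms hqne
    classical
    refine picard_blow h.surf hl h.eqs.sub hB hqB ?_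
    refine ihk (Fin r → V) (blow l X) (total l X B) (2 * m) j (om l j Ω) (κ × Fin r) _ D
      (model_blow h hl hqB) ?_ ⟨(F.erase q).image (phi l), ?_, ?_⟩
    · intro y hy
      rcases resAt_blow h.surf h.eqs hl hqB (h0 q hqX) hq0 hy with h1 | ⟨x, hx, -, -, h2⟩
      · exact h1.mono_le (Nat.le_succ n)
      · exact h2 _ (h0 x hx)
    · have h1 := Finset.card_image_le (s := F.erase q) (f := phi l)
      have h2 := Finset.card_erase_of_mem hqF
      omega
    · intro y hy
      rcases resAt_blow h.surf h.eqs hl hqB (h0 q hqX) hq0 hy with h1 | ⟨x, hx, hxq', hyx, h2⟩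
      · exact Or.inl h1
      · rcases hF2 x hx with h3 | ⟨q', hq'F, hxq''⟩
        · exact Or.inl (h2 _ h3)
        · refine Or.inr ⟨phi l q', Finset.mem_image_of_mem _ (Finset.mem_erase.2 ⟨?_, hq'F⟩),
            hyx.trans (phi_pr hxq'')⟩
          rintro rfl
          exact hxq' hxq''

/-- At all but finitely many points the curve is a monomial in local coordinates. -/
theorem Model.exists_finset {V : Type} [NormedAddCommGroup V] [NormedSpace ℂ V] [FiniteDimensional ℂ V]
    {X B : Set V} {m j : ℕ} {Ω : V → V → V → ℂ} {κ : Type} {Q : κ → V → ℂ} {D : ℕ}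
    (h : Model X B m j Ω Q D) :
    ∃ F : Finset V, (∀ q ∈ F, q ∈ X) ∧ ∀ x ∈ X, ResAt X B x 0 ∨ ∃ q ∈ F, Pr x q := by
  have hX := h.surf.smul
  have hB := h.eqs.cone h.surf.smul
  refine exists_finset_of_isolated h.surf (fun x y hxy hy => hy.pr hX hB hxy) fun x hx => ?_
  obtain ⟨n, hn⟩ := exists_resAt h.surf h.eqs h.thin hx
  exact hn.near hX hB

theorem picardN (n : ℕ) : PicardN n := by
  induction n with
  | zero => exact picardN_zero
  | succ n ih =>
    intro V _ _ _ X B m j Ω κ _ Q D h h0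
    obtain ⟨F, -, hF⟩ := h.exists_finset
    refine picardN_step ih F.card V X B m j Ω κ Q D h h0 ⟨F, le_rfl, fun x hx => ?_⟩
    rcases hF x hx with h1 | h1
    · exact Or.inl (h1.mono_le (Nat.zero_le n))
    · exact Or.inr h1

/-- **The extension theorem.** -/
theorem picard_of_model {V : Type} [NormedAddCommGroup V] [NormedSpace ℂ V] [FiniteDimensional ℂ V]
    {X B : Set V} {m j : ℕ} {Ω : V → V → V → ℂ} {κ : Type} [Fintype κ] {Q : κ → V → ℂ} {D : ℕ}
    (h : Model X B m j Ω Q D) : Picard X B := by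
  classical
  have hX := h.surf.smul
  have hB := h.eqs.cone h.surf.smul
  obtain ⟨F, hFX, hF⟩ := h.exists_finset
  have h1 : ∀ q : V, ∃ n, q ∈ F → ResAt X B q n := by
    intro q
    by_cases hq : q ∈ F
    · obtain ⟨n, hn⟩ := exists_resAt h.surf h.eqs h.thin (hFX q hq)
      exact ⟨n, fun _ => hn⟩
    · exact ⟨0, fun h2 => absurd h2 hq⟩
  choose n hn using h1
  refine picardN (F.sup n) V X B m j Ω κ Q D h fun x hx => ?_
  rcases hF x hx with h2 | ⟨q, hq, hxq⟩
  · exact h2.mono_le (Nat.zero_le _)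
  · exact ((hn q hq).mono_le (Finset.le_sup (f := n) hq)).pr hX hB hxq

end Pool.Agent.H17BP
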