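import Pool.Agent.H17BP.Conv

/-!
# Entire curves in the blow-up

Let `h` be a holomorphic map from `ℂ` to the blow-up, not into the total transform.  For every `z` choose `b z` with
`h z (b z) ≠ 0` (`exists_ne`), `f z = h z (b z)`.
* `f z ∈ X` (`comp_mem`); `f z ∈ B ↔ h z ∈ total` (`mem_total_iff`).
* `HolP f z₀`: let `H` be a local lift of `h`, `H z₀ b₀ ≠ 0`.  Near `z₀`: `h z = c • H z`, so `H z ∈ blow` and
  `H z b₀ ≠ 0`, `h z b₀ ≠ 0`, and `f z = h z (b z)` is a non-zero multiple of `h z b₀` (`comp_smul`; the factor is not `0`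
  because `f z ≠ 0`), hence of `H z b₀`; the function `z ↦ H z b₀` is analytic at `z₀`.
* By `Brody X B` all `f z` are proportional.  `f z₁ ∉ B` for some `z₁`, `q ∈ B` and `B` is a cone, so `f z₁`, and then every
  `f z`, is not a multiple of `q`: some `l b' (f z) ≠ 0` (`Ker`); `eq_phi`: `h z = (l b (h z b))⁻¹ • phi l (h z b)` for
  `b = b z`, the factor is not `0` (`ne_of_ne`).  So `h z` is proportional to `phi l (f z)`, and `phi l (f z)` to
  `phi l (f w)` (`phi_smul`).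
-/

open Topology Filter

noncomputable section

namespace Pool.Agent.H17BP

open Pool.Agent.H62.BU (blow total Ker phi)

variable {V : Type} [NormedAddCommGroup V] [NormedSpace ℂ V] {ι : Type} [Fintype ι] {l : ι → V →L[ℂ] ℂ}
  {X B : Set V} {q : V}

theorem brody_blow (hX : Surface X) (hl : Ker l q) (hBX : B ⊆ X) (hB : ∀ x ∈ B, ∀ c : ℂ, c ≠ 0 → c • x ∈ B)
    (hq : q ∈ B) (hb : Brody X B) : Brody (blow l X) (total l X B) := by
  have hX' : H62.BU.Surface X := surface_iff.2 hX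
  intro h hh hmem hex z w
  obtain ⟨z₁, hz₁⟩ := hex
  choose b hbne using fun z => H62.BU.exists_ne (h z) (hmem z)
  have hfX : ∀ z, h z (b z) ∈ X := fun z => H62.BU.comp_mem hX' (h z) (hmem z) (hbne z)
  have hfB : ∀ z, h z ∈ total l X B ↔ h z (b z) ∈ B := fun z =>
    H62.BU.mem_total_iff hX' hB (h z) (hmem z) (hbne z)
  have hHol : ∀ z₀, HolP (fun z => h z (b z)) z₀ := by
    intro z₀
    obtain ⟨H, hHan, hH0, hHe⟩ := hh z₀
    obtain ⟨b₀, hb₀⟩ := Function.ne_iff.1 hH0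
    have hb₀' : H z₀ b₀ ≠ 0 := hb₀
    have han : AnalyticAt ℂ (fun z => H z b₀) z₀ := (analyticAt_pi_iff.1 hHan) b₀
    refine ⟨fun z => H z b₀, han, hb₀', ?_⟩
    filter_upwards [hHe, han.continuousAt.eventually_ne hb₀'] with z hz hz0
    obtain ⟨c, hc, e⟩ := hz
    have e1 : h z b₀ = c • H z b₀ := congrFun e b₀
    have h1 : h z b₀ ≠ 0 := by
      rw [e1]
      exact smul_ne_zero hc hz0
    obtain ⟨c', e2⟩ := H62.BU.comp_smul (h z) (hmem z) h1 (b z)
    have hc' : c' ≠ 0 := by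
      intro h0
      rw [h0, zero_smul] at e2
      exact hbne z e2
    refine ⟨c' * c, mul_ne_zero hc' hc, ?_⟩
    show h z (b z) = (c' * c) • H z b₀
    rw [e2, e1, smul_smul]
  have hall := hb (fun z => h z (b z)) hHol hfX ⟨z₁, fun hmemB => hz₁ ((hfB z₁).2 hmemB)⟩
  have hl' : ∀ z, ∃ b', l b' (h z (b z)) ≠ 0 := by
    intro z
    by_contra hcon
    push Not at hcon
    obtain ⟨c, e⟩ := (hl (h z (b z))).1 hcon
    have hc : c ≠ 0 := by
      intro h0
      rw [h0, zero_smul] at e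
      exact hbne z e
    have h1 : h z (b z) ∈ B := by
      rw [e]
      exact hB q hq c hc
    obtain ⟨d, hd, e'⟩ := hall z₁ z
    apply hz₁
    rw [hfB z₁]
    have e'' : h z₁ (b z₁) = d • h z (b z) := e'
    rw [e'']
    exact hB _ h1 d hd
  have hphi : ∀ z, Pr (h z) (phi l (h z (b z))) := by
    intro z
    obtain ⟨b', hb'⟩ := hl' z
    exact ⟨(l (b z) (h z (b z)))⁻¹, inv_ne_zero (H62.BU.ne_of_ne (h z) (hmem z) (hbne z) hb'),
      H62.BU.eq_phi (h z) (hmem z) (hbne z) hb'⟩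
  have hpp : Pr (phi l (h z (b z))) (phi l (h w (b w))) := by
    obtain ⟨c, hc, e⟩ := hall z w
    have e' : h z (b z) = c • h w (b w) := e
    refine ⟨c ^ 2, pow_ne_zero 2 hc, ?_⟩
    rw [e', H62.BU.phi_smul]
  exact ((hphi z).trans hpp).trans (hphi w).symm

end Pool.Agent.H17BP
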