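import Pool.Agent.H17BP.Conv

/-!
# Lifting holomorphic maps from a punctured disc to the blow-up

Let `f`, `r` be as in `Picard X B`, `A = {z | z ≠ 0 ∧ ‖z‖ < r}` (open and preconnected; e.g. the image of a half plane under
`exp`, or `isPreconnected_compl_singleton...` for the ball minus a point; the library has it for complements of countable
sets: `IsConnected ... (Set.Countable.isPathConnected_compl_of_one_lt_rank)`; there may be the version for open connected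
sets minus a countable set).
* `f` is not proportional to `q` near any point of `A`: let `A₁` be the set of the `z₀ ∈ A` with `Pr (f z) q` for `z` near `z₀`,
  `A₂` the set of the `z₀ ∈ A` with `¬ Pr (f z) q` for all `z ≠ z₀` near `z₀`.  Both are open, `A = A₁ ∪ A₂`: for a local lift
  `F` of `f` and the forms `l b`: `Pr (f z) q ↔ ∀ b, l b (F z) = 0` near `z₀` (`Ker`, `F z ≠ 0`, `q ≠ 0`), and
  `AnalyticAt.eventually_eq_zero_or_eventually_ne_zero` for the finitely many functions `l b ∘ F`.  `A₁ ∩ A₂ = ∅`.  If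
  `A₁ = A` then all `f z` are in `B` (`q ∈ B`, cone), against the hypothesis.  So `A₂ = A`.
* For `z₀ ∈ A` let `F` be a local lift at `z₀`; `lift_curve` gives `k` and `G` analytic at `z₀`, `G z ∈ blow`,
  `phi l (F z) = (z - z₀)^k • G z` near `z₀`.  For `z ≠ z₀` near `z₀`: `Pr (phi l (f z)) (G z)` (`phi_smul`).
  Define `h z = phi l (f z)` if `¬ Pr (f z) q`, and `h z = G_z z` with such a `G_z` at the point `z` otherwise
  (`Classical.choose`).  `HolP h z₀` for `z₀ ∈ A` with the lift `G`: for `z ≠ z₀` near `z₀` we have `h z = phi l (f z)`; at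
  `z₀` itself: if `Pr (f z₀) q` then `h z₀ = G z₀` for the chosen `G` (use the chosen `G` as the lift), otherwise
  `h z₀ = phi l (f z₀)`, `G z₀` is proportional to it (`k = 0` since `phi l (F z₀) ≠ 0`).
  `h z ∈ blow` for `z ∈ A`.  Second claim of `exists_lift` (`z ∈ A`, `h z b ≠ 0`): if `¬ Pr (f z) q` then
  `h z b = l b (f z) • f z`.  If `Pr (f z) q`: `phi l (F w) = (w - z)^k • G w` for `w` near `z`, with `G = G_z`, so
  `l b (F w) • F w = (w - z)^k • G w b`; for every continuous linear form `Λ` and `w ≠ z` near `z`: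
  `Λ (F w) • G w b = Λ (G w b) • F w`, hence in the limit `w → z`: `Λ (F z) • G z b = Λ (G z b) • F z`; with `Λ (F z) ≠ 0`
  (`exists_dual_vector`) the vector `G z b = h z b ≠ 0` is proportional to `F z`, hence to `f z`.
* `picard_blow`: `h z ∉ total` if `f z ∉ B` (`exists_ne`, second claim, `mem_total_iff`).  Apply `hp` to `h`: there is `G` analytic at
  `0`, `G 0 ≠ 0`, `Pr (h z) (G z)` for `z ≠ 0` near `0`.  Let `G 0 b ≠ 0`, `F z = G z b`.  For `z ≠ 0` near `0`: `G z b ≠ 0`,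
  so `h z b ≠ 0` and `Pr (f z) (h z b)`, `Pr (h z b) (G z b)`.
-/

open Topology Filter

noncomputable section

namespace Pool.Agent.H17BP

open Pool.Agent.H62.BU (blow total Ker phi)

variable {V : Type} [NormedAddCommGroup V] [NormedSpace ℂ V] {ι : Type} [Fintype ι] {l : ι → V →L[ℂ] ℂ}
  {X B : Set V} {q : V}

private theorem TrP_preconnected (r : ℝ) : IsPreconnected {z : ℂ | z ≠ 0 ∧ ‖z‖ < r} := by
  by_cases hr : 0 < r
  · have h1 : IsPreconnected {w : ℂ | w.re < Real.log r} := (convex_halfSpace_re_lt (Real.log r)).isPreconnected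
    have h2 := h1.image Complex.exp Complex.continuous_exp.continuousOn
    have h3 : Complex.exp '' {w : ℂ | w.re < Real.log r} = {z : ℂ | z ≠ 0 ∧ ‖z‖ < r} := by
      ext z
      constructor
      · rintro ⟨w, hw, rfl⟩
        refine ⟨Complex.exp_ne_zero w, ?_⟩
        rw [Complex.norm_exp]
        have h4 : w.re < Real.log r := hw
        calc Real.exp w.re < Real.exp (Real.log r) := Real.exp_lt_exp.2 h4
          _ = r := Real.exp_log hr
      · rintro ⟨hz, hzr⟩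
        refine ⟨Complex.log z, ?_, Complex.exp_log hz⟩
        show (Complex.log z).re < Real.log r
        rw [Complex.log_re]
        exact Real.log_lt_log (norm_pos_iff.2 hz) hzr
    rwa [h3] at h2
  · have h1 : {z : ℂ | z ≠ 0 ∧ ‖z‖ < r} = ∅ := by
      ext z
      simp only [Set.mem_ofPred_eq, Set.mem_empty_iff_false, iff_false, not_and]
      intro _ h
      exact hr ((norm_nonneg z).trans_lt h)
    rw [h1]
    exact isPreconnected_empty

omit [Fintype ι] in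
private theorem TrP_forms (hl : Ker l q) {x y : V} (h : Pr x y) (hy : y ≠ 0) : Pr x q ↔ ∀ b, l b y = 0 := by
  constructor
  · intro hx b
    obtain ⟨c, hc, e⟩ := h.symm.trans hx
    rw [e, map_smul, (hl q).2 ⟨1, (one_smul _ _).symm⟩ b, smul_zero]
  · intro hb
    obtain ⟨c, hc⟩ := (hl y).1 hb
    refine h.trans ⟨c, ?_, hc⟩
    rintro rfl
    rw [zero_smul] at hc
    exact hy hc

private theorem TrP_dichotomy (hl : Ker l q) {f : ℂ → V} {z₀ : ℂ} (hf : HolP f z₀) :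
    (∀ᶠ z in 𝓝 z₀, Pr (f z) q) ∨ ∀ᶠ z in 𝓝[≠] z₀, ¬ Pr (f z) q := by
  obtain ⟨F, hF, hF0, hfF⟩ := hf
  have hne : ∀ᶠ z in 𝓝 z₀, F z ≠ 0 := hF.continuousAt.eventually_ne hF0
  have han : ∀ b, AnalyticAt ℂ (fun z => l b (F z)) z₀ := fun b => ((l b).analyticAt (F z₀)).comp hF
  by_cases h : ∀ b, ∀ᶠ z in 𝓝 z₀, l b (F z) = 0
  · left
    filter_upwards [hne, hfF, eventually_all.2 h] with z h1 h2 h3
    exact (TrP_forms hl h2 h1).2 h3
  · right
    obtain ⟨b, hb⟩ := not_forall.1 h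
    have h1 := (han b).eventually_eq_zero_or_eventually_ne_zero.resolve_left hb
    filter_upwards [h1, hne.filter_mono nhdsWithin_le_nhds, hfF.filter_mono nhdsWithin_le_nhds] with z h2 h3 h4 h5
    exact h2 ((TrP_forms hl h4 h3).1 h5 b)

/-- A holomorphic map which is proportional to `q` only at isolated points. -/
theorem isolated_of_notMem (hl : Ker l q) (hB : ∀ x ∈ B, ∀ c : ℂ, c ≠ 0 → c • x ∈ B) (hq : q ∈ B)
    (hq0 : q ≠ 0) {r : ℝ} {f : ℂ → V} (hf : ∀ z : ℂ, z ≠ 0 → ‖z‖ < r → HolP f z)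
    (hfB : ∃ z : ℂ, z ≠ 0 ∧ ‖z‖ < r ∧ f z ∉ B) :
    ∀ z₀ : ℂ, z₀ ≠ 0 → ‖z₀‖ < r → ∀ᶠ z in 𝓝[≠] z₀, ¬ Pr (f z) q := by
  intro z₀ hz₀ hz₀r
  refine (TrP_dichotomy hl (hf z₀ hz₀ hz₀r)).resolve_left fun h => ?_
  have hu : IsOpen {z : ℂ | ∀ᶠ w in 𝓝 z, Pr (f w) q} := isOpen_setOfPred_eventually_nhds
  have hv : IsOpen {z : ℂ | ∀ᶠ w in 𝓝[≠] z, ¬ Pr (f w) q} := by
    rw [isOpen_iff_eventually]
    intro z hz
    have h1 : ∀ᶠ w in 𝓝[≠] z, ¬ Pr (f w) q := hz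
    rw [eventually_nhdsWithin_iff] at h1
    filter_upwards [eventually_eventually_nhds.2 h1] with y hy
    by_cases hyz : y = z
    · rw [hyz]
      exact hz
    · have h2 : ∀ᶠ w in 𝓝 y, w ≠ z := eventually_ne_nhds hyz
      have h3 : ∀ᶠ w in 𝓝 y, ¬ Pr (f w) q := by
        filter_upwards [hy, h2] with w h4 h5
        exact h4 h5
      exact h3.filter_mono nhdsWithin_le_nhds
  have huv : Disjoint {z : ℂ | ∀ᶠ w in 𝓝 z, Pr (f w) q} {z : ℂ | ∀ᶠ w in 𝓝[≠] z, ¬ Pr (f w) q} := by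
    rw [Set.disjoint_left]
    intro z h1 h2
    have h3 : ∀ᶠ w in 𝓝 z, Pr (f w) q := h1
    have h4 : ∀ᶠ w in 𝓝[≠] z, ¬ Pr (f w) q := h2
    obtain ⟨w, h5, h6⟩ := ((h3.filter_mono nhdsWithin_le_nhds).and h4).exists
    exact h6 h5
  have hsub : {z : ℂ | z ≠ 0 ∧ ‖z‖ < r} ⊆ {z : ℂ | ∀ᶠ w in 𝓝 z, Pr (f w) q} := by
    refine IsPreconnected.subset_left_of_subset_union hu hv huv ?_ ⟨z₀, ⟨hz₀, hz₀r⟩, h⟩ (TrP_preconnected r)
    intro z hz
    exact TrP_dichotomy hl (hf z hz.1 hz.2)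
  obtain ⟨z, h1, h2, h3⟩ := hfB
  have h4 : ∀ᶠ w in 𝓝 z, Pr (f w) q := hsub ⟨h1, h2⟩
  obtain ⟨c, hc, e⟩ := h4.self_of_nhds
  exact h3 (e ▸ hB q hq c hc)

private theorem TrP_phi {x y : V} {c : ℂ} (h : x = c • y) : phi l x = c ^ 2 • phi l y := by
  rw [h, H62.BU.phi_smul]

/-- The local lift. -/
private theorem TrP_local (hX : Surface X) (hl : Ker l q) {r : ℝ} {f : ℂ → V}
    (hf : ∀ z : ℂ, z ≠ 0 → ‖z‖ < r → HolP f z ∧ f z ∈ X)
    (hi : ∀ z₀ : ℂ, z₀ ≠ 0 → ‖z₀‖ < r → ∀ᶠ z in 𝓝[≠] z₀, ¬ Pr (f z) q) {z₀ : ℂ} (hz₀ : z₀ ≠ 0)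
    (hz₀r : ‖z₀‖ < r) :
    ∃ (F : ℂ → V) (G : ℂ → ι → V) (k : ℕ), AnalyticAt ℂ F z₀ ∧ F z₀ ≠ 0 ∧ (∀ᶠ z in 𝓝 z₀, Pr (f z) (F z)) ∧
      AnalyticAt ℂ G z₀ ∧ (∀ᶠ z in 𝓝 z₀, G z ∈ blow l X) ∧
      ∀ᶠ z in 𝓝 z₀, phi l (F z) = (z - z₀) ^ k • G z := by
  obtain ⟨F, hF, hF0, hfF⟩ := (hf z₀ hz₀ hz₀r).1
  have hA : ∀ᶠ z in 𝓝 z₀, z ≠ 0 ∧ ‖z‖ < r :=
    (eventually_ne_nhds hz₀).and (continuous_norm.continuousAt.eventually_lt_const hz₀r)
  have hFX : ∀ᶠ z in 𝓝 z₀, F z ∈ X := by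
    filter_upwards [hfF, hA] with z h1 h2
    exact (Pr.mem_iff hX.smul h1).1 (hf z h2.1 h2.2).2
  have hne : ∃ᶠ z in 𝓝[≠] z₀, ∃ b, l b (F z) ≠ 0 := by
    refine Eventually.frequently ?_
    filter_upwards [hi z₀ hz₀ hz₀r, hfF.filter_mono nhdsWithin_le_nhds,
      (hF.continuousAt.eventually_ne hF0).filter_mono nhdsWithin_le_nhds] with z h1 h2 h3
    by_contra h4
    push Not at h4
    exact h1 ((TrP_forms hl h2 h3).2 h4)
  obtain ⟨k, G, hG, hGb, hGe⟩ := H62.BU.lift_curve hF hFX hne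
  exact ⟨F, G, k, hF, hF0, hfF, hG, hGb, hGe⟩

private theorem TrP_prop {F : ℂ → V} {G : ℂ → ι → V} {k : ℕ} {z : ℂ} (hF : AnalyticAt ℂ F z)
    (hF0 : F z ≠ 0) (hG : AnalyticAt ℂ G z) (h : ∀ᶠ w in 𝓝 z, phi l (F w) = (w - z) ^ k • G w) {b : ι}
    (hb : G z b ≠ 0) : Pr (F z) (G z b) := by
  obtain ⟨Λ, hΛ1, hΛ2⟩ := exists_dual_vector ℂ (F z) (norm_ne_zero_iff.mpr hF0)
  have hΛ : Λ (F z) ≠ 0 := by
    rw [hΛ2]
    simpa using hF0
  have hGb : ContinuousAt (fun w => G w b) z := (continuous_apply b).continuousAt.comp hG.continuousAt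
  have h1 : Tendsto (fun w => Λ (F w) • G w b) (𝓝[≠] z) (𝓝 (Λ (F z) • G z b)) := by
    refine Tendsto.mono_left ?_ nhdsWithin_le_nhds
    exact ((Λ.continuous.continuousAt.comp hF.continuousAt).smul hGb).tendsto
  have h2 : Tendsto (fun w => Λ (G w b) • F w) (𝓝[≠] z) (𝓝 (Λ (G z b) • F z)) := by
    refine Tendsto.mono_left ?_ nhdsWithin_le_nhds
    exact ((Λ.continuous.continuousAt.comp hGb).smul hF.continuousAt).tendsto
  have h3 : ∀ᶠ w in 𝓝[≠] z, Λ (F w) • G w b = Λ (G w b) • F w := by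
    filter_upwards [h.filter_mono nhdsWithin_le_nhds, self_mem_nhdsWithin] with w h4 h5
    have h6 : (w - z) ^ k ≠ 0 := pow_ne_zero _ (sub_ne_zero.2 h5)
    have h7 : l b (F w) • F w = (w - z) ^ k • G w b := congrFun h4 b
    have h8 : (w - z) ^ k • (Λ (F w) • G w b) = (w - z) ^ k • (Λ (G w b) • F w) := by
      have h9 : (w - z) ^ k * Λ (G w b) = l b (F w) * Λ (F w) := by
        have h10 := congrArg Λ h7
        rw [map_smul, map_smul, smul_eq_mul, smul_eq_mul] at h10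
        exact h10.symm
      rw [smul_comm, ← h7, smul_smul ((w - z) ^ k), h9, smul_smul, mul_comm]
    exact (smul_right_injective V h6) h8
  have h4 : Λ (F z) • G z b = Λ (G z b) • F z :=
    tendsto_nhds_unique_of_eventuallyEq h1 h2 h3
  have h5 : G z b = ((Λ (F z))⁻¹ * Λ (G z b)) • F z := by
    rw [mul_smul, ← h4, smul_smul, inv_mul_cancel₀ hΛ, one_smul]
  refine Pr.symm ⟨(Λ (F z))⁻¹ * Λ (G z b), ?_, h5⟩
  intro h0
  rw [h0, zero_smul] at h5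
  exact hb h5

/-- The lift of a holomorphic map to the blow-up. -/
theorem exists_lift (hX : Surface X) (hl : Ker l q) (hq0 : q ≠ 0) {r : ℝ} {f : ℂ → V}
    (hf : ∀ z : ℂ, z ≠ 0 → ‖z‖ < r → HolP f z ∧ f z ∈ X)
    (hi : ∀ z₀ : ℂ, z₀ ≠ 0 → ‖z₀‖ < r → ∀ᶠ z in 𝓝[≠] z₀, ¬ Pr (f z) q) :
    ∃ h : ℂ → ι → V, (∀ z : ℂ, z ≠ 0 → ‖z‖ < r → HolP h z ∧ h z ∈ blow l X) ∧
      ∀ z : ℂ, z ≠ 0 → ‖z‖ < r → ∀ b, h z b ≠ 0 → Pr (f z) (h z b) := by
  classical
  have hloc : ∀ z₀ : ℂ, ∃ (F : ℂ → V) (G : ℂ → ι → V) (k : ℕ), z₀ ≠ 0 → ‖z₀‖ < r →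
      AnalyticAt ℂ F z₀ ∧ F z₀ ≠ 0 ∧ (∀ᶠ z in 𝓝 z₀, Pr (f z) (F z)) ∧
      AnalyticAt ℂ G z₀ ∧ (∀ᶠ z in 𝓝 z₀, G z ∈ blow l X) ∧
      ∀ᶠ z in 𝓝 z₀, phi l (F z) = (z - z₀) ^ k • G z := by
    intro z₀
    by_cases h : z₀ ≠ 0 ∧ ‖z₀‖ < r
    · obtain ⟨F, G, k, h1⟩ := TrP_local hX hl hf hi h.1 h.2
      exact ⟨F, G, k, fun _ _ => h1⟩
    · exact ⟨fun _ => 0, fun _ _ => 0, 0, fun h1 h2 => absurd ⟨h1, h2⟩ h⟩
  choose F G k hFG using hloc
  have hf0 : ∀ z : ℂ, z ≠ 0 → ‖z‖ < r → f z ≠ 0 := fun z h1 h2 h3 => hX.zero (h3 ▸ (hf z h1 h2).2)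
  refine ⟨fun z => if ∃ b, l b (f z) ≠ 0 then phi l (f z) else G z z, ?_, ?_⟩
  · intro z₀ hz₀ hz₀r
    obtain ⟨hF, hF0, hfF, hG, hGb, hGe⟩ := hFG z₀ hz₀ hz₀r
    have hA : ∀ᶠ z in 𝓝 z₀, z ≠ 0 ∧ ‖z‖ < r :=
      (eventually_ne_nhds hz₀).and (continuous_norm.continuousAt.eventually_lt_const hz₀r)
    refine ⟨⟨G z₀, hG, hGb.self_of_nhds.2, ?_⟩, ?_⟩
    · have hi' : ∀ᶠ z in 𝓝 z₀, z ≠ z₀ → ¬ Pr (f z) q := by
        have := hi z₀ hz₀ hz₀r
        rwa [eventually_nhdsWithin_iff] at this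
      filter_upwards [hfF, hGe, hi', hA] with z h1 h2 h3 h4
      split_ifs with h5
      · obtain ⟨c, hc, e⟩ := h1
        have h6 : phi l (f z) = (c ^ 2 * (z - z₀) ^ k z₀) • G z₀ z := by
          rw [TrP_phi e, h2, smul_smul]
        refine ⟨_, ?_, h6⟩
        intro h7
        rw [h7, zero_smul] at h6
        exact H62.BU.phi_ne h5 h6
      · push Not at h5
        have h6 : z = z₀ := by
          by_contra h7
          exact h3 h7 ((TrP_forms hl (Pr.refl (f z)) (hf0 z h4.1 h4.2)).2 h5)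
        rw [h6]
        exact Pr.refl _
    · show (if ∃ b, l b (f z₀) ≠ 0 then phi l (f z₀) else G z₀ z₀) ∈ blow l X
      split_ifs with h5
      · exact H62.BU.dense_sub (H62.BU.phi_mem_dense (hf z₀ hz₀ hz₀r).2 h5)
      · exact hGb.self_of_nhds
  · intro z hz hzr b
    obtain ⟨hF, hF0, hfF, hG, hGb, hGe⟩ := hFG z hz hzr
    simp only
    split_ifs with h5
    · intro h6
      have h7 : phi l (f z) b = l b (f z) • f z := rfl
      rw [h7] at h6 ⊢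
      have h8 : l b (f z) ≠ 0 := by
        intro h9
        rw [h9, zero_smul] at h6
        exact h6 rfl
      exact Pr.symm ⟨_, h8, rfl⟩
    · intro h6
      exact (hfF.self_of_nhds).trans (TrP_prop hF hF0 hG hGe h6)

theorem picard_blow (hX : Surface X) (hl : Ker l q) (hBX : B ⊆ X) (hB : ∀ x ∈ B, ∀ c : ℂ, c ≠ 0 → c • x ∈ B)
    (hq : q ∈ B) (hp : Picard (blow l X) (total l X B)) : Picard X B := by
  intro r hr f hf hfB
  have hq0 : q ≠ 0 := fun h => hX.zero (h ▸ hBX hq)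
  have hi := isolated_of_notMem hl hB hq hq0 (fun z h1 h2 => (hf z h1 h2).1) hfB
  obtain ⟨h, h1, h2⟩ := exists_lift hX hl hq0 hf hi
  obtain ⟨z, hz, hzr, hzB⟩ := hfB
  obtain ⟨G, hG, hG0, hGe⟩ := hp r hr h h1 ⟨z, hz, hzr, fun h3 => by
    obtain ⟨b, hb⟩ := H62.BU.exists_ne (h z) h3.1
    obtain ⟨c, hc, e⟩ := h2 z hz hzr b hb
    exact hzB (e ▸ hB _ (h3.2 b hb) c hc)⟩
  obtain ⟨b, hb⟩ : ∃ b, G 0 b ≠ 0 := by
    by_contra h3
    push Not at h3
    exact hG0 (funext h3)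
  have hGb : AnalyticAt ℂ (fun w => G w b) 0 := (analyticAt_pi_iff.1 hG) b
  refine ⟨fun w => G w b, hGb, hb, ?_⟩
  have hlt : ∀ᶠ w in 𝓝 (0 : ℂ), ‖w‖ < r :=
    continuous_norm.continuousAt.eventually_lt_const (by simpa using hr)
  filter_upwards [hGe, self_mem_nhdsWithin, hlt.filter_mono nhdsWithin_le_nhds,
    (hGb.continuousAt.eventually_ne hb).filter_mono nhdsWithin_le_nhds] with w h3 h4 h5 h6
  obtain ⟨c, hc, e⟩ := h3
  have h7 : h w b = c • G w b := by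
    rw [e]
    rfl
  exact (h2 w h4 h5 b (by rw [h7]; exact smul_ne_zero hc h6)).trans ⟨c, hc, h7⟩

end Pool.Agent.H17BP
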