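import Pool.Agent.H17BP.ChartC

/-!
# The exceptional curves in the charts of the blow-up

Let `D₁, D₂` be local coordinates.  `D₁ ∘ bl c = x E₁`, `D₂ ∘ bl c = x E₂` (`exists_div_x`), with
`E_i (0, w) = dx D_i 0 + (c + w) dy D_i 0`, so `E_i 0 = dx D_i 0 + c dy D_i 0` and `dy E_i 0 = dy D_i 0`.  Not both
`E_i 0` vanish and if `E_1 0 = 0` then `dy D_1 0 ≠ 0` (otherwise also `dx D_1 0 = 0`), so `(x, E₁)` are local
coordinates (`coord_iff`: `dx x = 1, dy x = 0`, determinant `dy E₁ 0 ≠ 0`).  So: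
* `E₁ 0 ≠ 0`, `E₂ 0 ≠ 0`: take `D = x.2`, `b' = 0`, `u = E₁ ^ a E₂ ^ b`;
* `E₁ 0 = 0`: `D = E₁`, `b' = a`, `u = E₂ ^ b`;
* `E₂ 0 = 0`: `D = E₂`, `b' = b`, `u = E₁ ^ a`.
For `blInf` use `blInf = swap ∘ bl 0 ∘ swap` and the coordinates `D_i ∘ swap`.
-/

open Topology Filter

noncomputable section

namespace Pool.Agent.H17BP

private theorem DBlow_lin (D : ℂ × ℂ → ℂ) (k : ℂ) :
    fderiv ℂ D 0 (1, k) = dx D 0 + k * dy D 0 := by
  have h1 : ((1, k) : ℂ × ℂ) = (1, 0) + k • ((0, 1) : ℂ × ℂ) := by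
    ext <;> simp
  rw [h1, map_add, map_smul, smul_eq_mul]
  rfl

private theorem DBlow_div {D : ℂ × ℂ → ℂ} (hD : AnalyticAt ℂ D 0) (hD0 : D 0 = 0) (c : ℂ) :
    ∃ E : ℂ × ℂ → ℂ, AnalyticAt ℂ E 0 ∧ (∀ᶠ x in 𝓝 (0 : ℂ × ℂ), D (bl c x) = x.1 * E x) ∧
      E 0 = dx D 0 + c * dy D 0 ∧ dy E 0 = dy D 0 := by
  have hbl0 : ∀ y : ℂ, bl c (0, y) = 0 := by
    intro y
    simp [bl]
  have hf : AnalyticAt ℂ (fun x => D (bl c x)) 0 := by
    have h1 : AnalyticAt ℂ D (bl c 0) := by rw [bl_zero]; exact hD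
    exact h1.comp (analyticAt_bl c 0)
  obtain ⟨E, hE, hfE⟩ := exists_div_x hf (Eventually.of_forall fun y => by
    change D (bl c (0, y)) = 0
    rw [hbl0, hD0])
  have hfE' : ∀ᶠ x in 𝓝 (0 : ℂ × ℂ), D (bl c x) = x.1 * E x := hfE
  have hcur : Tendsto (fun w : ℂ => ((0, w) : ℂ × ℂ)) (𝓝 0) (𝓝 0) := by
    have : Continuous fun w : ℂ => ((0, w) : ℂ × ℂ) := by fun_prop
    exact this.tendsto' 0 0 rfl
  have hline : ∀ᶠ w in 𝓝 (0 : ℂ), E (0, w) = dx D 0 + (c + w) * dy D 0 := by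
    filter_upwards [hcur.eventually hfE'.eventually_nhds, hcur.eventually hE.eventually_analyticAt]
      with w h1 h2
    -- the derivative of `t ↦ D (bl c (t, w))` at `0`
    have hγ : HasDerivAt (fun t : ℂ => bl c (t, w)) (1, c + w) 0 := by
      have h3 : HasDerivAt (fun t : ℂ => t) 1 (0 : ℂ) := hasDerivAt_id 0
      have h4 : HasDerivAt (fun t : ℂ => t * (c + w)) (c + w) (0 : ℂ) := by
        simpa using h3.mul_const (c + w)
      exact h3.prodMk h4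
    have hD1 : HasFDerivAt D (fderiv ℂ D 0) (bl c (0, w)) := by
      rw [hbl0]
      exact hD.differentiableAt.hasFDerivAt
    have h5 : HasDerivAt (fun t : ℂ => D (bl c (t, w))) (fderiv ℂ D 0 (1, c + w)) 0 :=
      hD1.comp_hasDerivAt (0 : ℂ) hγ
    -- the derivative of `t ↦ t * E (t, w)`
    have hδ : HasDerivAt (fun t : ℂ => ((t, w) : ℂ × ℂ)) (1, 0) 0 :=
      (hasDerivAt_id 0).prodMk (hasDerivAt_const (0 : ℂ) w)
    have h6 : HasDerivAt (fun t : ℂ => E (t, w)) (fderiv ℂ E (0, w) (1, 0)) 0 :=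
      (h2.differentiableAt.hasFDerivAt).comp_hasDerivAt (0 : ℂ) hδ
    have h7 : HasDerivAt (fun t : ℂ => t * E (t, w)) (1 * E (0, w) + 0 * fderiv ℂ E (0, w) (1, 0)) 0 :=
      (hasDerivAt_id (0 : ℂ)).mul h6
    have h8 : (fun t : ℂ => t * E (t, w)) =ᶠ[𝓝 0] fun t : ℂ => D (bl c (t, w)) := by
      have h9 : Tendsto (fun t : ℂ => ((t, w) : ℂ × ℂ)) (𝓝 0) (𝓝 (0, w)) := by
        have : Continuous fun t : ℂ => ((t, w) : ℂ × ℂ) := by fun_prop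
        exact this.tendsto' 0 (0, w) rfl
      filter_upwards [h9.eventually h1] with t ht
      exact ht.symm
    have h10 := (h5.congr_of_eventuallyEq h8).unique h7
    rw [DBlow_lin] at h10
    rw [h10]
    ring
  refine ⟨E, hE, hfE', ?_, ?_⟩
  · have h1 : E (0, 0) = dx D 0 + (c + 0) * dy D 0 := hline.self_of_nhds
    rw [add_zero] at h1
    exact h1
  · have hδ : HasDerivAt (fun t : ℂ => ((0, t) : ℂ × ℂ)) (0, 1) 0 :=
      (hasDerivAt_const (0 : ℂ) 0).prodMk (hasDerivAt_id 0)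
    have h1 : HasDerivAt (fun t : ℂ => E (0, t)) (fderiv ℂ E 0 (0, 1)) 0 :=
      (hE.differentiableAt.hasFDerivAt (x := ((0, 0) : ℂ × ℂ))).comp_hasDerivAt (0 : ℂ) hδ
    have h2 : HasDerivAt (fun t : ℂ => dx D 0 + (c + t) * dy D 0) (dy D 0) 0 := by
      have h3 := (((hasDerivAt_id (0 : ℂ)).const_add c).mul_const (dy D 0)).const_add (dx D 0)
      simpa using h3
    have h4 : (fun t : ℂ => dx D 0 + (c + t) * dy D 0) =ᶠ[𝓝 0] fun t : ℂ => E (0, t) :=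
      hline.mono fun t ht => ht.symm
    exact (h1.congr_of_eventuallyEq h4).unique h2

private theorem DBlow_fst : dx (fun x : ℂ × ℂ => x.1) 0 = 1 ∧ dy (fun x : ℂ × ℂ => x.1) 0 = 0 := by
  constructor
  · unfold dx
    rw [show (fun x : ℂ × ℂ => x.1) = Prod.fst from rfl, fderiv_fst]
    rfl
  · unfold dy
    rw [show (fun x : ℂ × ℂ => x.1) = Prod.fst from rfl, fderiv_fst]
    rfl

private theorem DBlow_coord {E : ℂ × ℂ → ℂ} (hE : AnalyticAt ℂ E 0) (h0 : E 0 = 0) (h1 : dy E 0 ≠ 0) :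
    Coord (fun x => x.1) E := by
  rw [coord_iff analyticAt_fst hE rfl h0, DBlow_fst.1, DBlow_fst.2, one_mul, zero_mul, sub_zero]
  exact h1

theorem mono_bl {D₁ D₂ : ℂ × ℂ → ℂ} (h : Coord D₁ D₂) (a b : ℕ) (c : ℂ) :
    ∃ (D : ℂ × ℂ → ℂ) (b' : ℕ) (u : ℂ × ℂ → ℂ), Coord (fun x => x.1) D ∧ AnalyticAt ℂ u 0 ∧ u 0 ≠ 0 ∧
      ∀ᶠ x in 𝓝 (0 : ℂ × ℂ), D₁ (bl c x) ^ a * D₂ (bl c x) ^ b = x.1 ^ (a + b) * D x ^ b' * u x := by
  obtain ⟨hA1, hA2, hz1, hz2⟩ := h.parts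
  have hdet := (coord_iff hA1 hA2 hz1 hz2).1 h
  obtain ⟨E₁, hE1, hf1, hv1, hd1⟩ := DBlow_div hA1 hz1 c
  obtain ⟨E₂, hE2, hf2, hv2, hd2⟩ := DBlow_div hA2 hz2 c
  by_cases h1 : E₁ 0 = 0
  · have hy1 : dy D₁ 0 ≠ 0 := by
      intro h3
      apply hdet
      rw [h1, h3, mul_zero, add_zero] at hv1
      rw [← hv1, h3]
      ring
    have h2 : E₂ 0 ≠ 0 := by
      intro h3
      apply hdet
      rw [h1] at hv1
      rw [h3] at hv2
      linear_combination (-(dy D₂ 0)) * hv1 + dy D₁ 0 * hv2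
    refine ⟨E₁, a, fun x => E₂ x ^ b, DBlow_coord hE1 h1 (by rw [hd1]; exact hy1), hE2.pow b,
      pow_ne_zero _ h2, ?_⟩
    filter_upwards [hf1, hf2] with x hx1 hx2
    rw [hx1, hx2]
    ring
  · by_cases h2 : E₂ 0 = 0
    · have hy2 : dy D₂ 0 ≠ 0 := by
        intro h3
        apply hdet
        rw [h2, h3, mul_zero, add_zero] at hv2
        rw [← hv2, h3]
        ring
      refine ⟨E₂, b, fun x => E₁ x ^ a, DBlow_coord hE2 h2 (by rw [hd2]; exact hy2), hE1.pow a,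
        pow_ne_zero _ h1, ?_⟩
      filter_upwards [hf1, hf2] with x hx1 hx2
      rw [hx1, hx2]
      ring
    · refine ⟨fun x => x.2, 0, fun x => E₁ x ^ a * E₂ x ^ b, coord_fst_snd, (hE1.pow a).mul (hE2.pow b),
        mul_ne_zero (pow_ne_zero _ h1) (pow_ne_zero _ h2), ?_⟩
      filter_upwards [hf1, hf2] with x hx1 hx2
      rw [hx1, hx2]
      ring

private theorem DBlow_swap : Bihol (Prod.swap : ℂ × ℂ → ℂ × ℂ) := by
  have h : AnalyticAt ℂ (Prod.swap : ℂ × ℂ → ℂ × ℂ) 0 := by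
    change AnalyticAt ℂ (fun x : ℂ × ℂ => (x.2, x.1)) 0
    exact analyticAt_snd.prod analyticAt_fst
  exact ⟨h, rfl, Prod.swap, h, rfl, Eventually.of_forall fun x => Prod.swap_swap x,
    Eventually.of_forall fun x => Prod.swap_swap x⟩

theorem mono_blInf {D₁ D₂ : ℂ × ℂ → ℂ} (h : Coord D₁ D₂) (a b : ℕ) :
    ∃ (D : ℂ × ℂ → ℂ) (b' : ℕ) (u : ℂ × ℂ → ℂ), Coord (fun x => x.2) D ∧ AnalyticAt ℂ u 0 ∧ u 0 ≠ 0 ∧
      ∀ᶠ x in 𝓝 (0 : ℂ × ℂ), D₁ (blInf x) ^ a * D₂ (blInf x) ^ b = x.2 ^ (a + b) * D x ^ b' * u x := by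
  have hc : Coord (D₁ ∘ Prod.swap) (D₂ ∘ Prod.swap) := Bihol.comp h DBlow_swap
  obtain ⟨D, b', u, h1, h2, h3, h4⟩ := mono_bl hc a b 0
  refine ⟨D ∘ Prod.swap, b', u ∘ Prod.swap, Bihol.comp h1 DBlow_swap, ?_, h3, ?_⟩
  · have h5 : AnalyticAt ℂ u (Prod.swap (0 : ℂ × ℂ)) := h2
    exact h5.comp DBlow_swap.an
  · filter_upwards [DBlow_swap.tendsto.eventually h4] with x hx
    have h6 : Prod.swap (bl 0 (Prod.swap x)) = blInf x := by
      unfold bl blInf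
      simp [mul_comm]
    simp only [Function.comp_apply, h6] at hx ⊢
    exact hx

end Pool.Agent.H17BP
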