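import Pool.Agent.H17BP.NF

/-!
# The blow-up of a germ in normal form of multiplicity `k + 1`

`c_j x = x^(k+1-j) c'_j x` near `0` (order at least `k+1-j`; `AnalyticAt` order lemmas, `natCast_le_analyticOrderAt`),
`γ_j = c'_j 0`, `U0 = U 0`.
`W (x, x (c0+w)) = ∑_j x^(k+1-j) c'_j(x) x^j (c0+w)^j + x^(k+1) (c0+w)^(k+1) U(x, x(c0+w))
 = x^(k+1) ψ`, `ψ (x, w) = ∑_j c'_j(x) (c0+w)^j + (c0+w)^(k+1) U (x, x (c0+w))`; `ψ (0, w) = ∑ γ_j (c0+w)^j + U0 (c0+w)^(k+1)`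
(here `U (0, 0) = U0`).  For `c0 = 0` and all `γ_j = 0`: `ψ = ∑ c'_j(x) w^j + w^(k+1) U(x, x w)`: `IsNF k c' ψ`.
`W (x y, y) = ∑_j (x y)^(k+1-j) c'_j(x y) y^j + y^(k+1) U(x y, y) = y^(k+1) ψ`,
`ψ = ∑_j x^(k+1-j) c'_j(x y) + U(x y, y)`, `ψ 0 = U0 ≠ 0` since `k + 1 - j ≥ 1`.
-/

open Topology Filter

noncomputable section

namespace Pool.Agent.H17BP

theorem nf_blow {k : ℕ} {c : ℕ → ℂ → ℂ} {W : ℂ × ℂ → ℂ} (h : IsNF k c W)
    (ho : ∀ j < k, ((k + 1 - j : ℕ) : ℕ∞) ≤ analyticOrderAt (c j) 0) :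
    ∃ (γ : ℕ → ℂ) (U₀ : ℂ) (c' : ℕ → ℂ → ℂ), U₀ ≠ 0 ∧
      (∀ j < k, AnalyticAt ℂ (c' j) 0 ∧ c' j 0 = γ j ∧
        ∀ᶠ x in 𝓝 (0 : ℂ), c j x = x ^ (k + 1 - j) * c' j x) ∧
      (∀ c₀ : ℂ, ∃ ψ : ℂ × ℂ → ℂ, AnalyticAt ℂ ψ 0 ∧
        (∀ᶠ x in 𝓝 (0 : ℂ × ℂ), W (bl c₀ x) = x.1 ^ (k + 1) * ψ x) ∧
        (∀ᶠ w in 𝓝 (0 : ℂ), ψ (0, w) =
          ∑ j ∈ Finset.range k, γ j * (c₀ + w) ^ j + U₀ * (c₀ + w) ^ (k + 1)) ∧
        (c₀ = 0 → (∀ j < k, γ j = 0) → IsNF k c' ψ)) ∧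
      ∃ ψ : ℂ × ℂ → ℂ, AnalyticAt ℂ ψ 0 ∧ ψ 0 ≠ 0 ∧
        ∀ᶠ x in 𝓝 (0 : ℂ × ℂ), W (blInf x) = x.2 ^ (k + 1) * ψ x := by
  obtain ⟨hc, U, hU, hU0, hW⟩ := h
  have hex : ∀ j, ∃ g : ℂ → ℂ, j < k → AnalyticAt ℂ g 0 ∧
      ∀ᶠ x in 𝓝 (0 : ℂ), c j x = x ^ (k + 1 - j) * g x := by
    intro j
    by_cases hj : j < k
    · obtain ⟨g, hg, hgx⟩ := (natCast_le_analyticOrderAt (hc j hj).1).1 (ho j hj)
      refine ⟨g, fun _ => ⟨hg, ?_⟩⟩
      filter_upwards [hgx] with x hx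
      rw [hx, sub_zero, smul_eq_mul]
    · exact ⟨0, fun h => absurd h hj⟩
  choose c' hc' using hex
  have hfst : Tendsto (fun x : ℂ × ℂ => x.1) (𝓝 0) (𝓝 0) := continuous_fst.tendsto' _ _ rfl
  have hprod : Tendsto (fun x : ℂ × ℂ => x.1 * x.2) (𝓝 0) (𝓝 0) :=
    (continuous_fst.mul continuous_snd).tendsto' _ _ (by simp)
  have hall : ∀ᶠ x in 𝓝 (0 : ℂ), ∀ j ∈ Finset.range k, c j x = x ^ (k + 1 - j) * c' j x := by
    rw [Filter.eventually_all_finset]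
    intro j hj
    exact (hc' j (Finset.mem_range.1 hj)).2
  have hbl : ∀ c₀ : ℂ, Tendsto (bl c₀) (𝓝 0) (𝓝 0) := by
    intro c₀
    have := (analyticAt_bl c₀ 0).continuousAt.tendsto
    rwa [bl_zero] at this
  have hblInf : Tendsto blInf (𝓝 0) (𝓝 0) := by
    have := (analyticAt_blInf 0).continuousAt.tendsto
    rwa [blInf_zero] at this
  refine ⟨fun j => c' j 0, U 0, c', hU0, ?_, ?_, ?_⟩
  · intro j hj
    exact ⟨(hc' j hj).1, rfl, (hc' j hj).2⟩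
  · intro c₀
    refine ⟨fun x => ∑ j ∈ Finset.range k, c' j x.1 * (c₀ + x.2) ^ j + (c₀ + x.2) ^ (k + 1) * U (bl c₀ x),
      ?_, ?_, ?_, ?_⟩
    · have h1 : AnalyticAt ℂ (fun x : ℂ × ℂ => ∑ j ∈ Finset.range k, c' j x.1 * (c₀ + x.2) ^ j) 0 := by
        refine Finset.analyticAt_fun_sum _ fun j hj => ?_
        have h2 : AnalyticAt ℂ (fun x : ℂ × ℂ => c' j x.1) 0 := by
          have h3 : AnalyticAt ℂ (c' j) ((0 : ℂ × ℂ).1) := (hc' j (Finset.mem_range.1 hj)).1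
          exact AnalyticAt.comp (g := c' j) (f := fun x : ℂ × ℂ => x.1) h3 analyticAt_fst
        exact h2.mul ((analyticAt_const.add analyticAt_snd).pow j)
      have h4 : AnalyticAt ℂ (fun x : ℂ × ℂ => U (bl c₀ x)) 0 := by
        have h5 : AnalyticAt ℂ U (bl c₀ 0) := by rw [bl_zero]; exact hU
        exact AnalyticAt.comp (g := U) (f := bl c₀) h5 (analyticAt_bl c₀ 0)
      exact h1.add (((analyticAt_const.add analyticAt_snd).pow (k + 1)).mul h4)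
    · filter_upwards [(hbl c₀).eventually hW, hfst.eventually hall] with x hx hx'
      rw [hx]
      show ∑ j ∈ Finset.range k, c j x.1 * (x.1 * (c₀ + x.2)) ^ j + (x.1 * (c₀ + x.2)) ^ (k + 1) * U (bl c₀ x) =
        x.1 ^ (k + 1) * (∑ j ∈ Finset.range k, c' j x.1 * (c₀ + x.2) ^ j + (c₀ + x.2) ^ (k + 1) * U (bl c₀ x))
      rw [mul_add (x.1 ^ (k + 1)), Finset.mul_sum]
      congr 1
      · refine Finset.sum_congr rfl fun j hj => ?_
        have hj' := Finset.mem_range.1 hj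
        rw [hx' j hj, mul_pow]
        have h6 : x.1 ^ (k + 1) = x.1 ^ (k + 1 - j) * x.1 ^ j := by
          rw [← pow_add]
          congr 1
          omega
        rw [h6]
        ring
      · rw [mul_pow]
        ring
    · refine Eventually.of_forall fun w => ?_
      have h7 : bl c₀ ((0 : ℂ), w) = 0 := by
        simp [bl]
      show ∑ j ∈ Finset.range k, c' j 0 * (c₀ + w) ^ j + (c₀ + w) ^ (k + 1) * U (bl c₀ (0, w)) = _
      rw [h7]
      ring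
    · rintro rfl hγ
      refine ⟨fun j hj => ⟨(hc' j hj).1, hγ j hj⟩, fun x => U (bl 0 x), ?_, ?_, ?_⟩
      · have h5 : AnalyticAt ℂ U (bl 0 0) := by rw [bl_zero]; exact hU
        exact AnalyticAt.comp (g := U) (f := bl 0) h5 (analyticAt_bl 0 0)
      · show U (bl 0 0) ≠ 0
        rw [bl_zero]
        exact hU0
      · refine Eventually.of_forall fun x => ?_
        show ∑ j ∈ Finset.range k, c' j x.1 * (0 + x.2) ^ j + (0 + x.2) ^ (k + 1) * U (bl 0 x) = _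
        rw [zero_add]
  · refine ⟨fun x => ∑ j ∈ Finset.range k, x.1 ^ (k + 1 - j) * c' j (x.1 * x.2) + U (blInf x), ?_, ?_, ?_⟩
    · have h1 : AnalyticAt ℂ (fun x : ℂ × ℂ => ∑ j ∈ Finset.range k, x.1 ^ (k + 1 - j) * c' j (x.1 * x.2)) 0 := by
        refine Finset.analyticAt_fun_sum _ fun j hj => ?_
        have h2 : AnalyticAt ℂ (fun x : ℂ × ℂ => c' j (x.1 * x.2)) 0 := by
          have h3 : AnalyticAt ℂ (c' j) ((fun x : ℂ × ℂ => x.1 * x.2) 0) := by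
            have h4 : (fun x : ℂ × ℂ => x.1 * x.2) 0 = 0 := by simp
            rw [h4]
            exact (hc' j (Finset.mem_range.1 hj)).1
          exact AnalyticAt.comp (g := c' j) (f := fun x : ℂ × ℂ => x.1 * x.2) h3
            (analyticAt_fst.mul analyticAt_snd)
        exact (analyticAt_fst.pow _).mul h2
      have h4 : AnalyticAt ℂ (fun x : ℂ × ℂ => U (blInf x)) 0 := by
        have h5 : AnalyticAt ℂ U (blInf 0) := by rw [blInf_zero]; exact hU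
        exact AnalyticAt.comp (g := U) (f := blInf) h5 (analyticAt_blInf 0)
      exact h1.add h4
    · show ∑ j ∈ Finset.range k, (0 : ℂ) ^ (k + 1 - j) * c' j ((0 : ℂ) * (0 : ℂ)) + U (blInf 0) ≠ 0
      rw [blInf_zero, Finset.sum_eq_zero, zero_add]
      · exact hU0
      · intro j hj
        have hj' := Finset.mem_range.1 hj
        rw [zero_pow (by omega), zero_mul]
    · filter_upwards [hblInf.eventually hW, hprod.eventually hall] with x hx hx'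
      rw [hx]
      show ∑ j ∈ Finset.range k, c j (x.1 * x.2) * x.2 ^ j + x.2 ^ (k + 1) * U (blInf x) =
        x.2 ^ (k + 1) * (∑ j ∈ Finset.range k, x.1 ^ (k + 1 - j) * c' j (x.1 * x.2) + U (blInf x))
      rw [mul_add, Finset.mul_sum]
      congr 1
      refine Finset.sum_congr rfl fun j hj => ?_
      have hj' := Finset.mem_range.1 hj
      rw [hx' j hj, mul_pow]
      have h6 : x.2 ^ (k + 1) = x.2 ^ (k + 1 - j) * x.2 ^ j := by
        rw [← pow_add]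
        congr 1
        omega
      rw [h6]
      ring

end Pool.Agent.H17BP
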