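import Mathlib

/-!
# Polynomials without the second coefficient

`P = ∑_{j < k} γ_j X^j + U₀ X^(k+1)`, `U₀ ≠ 0`: no term `X^k`.
`order_root`: if `w ↦ P(c₀ + w)` had order `≥ k + 1` at `0`, all derivatives of `P` of order `≤ k` would vanish at
`c₀`, so `P = U₀ (X - c₀)^(k+1)` (degree `k+1`); its coefficient of `X^k` is `- (k+1) U₀ c₀ = 0`, so `c₀ = 0` and
`P = U₀ X^(k+1)`, `γ = 0`, a contradiction.  (Use `Polynomial.taylor c₀ P`: `P(c₀ + w) = ∑ (taylor c₀ P).coeff i w^i`,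
order `≥ k+1` gives `(taylor c₀ P).coeff i = 0` for `i ≤ k`.)
-/

open Topology Filter

noncomputable section

namespace Pool.Agent.H17BP

open Polynomial in
private def RootP_poly (k : ℕ) (γ : ℕ → ℂ) (U₀ : ℂ) : ℂ[X] :=
  ∑ j ∈ Finset.range k, C (γ j) * X ^ j + C U₀ * X ^ (k + 1)

private theorem RootP_eval (k : ℕ) (γ : ℕ → ℂ) (U₀ x : ℂ) :
    (RootP_poly k γ U₀).eval x = ∑ j ∈ Finset.range k, γ j * x ^ j + U₀ * x ^ (k + 1) := by
  simp [RootP_poly, Polynomial.eval_finsetSum]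

private theorem RootP_coeff_lt {k : ℕ} (γ : ℕ → ℂ) (U₀ : ℂ) {j : ℕ} (hj : j < k) :
    (RootP_poly k γ U₀).coeff j = γ j := by
  simp only [RootP_poly, Polynomial.coeff_add, Polynomial.finsetSum_coeff, Polynomial.coeff_C_mul, Polynomial.coeff_X_pow]
  rw [Finset.sum_eq_single j]
  · have : j ≠ k + 1 := by omega
    simp [this]
  · intro b _ hb
    simp [hb.symm]
  · intro h
    exact absurd (Finset.mem_range.2 hj) h

private theorem RootP_coeff_ge {k : ℕ} (γ : ℕ → ℂ) (U₀ : ℂ) {j : ℕ} (hj : k ≤ j) :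
    (RootP_poly k γ U₀).coeff j = if j = k + 1 then U₀ else 0 := by
  simp only [RootP_poly, Polynomial.coeff_add, Polynomial.finsetSum_coeff, Polynomial.coeff_C_mul, Polynomial.coeff_X_pow]
  rw [Finset.sum_eq_zero]
  · simp
  · intro b hb
    have : j ≠ b := by
      have := Finset.mem_range.1 hb
      omega
    simp [this]

private theorem RootP_ne {k : ℕ} {γ : ℕ → ℂ} {U₀ : ℂ} (hU : U₀ ≠ 0) : RootP_poly k γ U₀ ≠ 0 := by
  intro h
  have h1 := RootP_coeff_ge γ U₀ (j := k + 1) (k := k) (by omega)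
  rw [h] at h1
  simp at h1
  exact hU h1.symm

private theorem RootP_natDegree (k : ℕ) (γ : ℕ → ℂ) (U₀ : ℂ) : (RootP_poly k γ U₀).natDegree ≤ k + 1 := by
  rw [Polynomial.natDegree_le_iff_coeff_eq_zero]
  intro j hj
  rw [RootP_coeff_ge γ U₀ (by omega)]
  have : j ≠ k + 1 := by omega
  simp [this]

private theorem RootP_cXC (r : ℂ) (n k : ℕ) :
    ((Polynomial.X - Polynomial.C r : Polynomial ℂ) ^ n).coeff k = (-r) ^ (n - k) * (n.choose k : ℂ) := by
  rw [sub_eq_add_neg, ← Polynomial.C_neg, Polynomial.coeff_X_add_C_pow]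

private theorem RootP_mult {k : ℕ} {γ : ℕ → ℂ} {U₀ : ℂ} (hU : U₀ ≠ 0) (hγ : ∃ j < k, γ j ≠ 0) (c₀ : ℂ) :
    (RootP_poly k γ U₀).rootMultiplicity c₀ ≤ k := by
  by_contra hlt
  push Not at hlt
  have h1 : (Polynomial.X - Polynomial.C c₀) ^ (k + 1) ∣ RootP_poly k γ U₀ :=
    (Polynomial.le_rootMultiplicity_iff (RootP_ne hU)).1 hlt
  obtain ⟨R, hR⟩ := h1
  have hm : ((Polynomial.X - Polynomial.C c₀ : Polynomial ℂ) ^ (k + 1)).Monic := (Polynomial.monic_X_sub_C c₀).pow _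
  have hR0 : R ≠ 0 := by
    rintro rfl
    rw [mul_zero] at hR
    exact RootP_ne hU hR
  have hd : (RootP_poly k γ U₀).natDegree = (k + 1) + R.natDegree := by
    rw [hR, hm.natDegree_mul' hR0, Polynomial.natDegree_pow, Polynomial.natDegree_X_sub_C, mul_one]
  have hd' := RootP_natDegree k γ U₀
  have hRd : R.natDegree = 0 := by omega
  have hRC : R = Polynomial.C (R.coeff 0) := Polynomial.eq_C_of_natDegree_eq_zero hRd
  have hr0 : R.coeff 0 ≠ 0 := by
    intro h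
    rw [h, Polynomial.C_0] at hRC
    exact hR0 hRC
  rw [hRC] at hR
  have hk := RootP_coeff_ge γ U₀ (le_refl k)
  have hkk : k ≠ k + 1 := by omega
  rw [hR, Polynomial.coeff_mul_C, RootP_cXC, if_neg hkk] at hk
  have hc : c₀ = 0 := by
    have e1 : k + 1 - k = 1 := by omega
    rw [e1, pow_one, Nat.choose_succ_self_right] at hk
    have h5 : ((k + 1 : ℕ) : ℂ) ≠ 0 := by exact_mod_cast Nat.succ_ne_zero k
    have h6 : -c₀ * ((k + 1 : ℕ) : ℂ) = 0 := by
      rcases mul_eq_zero.1 hk with h | h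
      · exact h
      · exact absurd h hr0
    rcases mul_eq_zero.1 h6 with h | h
    · exact neg_eq_zero.1 h
    · exact absurd h h5
  obtain ⟨j, hj, hγj⟩ := hγ
  have h7 := RootP_coeff_lt γ U₀ hj
  rw [hR, Polynomial.coeff_mul_C, hc, Polynomial.C_0, sub_zero, Polynomial.coeff_X_pow] at h7
  have hjk : j ≠ k + 1 := by omega
  rw [if_neg hjk, zero_mul] at h7
  exact hγj h7.symm

theorem order_root {k : ℕ} {γ : ℕ → ℂ} {U₀ : ℂ} (hU : U₀ ≠ 0) (hγ : ∃ j < k, γ j ≠ 0) (c₀ : ℂ) :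
    analyticOrderAt (fun w : ℂ => ∑ j ∈ Finset.range k, γ j * (c₀ + w) ^ j + U₀ * (c₀ + w) ^ (k + 1)) 0 ≤
      (k : ℕ∞) := by
  set P := RootP_poly k γ U₀ with hP
  obtain ⟨R, hR1, hR2⟩ := Polynomial.exists_eq_pow_rootMultiplicity_mul_and_not_dvd P (RootP_ne hU) c₀
  have hR0 : R.eval c₀ ≠ 0 := by
    intro h
    exact hR2 (Polynomial.dvd_iff_isRoot.2 h)
  have hf : (fun w : ℂ => ∑ j ∈ Finset.range k, γ j * (c₀ + w) ^ j + U₀ * (c₀ + w) ^ (k + 1)) =
      fun w : ℂ => P.eval (c₀ + w) := by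
    funext w
    rw [hP, RootP_eval]
  rw [hf]
  have han : AnalyticAt ℂ (fun w : ℂ => P.eval (c₀ + w)) 0 := by
    have h1 : Differentiable ℂ (fun w : ℂ => P.eval (c₀ + w)) := by
      intro w
      exact (P.differentiable (c₀ + w)).comp w ((differentiableAt_const c₀).add differentiableAt_id)
    exact h1.analyticAt 0
  have hRan : AnalyticAt ℂ (fun w : ℂ => R.eval (c₀ + w)) 0 := by
    have h1 : Differentiable ℂ (fun w : ℂ => R.eval (c₀ + w)) := by
      intro w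
      exact (R.differentiable (c₀ + w)).comp w ((differentiableAt_const c₀).add differentiableAt_id)
    exact h1.analyticAt 0
  have hord : analyticOrderAt (fun w : ℂ => P.eval (c₀ + w)) 0 = (P.rootMultiplicity c₀ : ℕ) := by
    rw [han.analyticOrderAt_eq_natCast]
    refine ⟨fun w => R.eval (c₀ + w), hRan, ?_, ?_⟩
    · simpa using hR0
    · refine Eventually.of_forall fun w => ?_
      show P.eval (c₀ + w) = (w - 0) ^ P.rootMultiplicity c₀ • R.eval (c₀ + w)
      conv_lhs => rw [hR1]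
      simp
  rw [hord]
  exact_mod_cast RootP_mult hU hγ c₀

theorem finite_roots {k : ℕ} {γ : ℕ → ℂ} {U₀ : ℂ} (hU : U₀ ≠ 0) :
    {c₀ : ℂ | ∑ j ∈ Finset.range k, γ j * c₀ ^ j + U₀ * c₀ ^ (k + 1) = 0}.Finite := by
  refine (Polynomial.finite_setOfPred_isRoot (RootP_ne (k := k) (γ := γ) hU)).subset ?_
  intro c₀ hc
  show (RootP_poly k γ U₀).eval c₀ = 0
  rw [RootP_eval]
  exact hc

end Pool.Agent.H17BP
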