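import Pool.Agent.H17BP.PowF
import Pool.Agent.H17BP.DBlow
import Pool.Agent.H17BP.NFBlow
import Pool.Agent.H17BP.RootP
import Pool.Agent.H17BP.SliceF

/-!
# Resolution of the singularities of a plane curve germ: the inner induction

`claim_inner`, strong induction on `K`.  `g = D₁^a D₂^b (W u)`.
1. Some `j < k` has `analyticOrderAt (c j) 0 < k + 1 - j`: `exists_slice` gives `SliceLE k W` (`v = (1, v)`), hence
   `SliceLE k (W u)` (the slice of the unit `u` has order `0`; `analyticOrderAt_mul`), and `hk` finishes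
   (`W u` is analytic at `0`: it agrees near `0` with `(∑ …) u`; note `W` itself is only eventually equal to an analytic
   function, which suffices).
2. Otherwise `nf_blow` applies.  `S = {c₀ | P c₀ = 0}`, `P c₀ = ∑ γ_j c₀^j + U₀ c₀^(k+1)`, is finite
   (`finite_roots`); use `uniform`.  For every `c₀`: near `0`, with `mono_bl`,
   `g (bl c₀ x) = x^(a+b) D^b' e ⬝ x^(k+1) ψ u'` (`u' = u ∘ bl c₀`), that is
   `x^(a+b+k+1) D^b' (ψ u' e)`, with `(x, D)` local coordinates and `e, u'` units.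
   * `c₀ ∉ S`: `ψ 0 = P c₀ ≠ 0`: `Mono`.
   * `c₀ ∈ S`, some `γ_j ≠ 0` (`j < k`): by `order_root` the slice of `ψ` along `(0, 1)` has order `≤ k`: `hk` for
     `ψ u' e` and the coordinates `(x, D)`.
   * `c₀ ∈ S`, all `γ_j = 0`: then `U₀ c₀^(k+1) = 0`, so `c₀ = 0`, and `IsNF k c' ψ`; for the given `j` with
     `analyticOrderAt (c j) 0 = K`: `K = (k+1-j) + ord (c' j)`, so `ord (c' j) = K' < K`: induction hypothesis with
     `W := ψ`, the unit `u' e` and the coordinates `(x, D)`.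
   * the chart `blInf`: `mono_blInf`, `g (blInf x) = y^(a+b+k+1) D^b' (ψ u' e)` with `ψ 0 ≠ 0`: `Mono` (coordinates
     `(y, D)`).
-/

open Topology Filter

noncomputable section

namespace Pool.Agent.H17BP

/-- The order of some slice is at most `m`. -/
def SliceLE (m : ℕ) (φ : ℂ × ℂ → ℂ) : Prop :=
  ∃ v : ℂ × ℂ, analyticOrderAt (fun z : ℂ => φ (z * v.1, z * v.2)) 0 ≤ (m : ℕ∞)

/-- The induction hypothesis of the resolution theorem. -/
def Claim (m : ℕ) : Prop :=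
  ∀ φ : ℂ × ℂ → ℂ, AnalyticAt ℂ φ 0 → SliceLE m φ → ∀ D₁ D₂, Coord D₁ D₂ → ∀ a b : ℕ,
    ∃ N, ResN N (fun x => D₁ x ^ a * D₂ x ^ b * φ x)

/-- slices are analytic -/
theorem ArtA_slice_an {φ : ℂ × ℂ → ℂ} (hφ : AnalyticAt ℂ φ 0) (v : ℂ × ℂ) :
    AnalyticAt ℂ (fun z : ℂ => φ (z * v.1, z * v.2)) 0 := by
  have h1 : AnalyticAt ℂ (fun z : ℂ => (z * v.1, z * v.2)) 0 :=
    (analyticAt_id.mul analyticAt_const).prod (analyticAt_id.mul analyticAt_const)
  have h2 : AnalyticAt ℂ φ ((fun z : ℂ => (z * v.1, z * v.2)) 0) := by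
    have h3 : (fun z : ℂ => (z * v.1, z * v.2)) 0 = 0 := by simp
    rw [h3]
    exact hφ
  exact AnalyticAt.comp (g := φ) (f := fun z : ℂ => (z * v.1, z * v.2)) h2 h1

/-- a unit does not change the order of a slice -/
theorem ArtA_slice_mul {φ u : ℂ × ℂ → ℂ} (hφ : AnalyticAt ℂ φ 0) (hu : AnalyticAt ℂ u 0) (hu0 : u 0 ≠ 0)
    {m : ℕ} (h : SliceLE m φ) : SliceLE m (fun x => φ x * u x) := by
  obtain ⟨v, hv⟩ := h
  refine ⟨v, ?_⟩
  have h1 := ArtA_slice_an hφ v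
  have h2 := ArtA_slice_an hu v
  have h3 : analyticOrderAt (fun z : ℂ => u (z * v.1, z * v.2)) 0 = 0 := by
    rw [h2.analyticOrderAt_eq_zero]
    have h5 : ((0 : ℂ) * v.1, (0 : ℂ) * v.2) = 0 := by simp
    rw [h5]
    exact hu0
  have h4 : (fun z : ℂ => (fun x => φ x * u x) (z * v.1, z * v.2)) =
      (fun z : ℂ => φ (z * v.1, z * v.2)) * fun z : ℂ => u (z * v.1, z * v.2) := rfl
  rw [h4, analyticOrderAt_mul h1 h2, h3, add_zero]
  exact hv

/-- functions in normal form are analytic -/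
theorem ArtA_nf_an {k : ℕ} {c : ℕ → ℂ → ℂ} {W : ℂ × ℂ → ℂ} (h : IsNF k c W) : AnalyticAt ℂ W 0 := by
  obtain ⟨h1, U, hU, -, h2⟩ := h
  have h3 : AnalyticAt ℂ (fun x : ℂ × ℂ => ∑ j ∈ Finset.range k, c j x.1 * x.2 ^ j + x.2 ^ (k + 1) * U x) 0 := by
    refine AnalyticAt.add ?_ ((analyticAt_snd.pow _).mul hU)
    refine Finset.analyticAt_fun_sum _ fun j hj => ?_
    have h4 : AnalyticAt ℂ (c j) ((fun x : ℂ × ℂ => x.1) 0) := (h1 j (Finset.mem_range.1 hj)).1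
    exact (AnalyticAt.comp (g := c j) (f := fun x : ℂ × ℂ => x.1) h4 analyticAt_fst).mul (analyticAt_snd.pow _)
  exact h3.congr (h2.mono fun x hx => hx.symm)

/-- composition of a unit with a chart -/
theorem ArtA_comp_an {u : ℂ × ℂ → ℂ} {β : ℂ × ℂ → ℂ × ℂ} (hu : AnalyticAt ℂ u 0) (hβ : AnalyticAt ℂ β 0)
    (h0 : β 0 = 0) : AnalyticAt ℂ (fun x => u (β x)) 0 := by
  have h1 : AnalyticAt ℂ u (β 0) := by
    rw [h0]
    exact hu
  exact AnalyticAt.comp (g := u) (f := β) h1 hβ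

/-- the order of `x ^ n * f` -/
theorem ArtA_order {f g : ℂ → ℂ} {n K : ℕ} (hg : AnalyticAt ℂ g 0) (h : ∀ᶠ x in 𝓝 (0 : ℂ), f x = x ^ n * g x)
    (hK : analyticOrderAt f 0 = (K : ℕ∞)) : n ≤ K ∧ analyticOrderAt g 0 = ((K - n : ℕ) : ℕ∞) := by
  have h1 : analyticOrderAt f 0 = analyticOrderAt ((fun x : ℂ => x ^ n) * g) 0 := analyticOrderAt_congr h
  have h2 : AnalyticAt ℂ (fun x : ℂ => x ^ n) 0 := analyticAt_id.pow n
  have h3 : analyticOrderAt (fun x : ℂ => x ^ n) 0 = (n : ℕ∞) := by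
    rw [h2.analyticOrderAt_eq_natCast]
    refine ⟨fun _ => 1, analyticAt_const, one_ne_zero, ?_⟩
    filter_upwards with z
    simp
  rw [h1, analyticOrderAt_mul h2 hg, h3] at hK
  have h4 : analyticOrderAt g 0 ≠ ⊤ := by
    intro h5
    rw [h5, add_top] at hK
    exact ENat.top_ne_natCast K hK
  obtain ⟨L, hL⟩ := ENat.ne_top_iff_exists.1 h4
  rw [← hL] at hK ⊢
  have h6 : n + L = K := by exact_mod_cast hK
  refine ⟨by omega, ?_⟩
  have h7 : L = K - n := by omega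
  rw [h7]

theorem claim_inner {k : ℕ} (hk : Claim k) (K : ℕ) : ∀ {c : ℕ → ℂ → ℂ} {W : ℂ × ℂ → ℂ}, IsNF k c W →
    (∃ j < k, analyticOrderAt (c j) 0 = (K : ℕ∞)) → ∀ {D₁ D₂ : ℂ × ℂ → ℂ}, Coord D₁ D₂ → ∀ (a b : ℕ)
    {u : ℂ × ℂ → ℂ}, AnalyticAt ℂ u 0 → u 0 ≠ 0 →
    ∃ N, ResN N (fun x => D₁ x ^ a * D₂ x ^ b * (W x * u x)) := by
  induction K using Nat.strong_induction_on with
  | _ K ih =>
  intro c W hW hj D₁ D₂ hD a b u hu hu0
  have hWan := ArtA_nf_an hW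
  by_cases hs : ∃ j < k, analyticOrderAt (c j) 0 < ((k + 1 - j : ℕ) : ℕ∞)
  · obtain ⟨v, hv⟩ := exists_slice hW hs
    have h1 : SliceLE k W := by
      refine ⟨(1, v), ?_⟩
      simpa using hv
    exact hk _ (hWan.mul hu) (ArtA_slice_mul hWan hu hu0 h1) D₁ D₂ hD a b
  · push Not at hs
    obtain ⟨γ, U₀, c', hU₀, hc', hψ, ψ', hψ', hψ'0, hψ'e⟩ := nf_blow hW hs
    have hpart : ∀ c₀ : ℂ, ∃ (D : ℂ × ℂ → ℂ) (b' : ℕ) (e ψ : ℂ × ℂ → ℂ), Coord (fun x => x.1) D ∧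
        AnalyticAt ℂ e 0 ∧ e 0 ≠ 0 ∧ AnalyticAt ℂ ψ 0 ∧
        (∀ᶠ x in 𝓝 (0 : ℂ × ℂ), D₁ (bl c₀ x) ^ a * D₂ (bl c₀ x) ^ b * (W (bl c₀ x) * u (bl c₀ x)) =
          x.1 ^ (a + b + (k + 1)) * D x ^ b' * (ψ x * e x)) ∧
        (∀ᶠ w in 𝓝 (0 : ℂ), ψ (0, w) =
          ∑ j ∈ Finset.range k, γ j * (c₀ + w) ^ j + U₀ * (c₀ + w) ^ (k + 1)) ∧
        (c₀ = 0 → (∀ j < k, γ j = 0) → IsNF k c' ψ) := by
      intro c₀
      obtain ⟨D, b', e, hDc, he, he0, hee⟩ := mono_bl hD a b c₀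
      obtain ⟨ψ, hψa, hψe, hψw, hψn⟩ := hψ c₀
      have hu' := ArtA_comp_an hu (analyticAt_bl c₀ 0) (bl_zero c₀)
      refine ⟨D, b', fun x => u (bl c₀ x) * e x, ψ, hDc, hu'.mul he, ?_, hψa, ?_, hψw, hψn⟩
      · simp only [bl_zero]
        exact mul_ne_zero hu0 he0
      · filter_upwards [hee, hψe] with x h1 h2
        rw [h1, h2, pow_add x.1 (a + b) (k + 1)]
        ring
    have hval : ∀ (c₀ : ℂ) (ψ : ℂ × ℂ → ℂ), (∀ᶠ w in 𝓝 (0 : ℂ), ψ (0, w) =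
        ∑ j ∈ Finset.range k, γ j * (c₀ + w) ^ j + U₀ * (c₀ + w) ^ (k + 1)) →
        ψ 0 = ∑ j ∈ Finset.range k, γ j * c₀ ^ j + U₀ * c₀ ^ (k + 1) := by
      intro c₀ ψ h
      have h1 := h.self_of_nhds
      simp only [add_zero] at h1
      exact h1
    refine uniform (S := {c₀ : ℂ | ∑ j ∈ Finset.range k, γ j * c₀ ^ j + U₀ * c₀ ^ (k + 1) = 0})
      (finite_roots hU₀) ?_ ?_ ?_
    · intro c₀ hc₀
      obtain ⟨D, b', e, ψ, hDc, he, he0, hψa, hψe, hψw, -⟩ := hpart c₀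
      refine ⟨fun x => x.1, D, a + b + (k + 1), b', fun x => ψ x * e x, hDc, hψa.mul he, ?_, hψe⟩
      refine mul_ne_zero ?_ he0
      rw [hval c₀ ψ hψw]
      exact hc₀
    · intro c₀ hc₀
      obtain ⟨D, b', e, ψ, hDc, he, he0, hψa, hψe, hψw, hψn⟩ := hpart c₀
      by_cases hγ : ∃ j < k, γ j ≠ 0
      · have h1 : SliceLE k ψ := by
          refine ⟨(0, 1), ?_⟩
          have h2 := order_root hU₀ hγ c₀
          have h3 : analyticOrderAt (fun z : ℂ => ψ (z * (0, (1 : ℂ)).1, z * ((0 : ℂ), (1 : ℂ)).2)) 0 =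
              analyticOrderAt (fun w : ℂ => ∑ j ∈ Finset.range k, γ j * (c₀ + w) ^ j +
                U₀ * (c₀ + w) ^ (k + 1)) 0 := by
            refine analyticOrderAt_congr ?_
            filter_upwards [hψw] with w hw
            simpa using hw
          exact h3.trans_le h2
        obtain ⟨N, hN⟩ := hk _ (hψa.mul he) (ArtA_slice_mul hψa he he0 h1) _ _ hDc (a + b + (k + 1)) b'
        exact ⟨N, hN.congr hψe⟩
      · push Not at hγ
        have hz : c₀ = 0 := by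
          have h1 : ∑ j ∈ Finset.range k, γ j * c₀ ^ j + U₀ * c₀ ^ (k + 1) = 0 := hc₀
          rw [Finset.sum_eq_zero (fun j hj => by rw [hγ j (Finset.mem_range.1 hj), zero_mul]), zero_add] at h1
          rcases mul_eq_zero.1 h1 with h2 | h2
          · exact absurd h2 hU₀
          · exact eq_zero_of_pow_eq_zero h2
        have hn := hψn hz hγ
        obtain ⟨j, hjk, hjK⟩ := hj
        obtain ⟨hc1, hc2, hc3⟩ := hc' j hjk
        obtain ⟨h4, h5⟩ := ArtA_order hc1 hc3 hjK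
        obtain ⟨N, hN⟩ := ih (K - (k + 1 - j)) (by omega) hn ⟨j, hjk, h5⟩ hDc (a + b + (k + 1)) b' he he0
        exact ⟨N, hN.congr hψe⟩
    · obtain ⟨D, b', e, hDc, he, he0, hee⟩ := mono_blInf hD a b
      have hu' := ArtA_comp_an hu (analyticAt_blInf 0) blInf_zero
      refine ⟨0, ResN.of_mono ⟨fun x => x.2, D, a + b + (k + 1), b', fun x => ψ' x * (u (blInf x) * e x), hDc,
        hψ'.mul (hu'.mul he), ?_, ?_⟩ 0⟩
      · refine mul_ne_zero hψ'0 (mul_ne_zero ?_ he0)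
        simp only [blInf_zero]
        exact hu0
      · filter_upwards [hee, hψ'e] with x h1 h2
        simp only [Function.comp_apply]
        rw [h1, h2, pow_add x.2 (a + b) (k + 1)]
        ring

end Pool.Agent.H17BP
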