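import Pool.Agent.H17R.Defs

/-!
# Several hypersurfaces and their union
-/

open Topology Filter MvPolynomial

noncomputable section

namespace Pool.Agent.H17BP

open Pool.Agent.H17 (PN VanishesAt)
open Pool.Agent.H23.Fano (PrimeDivisorOver)
open Pool.Agent.H17R (openVar)
open Pool.Agent.H17LG.Variety (FunField OnBoundary IsLogGeneralType ratio)

variable {N : ℕ} {P : Ideal (MvPolynomial (Fin (N + 1)) ℂ)} {b : ℕ} {H : Fin b → MvPolynomial (Fin (N + 1)) ℂ}

theorem openVar_prod : openVar P H = openVar P fun _ : Fin 1 => ∏ m, H m := by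
  ext x
  have h1 : VanishesAt (∏ m, H m) x ↔ ∃ m, VanishesAt (H m) x := by
    unfold VanishesAt
    rw [map_prod, Finset.prod_eq_zero_iff]
    simp
  constructor
  · rintro ⟨h2, h3⟩
    refine ⟨h2, fun _ h4 => ?_⟩
    obtain ⟨m, h5⟩ := h1.1 h4
    exact h3 m h5
  · rintro ⟨h2, h3⟩
    exact ⟨h2, fun m h4 => h3 0 (h1.2 ⟨m, h4⟩)⟩

theorem val_prod {K ι : Type} [Field K] (v : AddValuation K (WithTop ℤ)) (s : Finset ι) (f : ι → K) :
    v (∏ i ∈ s, f i) = ∑ i ∈ s, v (f i) := by
  classical
  induction s using Finset.induction_on with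
  | empty => simp
  | insert a s ha ih => rw [Finset.prod_insert ha, Finset.sum_insert ha, v.map_mul, ih]

theorem val_aeval_nonneg {K : Type} [Field K] [Algebra ℂ K] {s : ℕ} (v : AddValuation K (WithTop ℤ))
    (hc : ∀ c : ℂ, 0 ≤ v (algebraMap ℂ K c)) {x : Fin s → K} (hx : ∀ i, 0 ≤ v (x i)) (p : MvPolynomial (Fin s) ℂ) :
    0 ≤ v (aeval x p) := by
  induction p using MvPolynomial.induction_on with
  | C a =>
    rw [aeval_C]
    exact hc a
  | add p q hp hq =>
    rw [map_add]
    exact v.map_le_add hp hq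
  | mul_X p i hp =>
    rw [map_mul, aeval_X, v.map_mul]
    exact add_nonneg hp (hx i)

theorem onBoundary_prod [P.IsPrime] {k : ℕ} (E : PrimeDivisorOver (FunField P) k) :
    OnBoundary P (fun _ : Fin 1 => ∏ m, H m) E ↔ OnBoundary P H E := by
  have key : ∀ j, (∀ i, 0 ≤ E.ord (ratio P i j)) → (0 < E.ord (aeval (fun i => ratio P i j) (∏ m, H m)) ↔
      ∃ m, 0 < E.ord (aeval (fun i => ratio P i j) (H m))) := by
    intro j hj
    have h0 : ∀ m, 0 ≤ E.ord (aeval (fun i => ratio P i j) (H m)) := fun m =>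
      val_aeval_nonneg E.ord E.ord_const hj (H m)
    rw [map_prod, val_prod]
    constructor
    · intro h
      by_contra hcon
      push Not at hcon
      have h1 : ∀ m ∈ Finset.univ, E.ord (aeval (fun i => ratio P i j) (H m)) = 0 := fun m _ =>
        le_antisymm (hcon m) (h0 m)
      rw [Finset.sum_eq_zero h1] at h
      exact lt_irrefl _ h
    · rintro ⟨m, hm⟩
      exact hm.trans_le (Finset.single_le_sum (f := fun m => E.ord (aeval (fun i => ratio P i j) (H m)))
        (fun i _ => h0 i) (Finset.mem_univ m))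
  constructor
  · rintro ⟨j, h1, h2, m, h3⟩
    exact ⟨j, h1, h2, (key j h2).1 h3⟩
  · rintro ⟨j, h1, h2, h3⟩
    exact ⟨j, h1, h2, 0, (key j h2).2 h3⟩

theorem isLogGeneralType_prod [P.IsPrime] {k : ℕ} (h : IsLogGeneralType (OnBoundary P H (k := k))) :
    IsLogGeneralType (OnBoundary P (fun _ : Fin 1 => ∏ m, H m) (k := k)) := by
  have h1 : OnBoundary P (fun _ : Fin 1 => ∏ m, H m) (k := k) = OnBoundary P H (k := k) := by
    funext E
    exact propext (onBoundary_prod E)
  rw [h1]
  exact h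

end Pool.Agent.H17BP
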