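import Mathlib

/-!
# Germs of analytic functions in two variables: definitions for the resolution theorem

Germs at `0` of analytic functions on `ℂ × ℂ`; local biholomorphic maps, point blow-ups.
-/

open Topology Filter

noncomputable section

namespace Pool.Agent.H17BP

/-- The germ of `θ` at `0` is biholomorphic and fixes `0`. -/
structure Bihol (θ : ℂ × ℂ → ℂ × ℂ) : Prop where
  an : AnalyticAt ℂ θ 0
  zero : θ 0 = 0
  inv : ∃ θ' : ℂ × ℂ → ℂ × ℂ, AnalyticAt ℂ θ' 0 ∧ θ' 0 = 0 ∧ (∀ᶠ x in 𝓝 0, θ' (θ x) = x) ∧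
    ∀ᶠ x in 𝓝 0, θ (θ' x) = x

/-- `S, T` are local coordinates at `0`. -/
def Coord (S T : ℂ × ℂ → ℂ) : Prop := Bihol fun x => (S x, T x)

/-- The germ `g` is a monomial in local coordinates times a unit. -/
def Mono (g : ℂ × ℂ → ℂ) : Prop :=
  ∃ (S T : ℂ × ℂ → ℂ) (a b : ℕ) (u : ℂ × ℂ → ℂ), Coord S T ∧ AnalyticAt ℂ u 0 ∧ u 0 ≠ 0 ∧
    ∀ᶠ x in 𝓝 0, g x = S x ^ a * T x ^ b * u x

/-- The chart of the blow-up of `0` at the point `c` of the exceptional curve. -/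
def bl (c : ℂ) (x : ℂ × ℂ) : ℂ × ℂ := (x.1, x.1 * (c + x.2))

/-- The chart of the blow-up of `0` at the point `∞` of the exceptional curve. -/
def blInf (x : ℂ × ℂ) : ℂ × ℂ := (x.1 * x.2, x.2)

/-- The germs of charts of the blow-up of `0`. -/
def BChart (β : ℂ × ℂ → ℂ × ℂ) : Prop :=
  ∃ θ θ' : ℂ × ℂ → ℂ × ℂ, Bihol θ ∧ Bihol θ' ∧ ∀ᶠ x in 𝓝 0, β x = θ (bl 0 (θ' x))

/-- After at most `n` point blow-ups over every point the germ `g` is a monomial times a unit. -/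
def ResN : ℕ → (ℂ × ℂ → ℂ) → Prop
  | 0 => Mono
  | n + 1 => fun g => Mono g ∨ ∀ β, BChart β → ResN n (g ∘ β)

/-! ### simple facts -/

theorem Bihol.tendsto {θ : ℂ × ℂ → ℂ × ℂ} (h : Bihol θ) : Tendsto θ (𝓝 0) (𝓝 0) := by
  have := h.an.continuousAt.tendsto
  rwa [h.zero] at this

theorem Bihol.congr {θ θ₁ : ℂ × ℂ → ℂ × ℂ} (h : Bihol θ) (he : ∀ᶠ x in 𝓝 0, θ₁ x = θ x) : Bihol θ₁ := by
  obtain ⟨θ', h1, h2, h3, h4⟩ := h.inv
  have ht : Tendsto θ' (𝓝 0) (𝓝 0) := by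
    have := h1.continuousAt.tendsto
    rwa [h2] at this
  refine ⟨h.an.congr (he.mono fun x hx => hx.symm), ?_, θ', h1, h2, ?_, ?_⟩
  · rw [he.self_of_nhds, h.zero]
  · filter_upwards [h3, he] with x hx hx'
    rw [hx', hx]
  · filter_upwards [h4, ht.eventually he] with x hx hx'
    rw [hx', hx]

theorem Bihol.comp {θ θ₁ : ℂ × ℂ → ℂ × ℂ} (h : Bihol θ) (h₁ : Bihol θ₁) : Bihol (θ ∘ θ₁) := by
  obtain ⟨φ, a1, a2, a3, a4⟩ := h.inv
  obtain ⟨φ₁, b1, b2, b3, b4⟩ := h₁.inv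
  have hφ : Tendsto φ (𝓝 0) (𝓝 0) := by
    have := a1.continuousAt.tendsto
    rwa [a2] at this
  have hφ₁ : Tendsto φ₁ (𝓝 0) (𝓝 0) := by
    have := b1.continuousAt.tendsto
    rwa [b2] at this
  refine ⟨?_, ?_, φ₁ ∘ φ, ?_, ?_, ?_, ?_⟩
  · have h2 : AnalyticAt ℂ θ (θ₁ 0) := by rw [h₁.zero]; exact h.an
    exact h2.comp h₁.an
  · simp [h₁.zero, h.zero]
  · have h2 : AnalyticAt ℂ φ₁ (φ 0) := by rw [a2]; exact b1
    exact h2.comp a1
  · simp [a2, b2]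
  · filter_upwards [b3, h₁.tendsto.eventually a3] with x hx hx'
    simp only [Function.comp_apply]
    rw [hx', hx]
  · filter_upwards [a4, hφ.eventually b4] with x hx hx'
    simp only [Function.comp_apply]
    rw [hx', hx]

theorem Bihol.id : Bihol (fun x : ℂ × ℂ => x) :=
  ⟨analyticAt_id, rfl, fun x => x, analyticAt_id, rfl, Eventually.of_forall fun _ => rfl,
    Eventually.of_forall fun _ => rfl⟩

/-- The inverse germ. -/
theorem Bihol.exists_inv {θ : ℂ × ℂ → ℂ × ℂ} (h : Bihol θ) : ∃ θ' : ℂ × ℂ → ℂ × ℂ, Bihol θ' ∧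
    (∀ᶠ x in 𝓝 0, θ' (θ x) = x) ∧ ∀ᶠ x in 𝓝 0, θ (θ' x) = x := by
  obtain ⟨θ', h1, h2, h3, h4⟩ := h.inv
  exact ⟨θ', ⟨h1, h2, θ, h.an, h.zero, h4, h3⟩, h3, h4⟩

theorem Mono.congr {g g₁ : ℂ × ℂ → ℂ} (h : Mono g) (he : ∀ᶠ x in 𝓝 0, g₁ x = g x) : Mono g₁ := by
  obtain ⟨S, T, a, b, u, h1, h2, h3, h4⟩ := h
  refine ⟨S, T, a, b, u, h1, h2, h3, ?_⟩
  filter_upwards [h4, he] with x hx hx'
  rw [hx', hx]

theorem Mono.comp {g : ℂ × ℂ → ℂ} (h : Mono g) {θ : ℂ × ℂ → ℂ × ℂ} (hθ : Bihol θ) :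
    Mono (g ∘ θ) := by
  obtain ⟨S, T, a, b, u, h1, h2, h3, h4⟩ := h
  refine ⟨S ∘ θ, T ∘ θ, a, b, u ∘ θ, ?_, ?_, ?_, ?_⟩
  · exact Bihol.comp h1 hθ
  · have h5 : AnalyticAt ℂ u (θ 0) := by rw [hθ.zero]; exact h2
    exact h5.comp hθ.an
  · simpa [hθ.zero] using h3
  · filter_upwards [hθ.tendsto.eventually h4] with x hx
    exact hx

theorem Mono.mul_unit {g u : ℂ × ℂ → ℂ} (h : Mono g) (hu : AnalyticAt ℂ u 0) (hu0 : u 0 ≠ 0) :
    Mono (fun x => g x * u x) := by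
  obtain ⟨S, T, a, b, v, h1, h2, h3, h4⟩ := h
  refine ⟨S, T, a, b, fun x => v x * u x, h1, h2.mul hu, mul_ne_zero h3 hu0, ?_⟩
  filter_upwards [h4] with x hx
  rw [hx]
  ring

theorem BChart.comp_left {β θ : ℂ × ℂ → ℂ × ℂ} (h : BChart β) (hθ : Bihol θ) : BChart (θ ∘ β) := by
  obtain ⟨θ₁, θ₂, h1, h2, h3⟩ := h
  refine ⟨θ ∘ θ₁, θ₂, hθ.comp h1, h2, ?_⟩
  filter_upwards [h3] with x hx
  simp [hx]

theorem BChart.comp_right {β θ : ℂ × ℂ → ℂ × ℂ} (h : BChart β) (hθ : Bihol θ) : BChart (β ∘ θ) := by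
  obtain ⟨θ₁, θ₂, h1, h2, h3⟩ := h
  refine ⟨θ₁, θ₂ ∘ θ, h1, h2.comp hθ, ?_⟩
  filter_upwards [hθ.tendsto.eventually h3] with x hx
  exact hx

theorem bl_zero (c : ℂ) : bl c 0 = 0 := by
  simp [bl]

theorem blInf_zero : blInf 0 = 0 := by
  simp [blInf]

theorem analyticAt_bl (c : ℂ) (x : ℂ × ℂ) : AnalyticAt ℂ (bl c) x := by
  unfold bl
  exact analyticAt_fst.prod (analyticAt_fst.mul (analyticAt_const.add analyticAt_snd))

theorem analyticAt_blInf (x : ℂ × ℂ) : AnalyticAt ℂ blInf x := by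
  unfold blInf
  exact (analyticAt_fst.mul analyticAt_snd).prod analyticAt_snd

theorem BChart.zero {β : ℂ × ℂ → ℂ × ℂ} (h : BChart β) : β 0 = 0 := by
  obtain ⟨θ, θ', h1, h2, h3⟩ := h
  rw [h3.self_of_nhds, h2.zero, bl_zero, h1.zero]

theorem BChart.an {β : ℂ × ℂ → ℂ × ℂ} (h : BChart β) : AnalyticAt ℂ β 0 := by
  obtain ⟨θ, θ', h1, h2, h3⟩ := h
  have h4 : AnalyticAt ℂ (fun x => bl 0 (θ' x)) 0 :=
    (analyticAt_bl 0 _).comp h2.an
  have h5 : AnalyticAt ℂ θ ((fun x => bl 0 (θ' x)) 0) := by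
    have h6 : bl 0 (θ' 0) = 0 := by rw [h2.zero, bl_zero]
    simp only [h6]
    exact h1.an
  have h7 := AnalyticAt.comp (g := θ) (f := fun x => bl 0 (θ' x)) h5 h4
  exact h7.congr (h3.mono fun x hx => hx.symm)

theorem BChart.tendsto {β : ℂ × ℂ → ℂ × ℂ} (h : BChart β) : Tendsto β (𝓝 0) (𝓝 0) := by
  have := h.an.continuousAt.tendsto
  rwa [h.zero] at this

theorem ResN.of_mono {g : ℂ × ℂ → ℂ} (h : Mono g) : ∀ n, ResN n g
  | 0 => h
  | _ + 1 => Or.inl h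

theorem ResN.congr {n : ℕ} : ∀ {g g₁ : ℂ × ℂ → ℂ}, ResN n g → (∀ᶠ x in 𝓝 0, g₁ x = g x) → ResN n g₁ := by
  induction n with
  | zero => intro g g₁ h he; exact Mono.congr h he
  | succ n ih =>
    intro g g₁ h he
    rcases h with h | h
    · exact Or.inl (h.congr he)
    · exact Or.inr fun β hβ => ih (h β hβ) (hβ.tendsto.eventually he)

theorem ResN.comp {n : ℕ} : ∀ {g : ℂ × ℂ → ℂ}, ResN n g → ∀ {θ : ℂ × ℂ → ℂ × ℂ}, Bihol θ → ResN n (g ∘ θ) := by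
  induction n with
  | zero => intro g h θ hθ; exact Mono.comp h hθ
  | succ n ih =>
    intro g h θ hθ
    rcases h with h | h
    · exact Or.inl (h.comp hθ)
    · exact Or.inr fun β hβ => h (θ ∘ β) (hβ.comp_left hθ)

theorem ResN.succ {n : ℕ} : ∀ {g : ℂ × ℂ → ℂ}, ResN n g → ResN (n + 1) g := by
  induction n with
  | zero => intro g h; exact Or.inl h
  | succ n ih =>
    intro g h
    rcases h with h | h
    · exact Or.inl h
    · exact Or.inr fun β hβ => ih (h β hβ)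

theorem ResN.mono_le {n k : ℕ} (hnk : n ≤ k) {g : ℂ × ℂ → ℂ} (h : ResN n g) : ResN k g := by
  induction hnk with
  | refl => exact h
  | step _ ih => exact ih.succ

theorem ResN.mul_unit {n : ℕ} : ∀ {g u : ℂ × ℂ → ℂ}, ResN n g → AnalyticAt ℂ u 0 → u 0 ≠ 0 →
    ResN n (fun x => g x * u x) := by
  induction n with
  | zero => intro g u h hu hu0; exact Mono.mul_unit h hu hu0
  | succ n ih =>
    intro g u h hu hu0
    rcases h with h | h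
    · exact Or.inl (h.mul_unit hu hu0)
    · refine Or.inr fun β hβ => ?_
      have h1 : AnalyticAt ℂ (u ∘ β) 0 := by
        have h2 : AnalyticAt ℂ u (β 0) := by rw [hβ.zero]; exact hu
        exact h2.comp hβ.an
      exact ih (h β hβ) h1 (by simpa [hβ.zero] using hu0)

/-- The coordinate change can be undone. -/
theorem ResN.of_comp {n : ℕ} {g : ℂ × ℂ → ℂ} {θ : ℂ × ℂ → ℂ × ℂ} (hθ : Bihol θ) (h : ResN n (g ∘ θ)) :
    ResN n g := by
  obtain ⟨θ', h1, -, h3⟩ := hθ.exists_inv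
  refine (h.comp h1).congr ?_
  filter_upwards [h3] with x hx
  simp [hx]

end Pool.Agent.H17BP
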