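import Pool.Agent.H17BP.Ift

/-!
# Monomials at nearby points

* `Bihol.near`: let `θ'` be the inverse germ.  `θ` and `θ'` are analytic near `0` (`AnalyticAt.eventually_analyticAt`),
  `θ' (θ x) = x` for `x` near `0`, `θ (θ' y) = y` for `y` near `0` (`eventually_eventually_nhds`), `θ p → 0` for `p → 0`.
  For `p` near `0` the inverse germ is `y ↦ θ' (θ p + y) - p` (it is analytic at `0`, because `θ'` is analytic at `θ p`).
* `Mono.near`: let `g = S^a T^b u` near `0`, `θ = (S, T)`.  For `p` near `0`: `S (p + x) = S p + S₁ x`,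
  `T (p + x) = T p + T₁ x` with `Coord S₁ T₁` (`Bihol.near`, `(S₁, T₁) = θ (p + x) - θ p`), `u (p + x)` is a unit.
  If `S p ≠ 0` then `S (p + x)^a` is a unit; if `S p = 0` then `S (p + x) = S₁ x`; the same for `T`.  Four cases:
  `(S₁)^(a or 0) (T₁)^(b or 0) (unit)`.
-/

open Topology Filter

noncomputable section

namespace Pool.Agent.H17BP

private theorem MonoOpen_add {E : Type*} [NormedAddCommGroup E] [NormedSpace ℂ E] {f : ℂ × ℂ → E}
    {p : ℂ × ℂ} (hf : AnalyticAt ℂ f p) : AnalyticAt ℂ (fun x => f (p + x)) 0 := by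
  have h1 : AnalyticAt ℂ (fun x : ℂ × ℂ => p + x) 0 := analyticAt_const.add analyticAt_id
  have h2 : AnalyticAt ℂ f ((fun x : ℂ × ℂ => p + x) 0) := by
    simp only [add_zero]
    exact hf
  exact AnalyticAt.comp (g := f) (f := fun x : ℂ × ℂ => p + x) h2 h1

private theorem MonoOpen_tendsto (p : ℂ × ℂ) : Tendsto (fun x : ℂ × ℂ => p + x) (𝓝 0) (𝓝 p) := by
  have h1 : ContinuousAt (fun x : ℂ × ℂ => p + x) 0 := by fun_prop
  have h2 := h1.tendsto
  simp only [add_zero] at h2
  exact h2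

/-- A local biholomorphism is a local biholomorphism at the nearby points. -/
theorem Bihol.near {θ : ℂ × ℂ → ℂ × ℂ} (h : Bihol θ) :
    ∀ᶠ p in 𝓝 (0 : ℂ × ℂ), Bihol fun x => θ (p + x) - θ p := by
  obtain ⟨θ', h1, h2, h3, h4⟩ := h.inv
  have A1 := h.an.eventually_analyticAt
  have A2 := h.tendsto.eventually h1.eventually_analyticAt
  have A3 := h3.eventually_nhds
  have A4 := h.tendsto.eventually h4.eventually_nhds
  filter_upwards [A1, A2, A3, A4] with p a1 a2 a3 a4
  refine ⟨(MonoOpen_add a1).sub analyticAt_const, ?_, fun y => θ' (θ p + y) - p,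
    (MonoOpen_add a2).sub analyticAt_const, ?_, ?_, ?_⟩
  · simp only [add_zero, sub_self]
  · simp only [add_zero]
    rw [a3.self_of_nhds, sub_self]
  · filter_upwards [(MonoOpen_tendsto p).eventually a3] with x hx
    rw [add_sub_cancel, hx, add_sub_cancel_left]
  · filter_upwards [(MonoOpen_tendsto (θ p)).eventually a4] with y hy
    rw [add_sub_cancel, hy, add_sub_cancel_left]

private theorem MonoOpen_pow {f : ℂ × ℂ → ℂ} {p : ℂ × ℂ} (hf : AnalyticAt ℂ f p) (a : ℕ) :
    ∃ (a' : ℕ) (w : ℂ × ℂ → ℂ), AnalyticAt ℂ w 0 ∧ w 0 ≠ 0 ∧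
      ∀ x, f (p + x) ^ a = (f (p + x) - f p) ^ a' * w x := by
  by_cases h : f p = 0
  · refine ⟨a, fun _ => 1, analyticAt_const, one_ne_zero, fun x => ?_⟩
    rw [h, sub_zero, mul_one]
  · refine ⟨0, fun x => f (p + x) ^ a, (MonoOpen_add hf).pow a, ?_, fun x => ?_⟩
    · simp only [add_zero]
      exact pow_ne_zero a h
    · rw [pow_zero, one_mul]

/-- A monomial times a unit is a monomial times a unit at the nearby points. -/
theorem Mono.near {g : ℂ × ℂ → ℂ} (h : Mono g) : ∀ᶠ p in 𝓝 (0 : ℂ × ℂ), Mono fun x => g (p + x) := by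
  obtain ⟨S, T, a, b, u, hc, hu, hu0, hg⟩ := h
  obtain ⟨hS, hT, -, -⟩ := hc.parts
  have B1 := Bihol.near hc
  have B2 := hu.eventually_analyticAt
  have B3 := hu.continuousAt.eventually_ne hu0
  have B4 := hg.eventually_nhds
  have B5 := hS.eventually_analyticAt
  have B6 := hT.eventually_analyticAt
  filter_upwards [B1, B2, B3, B4, B5, B6] with p b1 b2 b3 b4 b5 b6
  obtain ⟨a', w, hw, hw0, hwe⟩ := MonoOpen_pow b5 a
  obtain ⟨b', v, hv, hv0, hve⟩ := MonoOpen_pow b6 b
  refine ⟨fun x => S (p + x) - S p, fun x => T (p + x) - T p, a', b',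
    fun x => w x * v x * u (p + x), b1, (hw.mul hv).mul (MonoOpen_add b2), ?_, ?_⟩
  · simp only [add_zero]
    exact mul_ne_zero (mul_ne_zero hw0 hv0) b3
  · filter_upwards [(MonoOpen_tendsto p).eventually b4] with x hx
    rw [hx, hwe x, hve x]
    ring

end Pool.Agent.H17BP
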