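import Pool.Agent.H17BP.SmoothF

/-!
# The normal form of a germ of order `k + 1` in the second variable

`IsNF k c W`: `W = ∑_{j < k} c_j(x) y^j + y^(k+1) U` with `U` a unit (no term `y^k`).

`exists_taylor`: induction on `m`: `φ (x, y) - φ (x, 0)` is divisible by `y` (`exists_div_y`), `c_0 x = φ (x, 0)`.

`exists_nf`.  Let `φ (0, y)` have order `k + 1` at `y = 0`.  Let `G = dy (dy … φ)` (`k` times), analytic at `0`
(`analyticAt_dy`).  The restriction of `G` to `x = 0` is the `k`-th derivative of `y ↦ φ (0, y)`, so `G 0 = 0` and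
`dy G 0 = (k+1)-th derivative = (k+1)! * (leading coefficient) ≠ 0`.  `exists_root`: `G (x, ρ x) = 0`, `ρ 0 = 0`.
Let `φ' (x, y) = φ (x, y + ρ x)`; `∂_y^k φ' (x, 0) = G (x, ρ x) = 0`.  `exists_taylor` with `m = k + 1` for `φ'`:
`φ' = ∑_{j ≤ k} c_j(x) y^j + y^(k+1) U`, and `k! c_k(x) = ∂_y^k φ' (x, 0) = 0`, so `c_k = 0` near `0`.
`c_j 0 = 0` for `j < k` and `U 0 ≠ 0` because `φ' (0, y) = φ (0, y)` (as `ρ 0 = 0`) has order exactly `k + 1`.
(One can avoid iterated derivatives: apply `exists_taylor` to `Φ (x, s, …)`; any proof is fine. A possible one: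
write `φ = ∑_{j ≤ k} a_j(x) y^j + y^(k+1) V`, and note that the coefficient of `y^k` of `φ (x, y + s)` is
`A (x, s) = ∑_j a_j(x) C(j,k) s^(j-k) + …` — it is an analytic function of `(x, s)` with `A (0, 0) = 0` and
`∂_s A (0, 0) = (k+1) V(0, 0) ≠ 0`.)
-/

open Topology Filter

noncomputable section

namespace Pool.Agent.H17BP

/-- `W = ∑_{j < k} c_j(x) y^j + y^(k+1) U`, the `c_j` vanish at `0`, `U` is a unit. -/
def IsNF (k : ℕ) (c : ℕ → ℂ → ℂ) (W : ℂ × ℂ → ℂ) : Prop :=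
  (∀ j < k, AnalyticAt ℂ (c j) 0 ∧ c j 0 = 0) ∧ ∃ U : ℂ × ℂ → ℂ, AnalyticAt ℂ U 0 ∧ U 0 ≠ 0 ∧
    ∀ᶠ x in 𝓝 (0 : ℂ × ℂ), W x = ∑ j ∈ Finset.range k, c j x.1 * x.2 ^ j + x.2 ^ (k + 1) * U x

theorem exists_taylor (m : ℕ) : ∀ {φ : ℂ × ℂ → ℂ}, AnalyticAt ℂ φ 0 → ∃ (c : ℕ → ℂ → ℂ) (U : ℂ × ℂ → ℂ),
    (∀ j, AnalyticAt ℂ (c j) 0) ∧ AnalyticAt ℂ U 0 ∧
      ∀ᶠ x in 𝓝 (0 : ℂ × ℂ), φ x = ∑ j ∈ Finset.range m, c j x.1 * x.2 ^ j + x.2 ^ m * U x := by
  induction m with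
  | zero =>
    intro φ hφ
    refine ⟨fun _ _ => 0, φ, fun _ => analyticAt_const, hφ, Eventually.of_forall fun x => ?_⟩
    rw [Finset.sum_range_zero, pow_zero, one_mul, zero_add]
  | succ m ih =>
    intro φ hφ
    obtain ⟨c, U, hc, hU, he⟩ := ih hφ
    have hU0 : AnalyticAt ℂ (fun x : ℂ => U (x, 0)) 0 := by
      have h1 : AnalyticAt ℂ (fun x : ℂ => (x, (0 : ℂ))) 0 := analyticAt_id.prod analyticAt_const
      exact AnalyticAt.comp_of_eq (g := U) (f := fun x : ℂ => (x, (0 : ℂ))) hU h1 rfl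
    have hU1 : AnalyticAt ℂ (fun z : ℂ × ℂ => U (z.1, 0)) 0 := by
      have h2 : AnalyticAt ℂ (fun x : ℂ => U (x, 0)) ((fun z : ℂ × ℂ => z.1) 0) := hU0
      exact h2.comp analyticAt_fst
    obtain ⟨g, hg, hge⟩ := exists_div_y (f := fun z : ℂ × ℂ => U z - U (z.1, 0)) (hU.sub hU1)
      (Eventually.of_forall fun x => sub_self _)
    refine ⟨fun j => if j = m then fun x => U (x, 0) else c j, g, ?_, hg, ?_⟩
    · intro j
      dsimp only
      split_ifs
      · exact hU0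
      · exact hc j
    · filter_upwards [he, hge] with z hz hz'
      rw [hz, Finset.sum_range_succ]
      have e1 : ∑ j ∈ Finset.range m, (if j = m then fun x => U (x, 0) else c j) z.1 * z.2 ^ j =
          ∑ j ∈ Finset.range m, c j z.1 * z.2 ^ j := by
        refine Finset.sum_congr rfl fun j hj => ?_
        rw [if_neg (Finset.mem_range.1 hj).ne]
      rw [e1, if_pos rfl]
      have e2 : U z = U (z.1, 0) + z.2 * g z := by
        rw [smul_eq_mul] at hz'
        linear_combination hz'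
      rw [e2]
      ring

/-- The `n`-th derivative at `0` reads off the coefficient. -/
private theorem NF_coef (n : ℕ) : ∀ (c : ℕ → ℂ) (v h : ℂ → ℂ), AnalyticAt ℂ v 0 →
    (∀ᶠ y in 𝓝 (0 : ℂ), h y = ∑ j ∈ Finset.range n, c j * y ^ j + y ^ n * v y) →
    iteratedDeriv n h 0 = (n.factorial : ℂ) * v 0 := by
  induction n with
  | zero =>
    intro c v h _ he
    have h1 := he.self_of_nhds
    rw [Finset.sum_range_zero, pow_zero, one_mul, zero_add] at h1
    rw [iteratedDeriv_zero, Nat.factorial_zero, Nat.cast_one, one_mul]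
    exact h1
  | succ n ih =>
    intro c v h hv he
    rw [iteratedDeriv_succ']
    have hw : AnalyticAt ℂ (fun y => ((n + 1 : ℕ) : ℂ) * v y + y * deriv v y) 0 :=
      (analyticAt_const.mul hv).add (analyticAt_id.mul hv.deriv)
    have key := ih (fun j => ((j + 1 : ℕ) : ℂ) * c (j + 1)) (fun y => ((n + 1 : ℕ) : ℂ) * v y + y * deriv v y)
      (deriv h) hw ?_
    · rw [key]
      simp only [zero_mul, add_zero]
      rw [Nat.factorial_succ]
      push_cast
      ring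
    · filter_upwards [he.eventually_nhds, hv.eventually_analyticAt] with y hy hvy
      have hd : HasDerivAt (fun y => ∑ j ∈ Finset.range (n + 1), c j * y ^ j + y ^ (n + 1) * v y)
          (∑ j ∈ Finset.range (n + 1), c j * ((j : ℂ) * y ^ (j - 1)) +
            (((n + 1 : ℕ) : ℂ) * y ^ (n + 1 - 1) * v y + y ^ (n + 1) * deriv v y)) y := by
        refine HasDerivAt.add ?_ ?_
        · refine HasDerivAt.fun_sum fun j _ => ?_
          exact (hasDerivAt_pow j y).const_mul (c j)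
        · exact (hasDerivAt_pow (n + 1) y).mul hvy.differentiableAt.hasDerivAt
      have hd' : deriv h y = _ := (Filter.EventuallyEq.deriv_eq (f₁ := h) hy).trans hd.deriv
      rw [hd', Finset.sum_range_succ', Nat.cast_zero, zero_mul, mul_zero, add_zero, Nat.add_sub_cancel]
      have e1 : ∑ j ∈ Finset.range n, c (j + 1) * (((j + 1 : ℕ) : ℂ) * y ^ (j + 1 - 1)) =
          ∑ j ∈ Finset.range n, ((j + 1 : ℕ) : ℂ) * c (j + 1) * y ^ j := by
        refine Finset.sum_congr rfl fun j _ => ?_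
        rw [Nat.add_sub_cancel]
        ring
      rw [e1]
      ring

private theorem NF_coef' (m j : ℕ) (hj : j < m) (c : ℕ → ℂ) (u h : ℂ → ℂ) (hu : AnalyticAt ℂ u 0)
    (he : ∀ᶠ y in 𝓝 (0 : ℂ), h y = ∑ i ∈ Finset.range m, c i * y ^ i + y ^ m * u y) :
    iteratedDeriv j h 0 = (j.factorial : ℂ) * c j := by
  obtain ⟨t, rfl⟩ : ∃ t, m = j + (t + 1) := ⟨m - j - 1, by omega⟩
  have hv : AnalyticAt ℂ (fun y => ∑ i ∈ Finset.range (t + 1), c (j + i) * y ^ i + y ^ (t + 1) * u y) 0 := by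
    refine AnalyticAt.add ?_ ((analyticAt_id.pow (t + 1)).mul hu)
    exact Finset.analyticAt_fun_sum _ fun i _ => analyticAt_const.mul (analyticAt_id.pow i)
  have key := NF_coef j c (fun y => ∑ i ∈ Finset.range (t + 1), c (j + i) * y ^ i + y ^ (t + 1) * u y) h hv ?_
  · rw [key]
    congr 1
    rw [zero_pow (Nat.succ_ne_zero t), zero_mul, add_zero, Finset.sum_range_succ', pow_zero, mul_one, add_zero]
    rw [Finset.sum_eq_zero (fun i _ => by rw [zero_pow (Nat.succ_ne_zero i), mul_zero]), zero_add]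
  · filter_upwards [he] with y hy
    have e1 : ∑ i ∈ Finset.range (t + 1), c (j + i) * y ^ (j + i) =
        y ^ j * ∑ i ∈ Finset.range (t + 1), c (j + i) * y ^ i := by
      rw [Finset.mul_sum]
      refine Finset.sum_congr rfl fun i _ => ?_
      rw [pow_add]
      ring
    rw [hy, Finset.sum_range_add, e1, pow_add]
    ring

private theorem NF_iter_an (n : ℕ) : ∀ {f : ℂ × ℂ → ℂ} {z : ℂ × ℂ}, AnalyticAt ℂ f z → AnalyticAt ℂ (dy^[n] f) z := by
  induction n with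
  | zero => intro f z h; exact h
  | succ n ih =>
    intro f z h
    rw [Function.iterate_succ_apply']
    exact analyticAt_dy (ih h)

private theorem NF_deriv {f : ℂ × ℂ → ℂ} {x y : ℂ} (h : AnalyticAt ℂ f (x, y)) :
    deriv (fun t : ℂ => f (x, t)) y = dy f (x, y) := by
  have h1 : HasFDerivAt f (fderiv ℂ f (x, y)) (x, y) := h.differentiableAt.hasFDerivAt
  have h2 : HasDerivAt (fun t : ℂ => (x, t)) ((0 : ℂ), (1 : ℂ)) y :=
    (hasDerivAt_const y x).prodMk (hasDerivAt_id y)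
  have h3 : HasDerivAt (fun t : ℂ => f (x, t)) (fderiv ℂ f (x, y) ((0 : ℂ), (1 : ℂ))) y :=
    HasFDerivAt.comp_hasDerivAt y h1 h2
  exact h3.deriv

private theorem NF_iter (n : ℕ) : ∀ {f : ℂ × ℂ → ℂ} {x y : ℂ}, AnalyticAt ℂ f (x, y) →
    iteratedDeriv n (fun t : ℂ => f (x, t)) y = (dy^[n] f) (x, y) := by
  induction n with
  | zero => intro f x y _; rw [iteratedDeriv_zero]; rfl
  | succ n ih =>
    intro f x y h
    rw [iteratedDeriv_succ, Function.iterate_succ_apply', ← NF_deriv (NF_iter_an n h)]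
    refine Filter.EventuallyEq.deriv_eq ?_
    have ht : Tendsto (fun t : ℂ => (x, t)) (𝓝 y) (𝓝 (x, y)) :=
      (continuous_const.prodMk continuous_id).tendsto y
    filter_upwards [ht.eventually h.eventually_analyticAt] with t ht'
    exact ih ht'

theorem exists_nf {k : ℕ} {φ : ℂ × ℂ → ℂ} (hφ : AnalyticAt ℂ φ 0)
    (ho : analyticOrderAt (fun y : ℂ => φ (0, y)) 0 = ((k + 1 : ℕ) : ℕ∞)) :
    ∃ ρ : ℂ → ℂ, AnalyticAt ℂ ρ 0 ∧ ρ 0 = 0 ∧ ∃ c : ℕ → ℂ → ℂ,
      IsNF k c (fun x => φ (x.1, x.2 + ρ x.1)) := by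
  have hφ' : AnalyticAt ℂ φ ((0 : ℂ), (0 : ℂ)) := hφ
  have hw : AnalyticAt ℂ (fun y : ℂ => φ (0, y)) 0 := by
    have h1 : AnalyticAt ℂ (fun y : ℂ => ((0 : ℂ), y)) 0 := analyticAt_const.prod analyticAt_id
    have h2 : AnalyticAt ℂ φ ((fun y : ℂ => ((0 : ℂ), y)) 0) := hφ
    exact h2.comp h1
  obtain ⟨g, hg, hg0, hge⟩ := hw.analyticOrderAt_eq_natCast.1 ho
  have hge' : ∀ᶠ y in 𝓝 (0 : ℂ), φ (0, y) = ∑ j ∈ Finset.range (k + 1), (fun _ : ℕ => (0 : ℂ)) j * y ^ j +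
      y ^ (k + 1) * g y := by
    filter_upwards [hge] with y hy
    rw [hy, sub_zero, smul_eq_mul, Finset.sum_eq_zero (fun j _ => zero_mul _), zero_add]
  have hd1 : iteratedDeriv (k + 1) (fun y : ℂ => φ (0, y)) 0 ≠ 0 := by
    rw [NF_coef (k + 1) (fun _ => 0) g _ hg hge']
    exact mul_ne_zero (by exact_mod_cast (Nat.factorial_ne_zero _)) hg0
  have hd0 : ∀ j < k + 1, iteratedDeriv j (fun y : ℂ => φ (0, y)) 0 = 0 := by
    intro j hj
    rw [NF_coef' (k + 1) j hj (fun _ => 0) g _ hg hge', mul_zero]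
  have hG0 : (dy^[k] φ) 0 = 0 := by
    have h := NF_iter k hφ'
    rw [hd0 k (Nat.lt_succ_self k)] at h
    exact h.symm
  have hG1 : dy (dy^[k] φ) 0 ≠ 0 := by
    have h := NF_iter (k + 1) hφ'
    rw [Function.iterate_succ_apply'] at h
    intro h'
    exact hd1 (h.trans h')
  obtain ⟨ρ, hρ, hρ0, hρe⟩ := exists_root (NF_iter_an k hφ) hG0 hG1
  have hψ : AnalyticAt ℂ (fun x : ℂ × ℂ => φ (x.1, x.2 + ρ x.1)) 0 := by
    have h1 : AnalyticAt ℂ (fun x : ℂ × ℂ => ρ x.1) 0 := by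
      have h2 : AnalyticAt ℂ ρ ((fun z : ℂ × ℂ => z.1) 0) := hρ
      exact h2.comp analyticAt_fst
    have h3 : AnalyticAt ℂ (fun x : ℂ × ℂ => (x.1, x.2 + ρ x.1)) 0 :=
      analyticAt_fst.prod (analyticAt_snd.add h1)
    refine AnalyticAt.comp_of_eq (g := φ) (f := fun x : ℂ × ℂ => (x.1, x.2 + ρ x.1)) hφ h3 ?_
    simp [hρ0]
  obtain ⟨c, U, hc, hU, he⟩ := exists_taylor (k + 1) hψ
  -- slices
  have hslice : ∀ᶠ x in 𝓝 (0 : ℂ), ∀ᶠ y in 𝓝 (0 : ℂ), φ (x, y + ρ x) =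
      ∑ j ∈ Finset.range (k + 1), c j x * y ^ j + y ^ (k + 1) * U (x, y) := by
    have he' : ∀ᶠ z in 𝓝 ((0 : ℂ), (0 : ℂ)), φ (z.1, z.2 + ρ z.1) =
      ∑ j ∈ Finset.range (k + 1), c j z.1 * z.2 ^ j + z.2 ^ (k + 1) * U z := he
    exact he'.curry_nhds
  have hUs : ∀ᶠ x in 𝓝 (0 : ℂ), AnalyticAt ℂ (fun y : ℂ => U (x, y)) 0 := by
    have ht : Tendsto (fun x : ℂ => (x, (0 : ℂ))) (𝓝 0) (𝓝 ((0 : ℂ), (0 : ℂ))) :=
      (continuous_id.prodMk continuous_const).tendsto 0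
    have hU' : AnalyticAt ℂ U ((0 : ℂ), (0 : ℂ)) := hU
    filter_upwards [ht.eventually hU'.eventually_analyticAt] with x hx
    have h1 : AnalyticAt ℂ (fun y : ℂ => (x, y)) 0 := analyticAt_const.prod analyticAt_id
    have h2 : AnalyticAt ℂ U ((fun y : ℂ => (x, y)) 0) := hx
    exact h2.comp h1
  have hφs : ∀ᶠ x in 𝓝 (0 : ℂ), AnalyticAt ℂ φ (x, ρ x) := by
    have ht : Tendsto (fun x : ℂ => (x, ρ x)) (𝓝 0) (𝓝 ((0 : ℂ), (0 : ℂ))) := by
      have := (continuousAt_id (x := (0 : ℂ))).prodMk hρ.continuousAt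
      have h2 := this.tendsto
      simp only [id_eq, hρ0] at h2
      exact h2
    exact ht.eventually hφ'.eventually_analyticAt
  have hck : ∀ᶠ x in 𝓝 (0 : ℂ), c k x = 0 := by
    filter_upwards [hslice, hUs, hφs, hρe] with x h1 h2 h3 h4
    have h5 := NF_coef' (k + 1) k (Nat.lt_succ_self k) (fun j => c j x) (fun y => U (x, y))
      (fun y => φ (x, y + ρ x)) h2 h1
    have h6 : iteratedDeriv k (fun y => φ (x, y + ρ x)) 0 = 0 := by
      rw [iteratedDeriv_comp_add_const k (fun y => φ (x, y)) (ρ x)]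
      dsimp only
      rw [zero_add, NF_iter k h3]
      exact h4
    rw [h6] at h5
    have h7 := h5.symm
    rcases mul_eq_zero.1 h7 with h8 | h8
    · exact absurd h8 (by exact_mod_cast (Nat.factorial_ne_zero _))
    · exact h8
  have hs0 := hslice.self_of_nhds
  have hU0a := hUs.self_of_nhds
  rw [hρ0] at hs0
  simp only [add_zero] at hs0
  refine ⟨ρ, hρ, hρ0, c, ?_, U, hU, ?_, ?_⟩
  · intro j hj
    refine ⟨hc j, ?_⟩
    have h5 := NF_coef' (k + 1) j (by omega) (fun j => c j 0) (fun y => U (0, y)) (fun y => φ (0, y)) hU0a hs0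
    rw [hd0 j (by omega)] at h5
    rcases mul_eq_zero.1 h5.symm with h8 | h8
    · exact absurd h8 (by exact_mod_cast (Nat.factorial_ne_zero _))
    · exact h8
  · have h5 := NF_coef (k + 1) (fun j => c j 0) (fun y => U (0, y)) (fun y => φ (0, y)) hU0a hs0
    intro h6
    apply hd1
    rw [h5]
    have h7 : U ((0 : ℂ), (0 : ℂ)) = 0 := h6
    rw [h7, mul_zero]
  · have hf : Tendsto (fun z : ℂ × ℂ => z.1) (𝓝 0) (𝓝 (0 : ℂ)) := continuous_fst.tendsto _
    filter_upwards [he, hf.eventually hck] with z hz hz'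
    rw [hz, Finset.sum_range_succ, hz', zero_mul, add_zero]

end Pool.Agent.H17BP
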