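import Pool.Agent.H17BP.SameK
import Pool.Agent.H17BP.BdProd
import Pool.Agent.H36.BPL.Main

/-!
# Smooth surfaces of log general type: the exceptional set
-/

open Topology Filter MvPolynomial

noncomputable section

namespace Pool.Agent.H17BP

open Pool.Agent.H17 (PN VanishesAt ZariskiClosedIn HolomorphicInto puncturedDisc PseudoBrodyHyperbolic
  PseudoPicardHyperbolic)
open Pool.Agent.H62.FC (Homog)
open Pool.Agent.H17R (openVar)
open Pool.Agent.H17LG.Variety (FunField OnBoundary IsLogGeneralType)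
open Pool.Agent.H13.SM (conTan)
open Pool.Agent.H14.KB (KobayashiHyperbolicModulo PseudoKobayashiHyperbolic)
open Pool.Agent.H13.OT (OrderTwo PseudoBrodyOrderTwo)

variable {N b : ℕ} {P : Ideal (MvPolynomial (Fin (N + 1)) ℂ)} {H : Fin b → MvPolynomial (Fin (N + 1)) ℂ}

/-- The main theorem, with the exceptional set `Ξ`. -/
theorem open_main [hPp : P.IsPrime] (hP : Homog P) {z : Fin 2 → FunField P} (hz : IsTranscendenceBasis ℂ z)
    (hsm : ∀ y : Fin (N + 1) → ℂ, y ≠ 0 → (∀ Q ∈ P, eval y Q = 0) → Module.finrank ℂ (conTan P y) ≤ 3)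
    (hH : ∀ m, ∃ n, (H m).IsHomogeneous n) (hHP : ∀ m, H m ∉ P)
    (hgt : IsLogGeneralType (OnBoundary P H (k := 2)))
    {Ξ : Set (PN N)} (hΞ : ZariskiClosedIn (openVar P H) Ξ) (hne : Ξ ≠ openVar P H)
    (hbr : ∀ f : ℂ → PN N, HolomorphicInto f Set.univ → OrderTwo f → (∀ z, f z ∈ openVar P H) →
      (∃ z w, f z ≠ f w) → ∀ z, f z ∈ Ξ) :
    (∀ f : ℂ → PN N, HolomorphicInto f Set.univ → (∀ z, f z ∈ openVar P H) →
      (∃ z w, f z ≠ f w) → ∀ z, f z ∈ Ξ) ∧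
    (∀ f : ℂ → PN N, HolomorphicInto f puncturedDisc → (∀ z ∈ puncturedDisc, f z ∈ openVar P H) →
      (∃ z ∈ puncturedDisc, f z ∉ Ξ) →
      ∃ g : ℂ → PN N, HolomorphicInto g (Metric.ball 0 1) ∧ ∀ z ∈ puncturedDisc, g z = f z) ∧
    ∃ (Q : MvPolynomial (Fin (N + 1)) ℂ) (D : ℕ), Q.IsHomogeneous D ∧
      (∃ x ∈ openVar P H, ¬ VanishesAt Q x) ∧ (∀ x ∈ Ξ, VanishesAt Q x) ∧
      KobayashiHyperbolicModulo (openVar P H) Q D := by
  choose e he using hH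
  have hH₀ : (∏ m, H m).IsHomogeneous (∑ m, e m) := IsHomogeneous.prod _ _ _ fun m _ => he m
  have hH₀P : ∏ m, H m ∉ P := by
    rw [hPp.prod_mem_iff]
    push Not
    exact fun m _ => hHP m
  have hU : openVar P H = openVar P fun _ : Fin 1 => ∏ m, H m := openVar_prod
  rw [hU] at hΞ hne hbr
  obtain ⟨Q, D, hQ, ⟨x, hx, hxQ⟩, hQΞ, hkob, hpic⟩ :=
    Pool.Agent.H36.BPL.open_surface hP hz hsm hH₀ hH₀P (isLogGeneralType_prod hgt) hΞ hne hbr
  have hQP : Q ∉ P := fun h => hxQ (hx.1 Q h D hQ)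
  rw [← hU] at hΞ hne hbr hkob hpic hx
  refine ⟨fun f hf hfX hfn => brody_same hP hz he hΞ hbr hQ hQP
      (fun f hf hfX hfn z => Pool.Agent.H14.KB.brody_of_kobayashi hQ hkob hf hfX hfn z) hf hfX hfn,
    fun f hf hfX hfΞ => picard_same hP hz he hΞ hbr hQ hQP hpic hf hfX hfΞ,
    Q, D, hQ, ⟨x, hx, hxQ⟩, hQΞ, hkob⟩

end Pool.Agent.H17BP
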