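import Pool.Agent.H17BP.Ift
import Pool.Agent.H17BP.Div

/-!
# The implicit function theorem for a smooth germ

`F 0 = 0`, `dx F 0 ≠ 0`.  `(F, y)` are local coordinates (`coord_iff`), let `(X(z, y), y')` be the inverse germ: the
second component of the inverse is `y`, so with `ψ y = X (0, y)`: `F (ψ y, y) = 0` for small `y`, `ψ 0 = 0`, `ψ`
analytic.  Then `F (x + ψ y, y)` vanishes at `x = 0`, so `F (x + ψ y, y) = x u'(x, y)` (`exists_div_x`), hence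
`F (x, y) = (x - ψ y) u (x, y)` with `u (x, y) = u' (x - ψ y, y)`, and `u 0 = dx F 0 ≠ 0` (differentiate in `x`).
If `ψ = 0` near `0`: first case; otherwise `ψ y = y ^ k v y` with `k ≥ 1`, `v 0 ≠ 0`
(`AnalyticAt.exists_eventuallyEq_pow_smul_nonzero_iff`).
`exists_root`: the same for `dy F 0 ≠ 0`: `F (x, ρ x) = 0`.
-/

open Topology Filter

noncomputable section

namespace Pool.Agent.H17BP

private theorem SmoothF_root {F : ℂ × ℂ → ℂ} (hF : AnalyticAt ℂ F 0) (h0 : F 0 = 0) (h1 : dx F 0 ≠ 0) :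
    ∃ ψ : ℂ → ℂ, AnalyticAt ℂ ψ 0 ∧ ψ 0 = 0 ∧ ∀ᶠ y in 𝓝 (0 : ℂ), F (ψ y, y) = 0 := by
  have hT : AnalyticAt ℂ (fun x : ℂ × ℂ => x.2) 0 := analyticAt_snd
  have hd : HasFDerivAt (fun x : ℂ × ℂ => x.2) (ContinuousLinearMap.snd ℂ ℂ ℂ) 0 := hasFDerivAt_snd
  have hc : Coord F (fun x => x.2) := by
    rw [coord_iff hF hT h0 rfl]
    have e1 : dx (fun x : ℂ × ℂ => x.2) 0 = 0 := by
      unfold dx; rw [hd.fderiv]; simp
    have e2 : dy (fun x : ℂ × ℂ => x.2) 0 = 1 := by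
      unfold dy; rw [hd.fderiv]; simp
    rw [e1, e2, mul_one, mul_zero, sub_zero]
    exact h1
  obtain ⟨θ', hθ, -, h4⟩ := Bihol.exists_inv hc
  have hline : AnalyticAt ℂ (fun y : ℂ => ((0 : ℂ), y)) 0 := analyticAt_const.prod analyticAt_id
  have hline0 : (fun y : ℂ => ((0 : ℂ), y)) 0 = 0 := rfl
  have hline2 : Tendsto (fun y : ℂ => ((0 : ℂ), y)) (𝓝 0) (𝓝 0) := hline.continuousAt.tendsto
  refine ⟨fun y => (θ' (0, y)).1, ?_, ?_, ?_⟩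
  · have h5 : AnalyticAt ℂ θ' ((fun y : ℂ => ((0 : ℂ), y)) 0) := hθ.an
    have h6 := AnalyticAt.comp (g := θ') (f := fun y : ℂ => ((0 : ℂ), y)) h5 hline
    exact analyticAt_fst.comp h6
  · show (θ' (0, 0)).1 = 0
    have : θ' (0, 0) = 0 := hθ.zero
    rw [this]; rfl
  · filter_upwards [hline2.eventually h4] with y hy
    have h7 := congrArg Prod.fst hy
    have h8 := congrArg Prod.snd hy
    simp only at h7 h8
    have h9 : ((θ' (0, y)).1, y) = θ' (0, y) := Prod.ext rfl h8.symm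
    rw [h9]
    exact h7

theorem smooth_normal {F : ℂ × ℂ → ℂ} (hF : AnalyticAt ℂ F 0) (h0 : F 0 = 0) (h1 : dx F 0 ≠ 0) :
    ∃ u : ℂ × ℂ → ℂ, AnalyticAt ℂ u 0 ∧ u 0 ≠ 0 ∧
      ((∀ᶠ x in 𝓝 (0 : ℂ × ℂ), F x = x.1 * u x) ∨
        ∃ (k : ℕ) (v : ℂ → ℂ), AnalyticAt ℂ v 0 ∧ v 0 ≠ 0 ∧
          ∀ᶠ x in 𝓝 (0 : ℂ × ℂ), F x = (x.1 - x.2 ^ (k + 1) * v x.2) * u x) := by
  obtain ⟨ψ, hψ, hψ0, hroot⟩ := SmoothF_root hF h0 h1
  have hψ2 : AnalyticAt ℂ (fun x : ℂ × ℂ => ψ x.2) 0 := by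
    have h2 : AnalyticAt ℂ ψ ((fun x : ℂ × ℂ => x.2) 0) := hψ
    exact AnalyticAt.comp (g := ψ) (f := fun x : ℂ × ℂ => x.2) h2 analyticAt_snd
  have hp : AnalyticAt ℂ (fun x : ℂ × ℂ => (x.1 + ψ x.2, x.2)) 0 := (analyticAt_fst.add hψ2).prod analyticAt_snd
  have hm : AnalyticAt ℂ (fun x : ℂ × ℂ => (x.1 - ψ x.2, x.2)) 0 := (analyticAt_fst.sub hψ2).prod analyticAt_snd
  have hp0 : (fun x : ℂ × ℂ => (x.1 + ψ x.2, x.2)) 0 = 0 := by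
    simp [hψ0]
  have hm0 : (fun x : ℂ × ℂ => (x.1 - ψ x.2, x.2)) 0 = 0 := by
    simp [hψ0]
  have hmt : Tendsto (fun x : ℂ × ℂ => (x.1 - ψ x.2, x.2)) (𝓝 0) (𝓝 0) := by
    have h2 := hm.continuousAt.tendsto
    have e : ((0 : ℂ × ℂ).1 - ψ (0 : ℂ × ℂ).2, (0 : ℂ × ℂ).2) = 0 := hm0
    rwa [e] at h2
  have hF1 : AnalyticAt ℂ (fun x : ℂ × ℂ => F (x.1 + ψ x.2, x.2)) 0 := by
    have h2 : AnalyticAt ℂ F ((fun x : ℂ × ℂ => (x.1 + ψ x.2, x.2)) 0) := by rw [hp0]; exact hF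
    exact AnalyticAt.comp (g := F) (f := fun x : ℂ × ℂ => (x.1 + ψ x.2, x.2)) h2 hp
  obtain ⟨g, hg, hgF⟩ := exists_div_x hF1 (by
    filter_upwards [hroot] with y hy
    simpa using hy)
  have hu : AnalyticAt ℂ (fun x : ℂ × ℂ => g (x.1 - ψ x.2, x.2)) 0 := by
    have h2 : AnalyticAt ℂ g ((fun x : ℂ × ℂ => (x.1 - ψ x.2, x.2)) 0) := by rw [hm0]; exact hg
    exact AnalyticAt.comp (g := g) (f := fun x : ℂ × ℂ => (x.1 - ψ x.2, x.2)) h2 hm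
  have hFu : ∀ᶠ x in 𝓝 (0 : ℂ × ℂ), F x = (x.1 - ψ x.2) * g (x.1 - ψ x.2, x.2) := by
    filter_upwards [hmt.eventually hgF] with x hx
    simpa using hx
  have hu0 : g ((0 : ℂ × ℂ).1 - ψ (0 : ℂ × ℂ).2, (0 : ℂ × ℂ).2) ≠ 0 := by
    intro hcon
    apply h1
    have hline : AnalyticAt ℂ (fun t : ℂ => (t, (0 : ℂ))) 0 := analyticAt_id.prod analyticAt_const
    have hline0 : (fun t : ℂ => (t, (0 : ℂ))) 0 = 0 := rfl
    have hline2 : Tendsto (fun t : ℂ => (t, (0 : ℂ))) (𝓝 0) (𝓝 0) := hline.continuousAt.tendsto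
    have hld : HasDerivAt (fun t : ℂ => (t, (0 : ℂ))) ((1 : ℂ), (0 : ℂ)) 0 :=
      (hasDerivAt_id (0 : ℂ)).prodMk (hasDerivAt_const (0 : ℂ) (0 : ℂ))
    have e1 : HasDerivAt (fun t : ℂ => F (t, 0)) (dx F 0) 0 := by
      have h2 : HasFDerivAt F (fderiv ℂ F 0) ((fun t : ℂ => (t, (0 : ℂ))) 0) := hF.differentiableAt.hasFDerivAt
      exact h2.comp_hasDerivAt (f := fun t : ℂ => (t, (0 : ℂ))) 0 hld
    have e2 : HasDerivAt (fun t : ℂ => (t - ψ 0) * g (t - ψ 0, 0)) 0 0 := by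
      have h3 : DifferentiableAt ℂ (fun t : ℂ => g (t - ψ 0, 0)) 0 := by
        have h4 : AnalyticAt ℂ (fun x : ℂ × ℂ => g (x.1 - ψ x.2, x.2)) ((fun t : ℂ => (t, (0 : ℂ))) 0) := hu
        exact (AnalyticAt.comp (g := fun x : ℂ × ℂ => g (x.1 - ψ x.2, x.2)) (f := fun t : ℂ => (t, (0 : ℂ))) h4
          hline).differentiableAt
      have h5 := ((hasDerivAt_id (0 : ℂ)).sub_const (ψ 0)).mul h3.hasDerivAt
      have h6 : g ((0 : ℂ) - ψ 0, 0) = 0 := hcon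
      have h7 : HasDerivAt (fun t : ℂ => (t - ψ 0) * g (t - ψ 0, 0))
        (1 * g ((0 : ℂ) - ψ 0, 0) + ((0 : ℂ) - ψ 0) * deriv (fun t : ℂ => g (t - ψ 0, 0)) 0) 0 := h5
      have h8 : 1 * g ((0 : ℂ) - ψ 0, 0) + ((0 : ℂ) - ψ 0) * deriv (fun t : ℂ => g (t - ψ 0, 0)) 0 = 0 := by
        rw [h6, hψ0]; ring
      rw [h8] at h7
      exact h7
    have e3 : (fun t : ℂ => F (t, 0)) =ᶠ[𝓝 0] fun t : ℂ => (t - ψ 0) * g (t - ψ 0, 0) := hline2.eventually hFu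
    exact e1.unique (e2.congr_of_eventuallyEq e3)
  refine ⟨fun x => g (x.1 - ψ x.2, x.2), hu, hu0, ?_⟩
  have hsnd : Tendsto (fun x : ℂ × ℂ => x.2) (𝓝 0) (𝓝 0) := continuous_snd.tendsto (0 : ℂ × ℂ)
  by_cases hz : ∀ᶠ y in 𝓝 (0 : ℂ), ψ y = 0
  · left
    filter_upwards [hFu, hsnd.eventually hz] with x hx hy
    rw [hx, hy, sub_zero]
  · right
    obtain ⟨n, v, hv, hv0, hev⟩ := hψ.exists_eventuallyEq_pow_smul_nonzero_iff.2 hz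
    cases n with
    | zero =>
      exfalso
      have := hev.self_of_nhds
      rw [hψ0] at this
      simp at this
      exact hv0 this.symm
    | succ k =>
      refine ⟨k, v, hv, hv0, ?_⟩
      filter_upwards [hFu, hsnd.eventually hev] with x hx hy
      rw [sub_zero, smul_eq_mul] at hy
      rw [← hy]
      exact hx

theorem exists_root {F : ℂ × ℂ → ℂ} (hF : AnalyticAt ℂ F 0) (h0 : F 0 = 0) (h1 : dy F 0 ≠ 0) :
    ∃ ρ : ℂ → ℂ, AnalyticAt ℂ ρ 0 ∧ ρ 0 = 0 ∧ ∀ᶠ x in 𝓝 (0 : ℂ), F (x, ρ x) = 0 := by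
  have hs : AnalyticAt ℂ (fun x : ℂ × ℂ => (x.2, x.1)) 0 := analyticAt_snd.prod analyticAt_fst
  have hs0 : (fun x : ℂ × ℂ => (x.2, x.1)) 0 = 0 := rfl
  have hF' : AnalyticAt ℂ (fun x : ℂ × ℂ => F (x.2, x.1)) 0 := by
    have h2 : AnalyticAt ℂ F ((fun x : ℂ × ℂ => (x.2, x.1)) 0) := by rw [hs0]; exact hF
    exact AnalyticAt.comp (g := F) (f := fun x : ℂ × ℂ => (x.2, x.1)) h2 hs
  have hd : dx (fun x : ℂ × ℂ => F (x.2, x.1)) 0 = dy F 0 := by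
    have h3 : HasFDerivAt (fun x : ℂ × ℂ => (x.2, x.1))
        ((ContinuousLinearMap.snd ℂ ℂ ℂ).prod (ContinuousLinearMap.fst ℂ ℂ ℂ)) 0 :=
      hasFDerivAt_snd.prodMk hasFDerivAt_fst
    have h4 : HasFDerivAt F (fderiv ℂ F 0) ((fun x : ℂ × ℂ => (x.2, x.1)) 0) := hF.differentiableAt.hasFDerivAt
    have h5 := h4.comp (0 : ℂ × ℂ) h3
    unfold dx dy
    have h6 : fderiv ℂ (fun x : ℂ × ℂ => F (x.2, x.1)) 0 = (fderiv ℂ F 0).comp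
        ((ContinuousLinearMap.snd ℂ ℂ ℂ).prod (ContinuousLinearMap.fst ℂ ℂ ℂ)) := h5.fderiv
    rw [h6]
    simp
  obtain ⟨ψ, h2, h3, h4⟩ := SmoothF_root hF' h0 (by rw [hd]; exact h1)
  exact ⟨ψ, h2, h3, h4⟩

end Pool.Agent.H17BP
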