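import Pool.Agent.H17BP.TanK
import Pool.Agent.H17BP.SmoothF

/-!
# A power of a smooth germ times exceptional curves

Let `θ'` be the inverse of the coordinate change `θ = (D₁, D₂)`; by `ResN.of_comp` (with `θ'`) it is enough to treat
`g ∘ θ' = x^a y^b (F ∘ θ')^n (u ∘ θ')`, and `F' = F ∘ θ'` has `F' 0 = 0` and a non-zero partial derivative (chain
rule: `fderiv F' 0 = fderiv F 0 ∘ fderiv θ' 0` and `fderiv θ' 0` is surjective).
If `dx F' 0 ≠ 0`: `smooth_normal`: either `F' = x u'`: `Mono` with `S = x, T = y`, exponents `a + n`, `b`; or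
`F' = (x - y^(k+1) v) u'`: `res_tangent`.
If `dy F' 0 ≠ 0`: compose with the swap (a `Bihol` map, `ResN.of_comp`) and exchange `a` and `b`.
-/

open Topology Filter

noncomputable section

namespace Pool.Agent.H17BP

private theorem PowF_lin (L : ℂ × ℂ →L[ℂ] ℂ) (h1 : L (1, 0) = 0) (h2 : L (0, 1) = 0) (w : ℂ × ℂ) : L w = 0 := by
  have e : w = w.1 • ((1 : ℂ), (0 : ℂ)) + w.2 • ((0 : ℂ), (1 : ℂ)) := by
    ext <;> simp
  rw [e, map_add, map_smul, map_smul, h1, h2]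
  simp

private theorem PowF_an {f : ℂ × ℂ → ℂ} (hf : AnalyticAt ℂ f 0) {θ : ℂ × ℂ → ℂ × ℂ} (hθ : Bihol θ) :
    AnalyticAt ℂ (fun x => f (θ x)) 0 := by
  have h2 : AnalyticAt ℂ f (θ 0) := by rw [hθ.zero]; exact hf
  exact AnalyticAt.comp (g := f) (f := θ) h2 hθ.an

private theorem PowF_x {F : ℂ × ℂ → ℂ} (hF : AnalyticAt ℂ F 0) (h0 : F 0 = 0) (h1 : dx F 0 ≠ 0) (a b n : ℕ)
    {u : ℂ × ℂ → ℂ} (hu : AnalyticAt ℂ u 0) (hu0 : u 0 ≠ 0) :
    ∃ N, ResN N (fun x => x.1 ^ a * x.2 ^ b * F x ^ n * u x) := by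
  obtain ⟨w, hw, hw0, h | ⟨k, v, hv, hv0, h⟩⟩ := smooth_normal hF h0 h1
  · refine ⟨0, fun x => x.1, fun x => x.2, a + n, b, fun x => w x ^ n * u x, coord_fst_snd, (hw.pow n).mul hu,
      mul_ne_zero (pow_ne_zero n hw0) hu0, ?_⟩
    filter_upwards [h] with x hx
    rw [hx]; ring
  · refine ⟨k + 1, (res_tangent k hv hv0 a b n (u := fun x => w x ^ n * u x) ((hw.pow n).mul hu)
      (mul_ne_zero (pow_ne_zero n hw0) hu0)).congr ?_⟩
    filter_upwards [h] with x hx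
    rw [hx, mul_pow]; ring

private theorem PowF_xy {F : ℂ × ℂ → ℂ} (hF : AnalyticAt ℂ F 0) (h0 : F 0 = 0) (h1 : dx F 0 ≠ 0 ∨ dy F 0 ≠ 0)
    (a b n : ℕ) {u : ℂ × ℂ → ℂ} (hu : AnalyticAt ℂ u 0) (hu0 : u 0 ≠ 0) :
    ∃ N, ResN N (fun x => x.1 ^ a * x.2 ^ b * F x ^ n * u x) := by
  rcases h1 with h1 | h1
  · exact PowF_x hF h0 h1 a b n hu hu0
  · have hs : Bihol (fun x : ℂ × ℂ => (x.2, x.1)) := coord_fst_snd.symm
    have hd : dx (fun x : ℂ × ℂ => F (x.2, x.1)) 0 = dy F 0 := by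
      have h3 : HasFDerivAt (fun x : ℂ × ℂ => (x.2, x.1))
          ((ContinuousLinearMap.snd ℂ ℂ ℂ).prod (ContinuousLinearMap.fst ℂ ℂ ℂ)) 0 :=
        hasFDerivAt_snd.prodMk hasFDerivAt_fst
      have h4 : HasFDerivAt F (fderiv ℂ F 0) ((fun x : ℂ × ℂ => (x.2, x.1)) 0) := hF.differentiableAt.hasFDerivAt
      have h5 := h4.comp (0 : ℂ × ℂ) h3
      unfold dx dy
      have h6 : fderiv ℂ (fun x : ℂ × ℂ => F (x.2, x.1)) 0 = (fderiv ℂ F 0).comp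
          ((ContinuousLinearMap.snd ℂ ℂ ℂ).prod (ContinuousLinearMap.fst ℂ ℂ ℂ)) := h5.fderiv
      rw [h6]
      simp
    obtain ⟨N, hN⟩ := PowF_x (PowF_an hF hs) h0 (by rw [hd]; exact h1) b a n (PowF_an hu hs) hu0
    refine ⟨N, ResN.of_comp hs (hN.congr (Eventually.of_forall fun x => ?_))⟩
    simp only [Function.comp_apply]
    ring

theorem res_pow {F : ℂ × ℂ → ℂ} (hF : AnalyticAt ℂ F 0) (h0 : F 0 = 0) (h1 : dx F 0 ≠ 0 ∨ dy F 0 ≠ 0)
    {D₁ D₂ : ℂ × ℂ → ℂ} (hD : Coord D₁ D₂) (a b n : ℕ) {u : ℂ × ℂ → ℂ} (hu : AnalyticAt ℂ u 0)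
    (hu0 : u 0 ≠ 0) : ∃ N, ResN N (fun x => D₁ x ^ a * D₂ x ^ b * F x ^ n * u x) := by
  have hD' : Bihol (fun x => (D₁ x, D₂ x)) := hD
  obtain ⟨θ', hθ', h3, h4⟩ := hD'.exists_inv
  have hF' := PowF_an hF hθ'
  have h1' : dx (fun x => F (θ' x)) 0 ≠ 0 ∨ dy (fun x => F (θ' x)) 0 ≠ 0 := by
    by_contra hcon
    rw [not_or, not_not, not_not] at hcon
    have hz := PowF_lin (fderiv ℂ (fun x => F (θ' x)) 0) hcon.1 hcon.2
    have hev : F =ᶠ[𝓝 0] (fun x => F (θ' x)) ∘ (fun x => (D₁ x, D₂ x)) := by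
      filter_upwards [h3] with x hx
      simp only [Function.comp_apply]
      rw [hx]
    have h5 : HasFDerivAt (fun x => F (θ' x)) (fderiv ℂ (fun x => F (θ' x)) 0) ((fun x => (D₁ x, D₂ x)) 0) := by
      have h8 : (fun x => (D₁ x, D₂ x)) (0 : ℂ × ℂ) = 0 := hD'.zero
      rw [h8]
      exact hF'.differentiableAt.hasFDerivAt
    have h6 := h5.comp (0 : ℂ × ℂ) hD'.an.differentiableAt.hasFDerivAt
    have h7 := (h6.congr_of_eventuallyEq hev).fderiv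
    rcases h1 with h1 | h1
    · apply h1
      unfold dx
      rw [h7]
      exact hz _
    · apply h1
      unfold dy
      rw [h7]
      exact hz _
  obtain ⟨N, hN⟩ := PowF_xy hF' (by simp only [hθ'.zero]; exact h0) h1' a b n (PowF_an hu hθ')
    (by simp only [hθ'.zero]; exact hu0)
  refine ⟨N, ResN.of_comp hθ' (hN.congr ?_)⟩
  filter_upwards [h4] with x hx
  have e1 : D₁ (θ' x) = x.1 := congrArg Prod.fst hx
  have e2 : D₂ (θ' x) = x.2 := congrArg Prod.snd hx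
  simp only [Function.comp_apply]
  rw [e1, e2]

end Pool.Agent.H17BP
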