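import Pool.Agent.H17BP.Same
import Pool.Agent.H36.BPL.CurveK
import Pool.Agent.H36.BPL.Start

/-!
# The same exceptional set, for complements of hypersurface sections
-/

open Topology Filter MvPolynomial

noncomputable section

namespace Pool.Agent.H17BP

open Pool.Agent.H17 (PN VanishesAt ZariskiClosedIn HolomorphicInto puncturedDisc)
open Pool.Agent.H17LG.Variety (FunField)
open Pool.Agent.H62.FC (Homog exists_fin_basis trdeg_mono)
open Pool.Agent.H17R (openVar)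
open Pool.Agent.H36.BPL (coneK Brody2 rep_mem_coneK mk_mem_openVar coneK_smul analyticAt_form openPart_coneK
  affProper_coneK curve_picard2)
open Pool.Agent.H36.BP (OrdTwo)
open Pool.Agent.H13.OT (OrderTwo mk_eq_of_pr pr_of_mk_eq holomorphicInto_mk OrdTwo.orderTwo)

variable {N : ℕ} {P I : Ideal (MvPolynomial (Fin (N + 1)) ℂ)} {b : ℕ} {H : Fin b → MvPolynomial (Fin (N + 1)) ℂ}
  {e : Fin b → ℕ}

theorem cone_smul' (hP : Homog P) : ∀ x ∈ cone P, ∀ c : ℂ, c ≠ 0 → c • x ∈ cone P := by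
  intro x hx c hc
  refine ⟨smul_ne_zero hc hx.1, fun Q hQ => ?_⟩
  rw [← MvPolynomial.sum_homogeneousComponent Q, map_sum]
  refine Finset.sum_eq_zero fun i _ => ?_
  rw [eval_smul_form (homogeneousComponent_isHomogeneous i Q), hx.2 _ (hP Q hQ i), mul_zero]

theorem cone_closed : ∀ x ∈ closure (cone P), x ≠ 0 → x ∈ cone P := by
  intro x hx h0
  refine ⟨h0, fun Q hQ => ?_⟩
  have h1 : IsClosed {y : Fin (N + 1) → ℂ | eval y Q = 0} :=
    isClosed_eq (MvPolynomial.continuous_eval Q) continuous_const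
  have h2 : cone P ⊆ {y : Fin (N + 1) → ℂ | eval y Q = 0} := fun y hy => hy.2 Q hQ
  exact h1.closure_subset_iff.2 h2 hx

/-- If the product of finitely many holomorphic functions vanishes near a point, then one of them does. -/
theorem exists_eventually_zero {g : Fin b → ℂ → ℂ} {z₀ : ℂ} (hg : ∀ m, AnalyticAt ℂ (g m) z₀)
    (h : ∀ᶠ z in 𝓝 z₀, ∃ m, g m z = 0) : ∃ m, ∀ᶠ z in 𝓝 z₀, g m z = 0 := by
  by_contra hcon
  push Not at hcon
  have h1 : ∀ m, ∀ᶠ z in 𝓝[≠] z₀, g m z ≠ 0 := by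
    intro m
    rcases (hg m).eventually_eq_zero_or_eventually_ne_zero with h2 | h2
    · exact absurd h2 (Filter.not_eventually.2 (hcon m))
    · exact h2
  have h2 : ∀ᶠ z in 𝓝[≠] z₀, ∀ m, g m z ≠ 0 := eventually_all.2 h1
  obtain ⟨z, h3, m, h4⟩ := (h2.and (h.filter_mono nhdsWithin_le_nhds)).exists
  exact h3 m h4

/-- A holomorphic disc in the intersection of a variety of dimension at most one with hypersurfaces is constant. -/
theorem disc_const [I.IsPrime] (hI : Homog I) {w : ℕ} (hw : ∃ z : Fin w → FunField I, IsTranscendenceBasis ℂ z)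
    (hw2 : w < 2) (hH : ∀ m, (H m).IsHomogeneous (e m)) (hHI : ∀ m, H m ∉ I) {F : ℂ → Fin (N + 1) → ℂ} {z₀ : ℂ}
    (hF : AnalyticAt ℂ F z₀) (h : ∀ᶠ z in 𝓝 z₀, F z ∈ cone I ∧ F z ∉ coneK I H) :
    ∀ᶠ z in 𝓝 z₀, Pr (F z) (F z₀) := by
  classical
  have hg : ∀ m, AnalyticAt ℂ (fun z => eval (F z) (H m)) z₀ := fun m =>
    AnalyticAt.comp (g := fun y : Fin (N + 1) → ℂ => eval y (H m)) (f := F) (analyticAt_form _ _) hF
  obtain ⟨m, hm⟩ := exists_eventually_zero hg (by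
    filter_upwards [h] with z hz
    by_contra hcon
    push Not at hcon
    exact hz.2 ⟨hz.1, hcon⟩)
  obtain ⟨r, hr, hball⟩ := Metric.eventually_nhds_iff_ball.1 ((hF.eventually_analyticAt.and h).and hm)
  set U := Metric.ball z₀ r with hU
  have hz₀U : z₀ ∈ U := Metric.mem_ball_self hr
  have hne0 : F z₀ ≠ 0 := (hball z₀ hz₀U).1.2.1.1
  let f : ℂ → PN N := fun z => if hz : F z ≠ 0 then Projectivization.mk ℂ (F z) hz else Projectivization.mk ℂ (F z₀) hne0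
  have hf : ∀ z ∈ U, ∃ hz : F z ≠ 0, f z = Projectivization.mk ℂ (F z) hz := by
    intro z hz
    have h1 : F z ≠ 0 := (hball z hz).1.2.1.1
    exact ⟨h1, dif_pos h1⟩
  have hfh : HolomorphicInto f U := by
    intro z hz
    refine ⟨F, (hball z hz).1.1, ?_⟩
    filter_upwards [Metric.isOpen_ball.mem_nhds hz] with y hy
    exact hf y hy
  have hJp : (mapIdeal f U).IsPrime :=
    mapIdeal_isPrime Metric.isOpen_ball (convex_ball z₀ r).isPreconnected ⟨z₀, hz₀U⟩ hfh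
  have hJX := exists_X_notMem (f := f) (U := U) ⟨z₀, hz₀U⟩
  have hfI : ∀ z ∈ U, f z ∈ variety I := by
    intro z hz
    obtain ⟨h1, h2⟩ := hf z hz
    rw [h2, mk_mem_variety hI h1 (cone_smul' hI)]
    exact (hball z hz).1.2.1
  have hHJ : H m ∈ mapIdeal f U := by
    rw [mem_mapIdeal_form (hH m)]
    intro z hz
    obtain ⟨h1, h2⟩ := hf z hz
    rw [h2, vanishesAt_mk (hH m)]
    exact (hball z hz).2
  obtain ⟨w', hw'⟩ := exists_fin_basis (P := mapIdeal f U) hJX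
  have hlt : w' < w := trdeg_lt hI mapIdeal_homog (le_mapIdeal hI hfI) (fun h1 => hHI m (h1 hHJ)) hJX hw hw'
  have hw0 : w' = 0 := by omega
  subst hw0
  filter_upwards [Metric.ball_mem_nhds z₀ hr] with z hz
  have h1 := eq_of_trdeg_zero mapIdeal_homog hJX hw' (f z) (mem_variety_mapIdeal hz) (f z₀)
    (mem_variety_mapIdeal hz₀U)
  obtain ⟨h2, h3⟩ := hf z hz
  obtain ⟨h4, h5⟩ := hf z₀ hz₀U
  rw [h3, h5] at h1
  exact pr_of_mk_eq h2 h4 h1

/-- Holomorphic maps to an open curve which is not contained in the exceptional set. -/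
theorem curve_case [P.IsPrime] (hP : Homog P) {z : Fin 2 → FunField P} (hz : IsTranscendenceBasis ℂ z)
    (hH : ∀ m, (H m).IsHomogeneous (e m))
    {S : Set (MvPolynomial (Fin (N + 1)) ℂ)} (hS : ∀ Q ∈ S, ∃ n, Q.IsHomogeneous n)
    (hbr : ∀ f : ℂ → PN N, HolomorphicInto f Set.univ → OrderTwo f → (∀ z, f z ∈ openVar P H) →
      (∃ z w, f z ≠ f w) → ∀ z, f z ∈ {x | x ∈ openVar P H ∧ ∀ Q ∈ S, VanishesAt Q x})
    {d : ℕ} {Q : MvPolynomial (Fin (N + 1)) ℂ} (hQ : Q.IsHomogeneous d) (hQP : Q ∉ P) {U : Set ℂ} (hUo : IsOpen U)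
    (hUc : IsPreconnected U) {f : ℂ → PN N} (hf : HolomorphicInto f U) (hfX : ∀ z ∈ U, f z ∈ openVar P H)
    (hfQ : ∀ z ∈ U, VanishesAt Q (f z))
    (hfS : ∃ z ∈ U, f z ∉ {x | x ∈ openVar P H ∧ ∀ Q ∈ S, VanishesAt Q x}) :
    ∃ I : Ideal (MvPolynomial (Fin (N + 1)) ℂ), Homog I ∧ (∀ z ∈ U, (f z).rep ∈ coneK I H) ∧
      Picard (coneK I H) ∅ ∧ Brody (coneK I H) ∅ := by
  obtain ⟨z₁, hz₁, hz₁S⟩ := hfS
  have hne : U.Nonempty := ⟨z₁, hz₁⟩
  set I := mapIdeal f U with hI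
  have hIp : I.IsPrime := mapIdeal_isPrime hUo hUc hne hf
  have hIh : Homog I := mapIdeal_homog
  have hvan : ∀ m (x : PN N), VanishesAt (H m) x ↔ eval x.rep (H m) = 0 := fun m x => Iff.rfl
  have hfP : ∀ z ∈ U, f z ∈ variety P := fun z hz => ⟨(hfX z hz).1, fun m => m.elim0⟩
  have hPI : P ≤ I := le_mapIdeal hP hfP
  have hIX : ∃ i, (X i : MvPolynomial (Fin (N + 1)) ℂ) ∉ I := exists_X_notMem hne
  obtain ⟨w, hw⟩ := exists_fin_basis (P := I) hIX
  have hw2 : w < 2 := trdeg_lt hP hIh hPI (fun h => hQP (h ((mem_mapIdeal_form hQ).2 hfQ))) hIX ⟨z, hz⟩ hw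
  have hHI : ∀ m, H m ∉ I := fun m h => (hfX z₁ hz₁).2 m ((mem_mapIdeal_form (hH m)).1 h z₁ hz₁)
  obtain ⟨R, hRS, hRz⟩ : ∃ R ∈ S, ¬ VanishesAt R (f z₁) := by
    by_contra hcon
    push Not at hcon
    exact hz₁S ⟨hfX z₁ hz₁, hcon⟩
  obtain ⟨n, hR⟩ := hS R hRS
  have hRI : R ∉ I := fun h => hRz ((mem_mapIdeal_form hR).1 h z₁ hz₁)
  refine ⟨I, hIh, fun z hz => ?_, ?_⟩
  · refine ⟨(rep_mem_cone hIh).2 (mem_variety_mapIdeal hz), fun m h => (hfX z hz).2 m h⟩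
  have hO := openPart_coneK (P := I) hH (cone_smul' hIh)
  refine curve_picard2 (X := cone I) (K := coneK I H) (fun h => h.1 rfl) cone_closed hO.sub hO.smul hO.rel
    (affProper_coneK hH) (fun F z₀ hF h => ?_) ?_
  · filter_upwards [disc_const hIh hw hw2 hH hHI hF h] with z hz
    obtain ⟨c, -, hc⟩ := hz
    exact ⟨c, hc⟩
  -- there are no entire curves of order two
  rintro h hh hhK hord ⟨z₂, -⟩ a c
  by_contra hac
  have hh0 : ∀ z, h z ≠ 0 := fun z => (hhK z).1.1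
  let g : ℂ → PN N := fun z => Projectivization.mk ℂ (h z) (hh0 z)
  have hg : HolomorphicInto g Set.univ := holomorphicInto_mk hh0 hh
  have hgI : ∀ z, g z ∈ openVar I H := fun z => (mk_mem_openVar hIh hH (hh0 z) (cone_smul' hIh)).2 (hhK z)
  have hgP : ∀ z, g z ∈ openVar P H := fun z => ⟨fun Q hQ n hn => (hgI z).1 Q (hPI hQ) n hn, (hgI z).2⟩
  have hgS := hbr g hg (OrdTwo.orderTwo hh0 hh hord) hgP ⟨a, c, fun he => hac (pr_of_mk_eq _ _ he)⟩
  have hJp : (mapIdeal g Set.univ).IsPrime := mapIdeal_isPrime isOpen_univ isPreconnected_univ Set.univ_nonempty hg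
  have hJX := exists_X_notMem (f := g) Set.univ_nonempty
  have hIJ : I ≤ mapIdeal g Set.univ := le_mapIdeal hIh fun z _ => ⟨(hgI z).1, fun m => m.elim0⟩
  have hRJ : R ∈ mapIdeal g Set.univ := (mem_mapIdeal_form hR).2 fun z _ => (hgS z).2 R hRS
  obtain ⟨w', hw'⟩ := exists_fin_basis (P := mapIdeal g Set.univ) hJX
  have hlt : w' < w := trdeg_lt hIh mapIdeal_homog hIJ (fun h => hRI (h hRJ)) hJX hw hw'
  have hw0 : w' = 0 := by omega
  subst hw0
  exact hac (pr_of_mk_eq _ _ (eq_of_trdeg_zero mapIdeal_homog hJX hw' (g a) (mem_variety_mapIdeal (Set.mem_univ a))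
    (g c) (mem_variety_mapIdeal (Set.mem_univ c))))

/-- Extension of a holomorphic map from the punctured disc to the projective space. -/
theorem extend_of_picard {K B : Set (Fin (N + 1) → ℂ)} (hpic : Picard K B) {f : ℂ → PN N}
    (hf : HolomorphicInto f puncturedDisc) (hfK : ∀ z ∈ puncturedDisc, (f z).rep ∈ K)
    (hfB : ∃ z ∈ puncturedDisc, (f z).rep ∉ B) :
    ∃ g : ℂ → PN N, HolomorphicInto g (Metric.ball 0 1) ∧ ∀ z ∈ puncturedDisc, g z = f z := by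
  classical
  obtain ⟨z₁, hz₁, hz₁B⟩ := hfB
  have hball : ∀ z : ℂ, z ≠ 0 → ‖z‖ < 1 → z ∈ puncturedDisc := fun z h0 h1 => ⟨by simpa using h1, h0⟩
  have hball' : ∀ z ∈ puncturedDisc, z ≠ 0 ∧ ‖z‖ < 1 := fun z hz => ⟨hz.2, by simpa using hz.1⟩
  obtain ⟨F, hF, hF0, he⟩ := hpic 1 one_pos (fun z => (f z).rep)
    (fun z h0 h1 => ⟨holP_rep hf (hball z h0 h1), hfK z (hball z h0 h1)⟩)
    ⟨z₁, (hball' z₁ hz₁).1, (hball' z₁ hz₁).2, hz₁B⟩
  refine ⟨fun z => if z = 0 then Projectivization.mk ℂ (F 0) hF0 else f z, ?_, ?_⟩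
  · intro z₀ hz₀
    by_cases h0 : z₀ = 0
    · subst h0
      refine ⟨F, hF, ?_⟩
      rw [eventually_nhdsWithin_iff] at he
      filter_upwards [he, hF.continuousAt.eventually_ne hF0] with z h1 h2
      refine ⟨h2, ?_⟩
      by_cases h3 : z = 0
      · subst h3
        rw [if_pos rfl]
      · rw [if_neg h3, ← (h1 h3).mk_eq (f z).rep_nonzero h2, Projectivization.mk_rep]
    · obtain ⟨φ, hφ, hφe⟩ := hf z₀ ⟨hz₀, h0⟩
      refine ⟨φ, hφ, ?_⟩
      filter_upwards [hφe, isOpen_compl_singleton.mem_nhds (show z₀ ∈ ({0} : Set ℂ)ᶜ from h0)] with z h1 h2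
      obtain ⟨h3, h4⟩ := h1
      have h5 : z ≠ 0 := h2
      exact ⟨h3, by rw [if_neg h5, h4]⟩
  · intro z hz
    exact if_neg hz.2

/-- The extension theorem with the same exceptional set. -/
theorem picard_same [P.IsPrime] (hP : Homog P) {z : Fin 2 → FunField P} (hz : IsTranscendenceBasis ℂ z)
    (hH : ∀ m, (H m).IsHomogeneous (e m)) {Ξ : Set (PN N)} (hΞ : ZariskiClosedIn (openVar P H) Ξ)
    (hbr : ∀ f : ℂ → PN N, HolomorphicInto f Set.univ → OrderTwo f → (∀ z, f z ∈ openVar P H) →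
      (∃ z w, f z ≠ f w) → ∀ z, f z ∈ Ξ)
    {d : ℕ} {Q : MvPolynomial (Fin (N + 1)) ℂ} (hQ : Q.IsHomogeneous d) (hQP : Q ∉ P)
    (hpic : ∀ f : ℂ → PN N, HolomorphicInto f puncturedDisc → (∀ z ∈ puncturedDisc, f z ∈ openVar P H) →
      (∃ z ∈ puncturedDisc, ¬ VanishesAt Q (f z)) →
      ∃ g : ℂ → PN N, HolomorphicInto g (Metric.ball 0 1) ∧ ∀ z ∈ puncturedDisc, g z = f z)
    {f : ℂ → PN N} (hf : HolomorphicInto f puncturedDisc) (hfX : ∀ z ∈ puncturedDisc, f z ∈ openVar P H)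
    (hfΞ : ∃ z ∈ puncturedDisc, f z ∉ Ξ) :
    ∃ g : ℂ → PN N, HolomorphicInto g (Metric.ball 0 1) ∧ ∀ z ∈ puncturedDisc, g z = f z := by
  by_cases hfQ : ∃ z ∈ puncturedDisc, ¬ VanishesAt Q (f z)
  · exact hpic f hf hfX hfQ
  push Not at hfQ
  obtain ⟨S, hS, rfl⟩ := hΞ
  obtain ⟨I, -, hK, hpI, -⟩ := curve_case hP hz hH hS hbr hQ hQP (Metric.isOpen_ball.sdiff isClosed_singleton)
    isPreconnected_puncturedDisc hf hfX hfQ hfΞ
  obtain ⟨z₁, hz₁, -⟩ := hfΞ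
  exact extend_of_picard hpI hf hK ⟨z₁, hz₁, Set.notMem_empty _⟩

/-- Entire curves of arbitrary order, with the same exceptional set. -/
theorem brody_same [P.IsPrime] (hP : Homog P) {z : Fin 2 → FunField P} (hz : IsTranscendenceBasis ℂ z)
    (hH : ∀ m, (H m).IsHomogeneous (e m)) {Ξ : Set (PN N)} (hΞ : ZariskiClosedIn (openVar P H) Ξ)
    (hbr : ∀ f : ℂ → PN N, HolomorphicInto f Set.univ → OrderTwo f → (∀ z, f z ∈ openVar P H) →
      (∃ z w, f z ≠ f w) → ∀ z, f z ∈ Ξ)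
    {d : ℕ} {Q : MvPolynomial (Fin (N + 1)) ℂ} (hQ : Q.IsHomogeneous d) (hQP : Q ∉ P)
    (hpic : ∀ f : ℂ → PN N, HolomorphicInto f Set.univ → (∀ z, f z ∈ openVar P H) →
      (∃ z w, f z ≠ f w) → ∀ z, VanishesAt Q (f z))
    {f : ℂ → PN N} (hf : HolomorphicInto f Set.univ) (hfX : ∀ z, f z ∈ openVar P H)
    (hne : ∃ z w, f z ≠ f w) : ∀ z, f z ∈ Ξ := by
  intro z₀
  by_contra hcon
  obtain ⟨S, hS, rfl⟩ := hΞ
  obtain ⟨I, -, hK, -, hbI⟩ := curve_case hP hz hH hS hbr hQ hQP isOpen_univ isPreconnected_univ hf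
    (fun z _ => hfX z) (fun z _ => hpic f hf hfX hne z) ⟨z₀, Set.mem_univ _, hcon⟩
  obtain ⟨a, c, hac⟩ := hne
  apply hac
  have h1 := hbI (fun z => (f z).rep) (fun z => holP_rep hf (Set.mem_univ z)) (fun z => hK z (Set.mem_univ z))
    ⟨z₀, Set.notMem_empty _⟩ a c
  have h2 := h1.mk_eq (f a).rep_nonzero (f c).rep_nonzero
  rwa [Projectivization.mk_rep, Projectivization.mk_rep] at h2

end Pool.Agent.H17BP
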