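import Pool.Agent.H17BP.ChartC

/-!
# One blow-up

`resN_succ`: by `bchart_class` every chart is `bl c ∘ θ` or `blInf ∘ θ`; use `ResN.comp`, `ResN.congr`.
`uniform`: take the maximum `n` of the finitely many depths (`Set.Finite`, `Finset.sup`), `ResN.mono_le`,
`ResN.of_mono`, then `resN_succ`.
-/

open Topology Filter

noncomputable section

namespace Pool.Agent.H17BP

theorem resN_succ {n : ℕ} {g : ℂ × ℂ → ℂ} (h : ∀ c, ResN n (g ∘ bl c)) (h' : ResN n (g ∘ blInf)) :
    ResN (n + 1) g := by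
  refine Or.inr fun β hβ => ?_
  obtain ⟨θ, hθ, hc⟩ := bchart_class hβ
  rcases hc with ⟨c, hc⟩ | hc
  · refine ((h c).comp hθ).congr ?_
    filter_upwards [hc] with x hx
    simp only [Function.comp_apply]
    rw [hx]
  · refine (h'.comp hθ).congr ?_
    filter_upwards [hc] with x hx
    simp only [Function.comp_apply]
    rw [hx]

theorem uniform {g : ℂ × ℂ → ℂ} {S : Set ℂ} (hS : S.Finite) (h1 : ∀ c ∉ S, Mono (g ∘ bl c))
    (h2 : ∀ c ∈ S, ∃ n, ResN n (g ∘ bl c)) (h3 : ∃ n, ResN n (g ∘ blInf)) : ∃ n, ResN n g := by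
  obtain ⟨m, hm⟩ := h3
  choose! f hf using h2
  refine ⟨max m (hS.toFinset.sup f) + 1, resN_succ (fun c => ?_) (hm.mono_le (le_max_left _ _))⟩
  by_cases hc : c ∈ S
  · exact (hf c hc).mono_le (le_trans (Finset.le_sup (f := f) (hS.mem_toFinset.mpr hc))
      (le_max_right _ _))
  · exact ResN.of_mono (h1 c hc) _

end Pool.Agent.H17BP
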