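import Pool.Agent.H17BP.StepN

/-!
# A smooth curve tangent to an exceptional curve

Induction on `k` (the exponent is `k + 1`), `g = x^a y^b (x - y^(k+1) v(y))^n u`.
Chart `blInf` (`x ↦ x y, y ↦ y`): `x^a y^(a+b+n) (x - y^k v(y))^n u'`, `u' = u ∘ blInf`.  If `k ≥ 1` this is the
induction hypothesis (with `b := a + b + n`); if `k = 0` the factor `x - v(y)` is a unit at `0`, so `Mono` with
`S = x.1, T = x.2`.
Chart `bl c` (`x ↦ x, y ↦ x (c + w)`): `x^(a+b+n) (c+w)^b (1 - x^k (c+w)^(k+1) v(x(c+w)))^n u'`.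
 * `k ≥ 1`: the last factor is a unit at `0`, and `(c+w)^b` is a unit if `c ≠ 0` and `w^b` if `c = 0`: `Mono`.
 * `k = 0`: `F' = 1 - (c+w) v(x(c+w))`.  `c = 0`: `F'` is a unit, `w^b`: `Mono`.  `c ≠ 0`: `(c+w)^b` is a unit; if
   `1 - c v(0) ≠ 0`: `F'` is a unit: `Mono` (`T = x.2`, exponent `0`); otherwise `F' 0 = 0`, `dy F' 0 = - v 0 ≠ 0`, so
   `(x, F')` are local coordinates (`coord_iff`): `Mono` with `S = x.1, T = F'`.
Use `resN_succ` (with `n = k`) and `ResN.of_mono`.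
-/

open Topology Filter

noncomputable section

namespace Pool.Agent.H17BP

private theorem TanK_unit_pow {f : ℂ × ℂ → ℂ} (hf : AnalyticAt ℂ f 0) (h0 : f 0 ≠ 0) (n : ℕ) :
    AnalyticAt ℂ (fun x => f x ^ n) 0 ∧ f 0 ^ n ≠ 0 := ⟨hf.pow n, pow_ne_zero n h0⟩

private theorem TanK_dy {f : ℂ × ℂ → ℂ} (hf : AnalyticAt ℂ f 0) {a : ℂ}
    (h : HasDerivAt (fun w : ℂ => f (0, w)) a 0) : dy f 0 = a := by
  have h1 : HasDerivAt (fun w : ℂ => ((0 : ℂ), w)) ((0 : ℂ), (1 : ℂ)) 0 :=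
    (hasDerivAt_const (0 : ℂ) (0 : ℂ)).prodMk (hasDerivAt_id' (0 : ℂ))
  have h2 : HasFDerivAt f (fderiv ℂ f 0) ((fun w : ℂ => ((0 : ℂ), w)) 0) :=
    hf.differentiableAt.hasFDerivAt
  have h3 := HasFDerivAt.comp_hasDerivAt (0 : ℂ) h2 h1
  exact h3.unique h

/-- the charts at the finite points -/
private theorem TanK_bl (k : ℕ) {v : ℂ → ℂ} (hv : AnalyticAt ℂ v 0) (hv0 : v 0 ≠ 0) (a b n : ℕ)
    {u : ℂ × ℂ → ℂ} (hu : AnalyticAt ℂ u 0) (hu0 : u 0 ≠ 0) (c : ℂ) :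
    Mono ((fun x => x.1 ^ a * x.2 ^ b * (x.1 - x.2 ^ (k + 1) * v x.2) ^ n * u x) ∘ bl c) := by
  have hub : AnalyticAt ℂ (fun x => u (bl c x)) 0 := by
    have h2 : AnalyticAt ℂ u (bl c 0) := by rw [bl_zero]; exact hu
    exact h2.comp (analyticAt_bl c 0)
  have hub0 : u (bl c 0) ≠ 0 := by rw [bl_zero]; exact hu0
  obtain ⟨ℓ, hℓ⟩ : ∃ ℓ : ℂ × ℂ → ℂ, ℓ = fun x => c + x.2 := ⟨_, rfl⟩
  have hℓa : AnalyticAt ℂ ℓ 0 := by
    rw [hℓ]
    exact analyticAt_const.add analyticAt_snd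
  have hℓ0 : ℓ 0 = c := by rw [hℓ]; simp
  have hvc : AnalyticAt ℂ (fun x : ℂ × ℂ => v (x.1 * ℓ x)) 0 := by
    have h2 : AnalyticAt ℂ v ((fun x : ℂ × ℂ => x.1 * ℓ x) 0) := by
      simpa using hv
    exact AnalyticAt.comp (g := v) (f := fun x : ℂ × ℂ => x.1 * ℓ x) h2 (analyticAt_fst.mul hℓa)
  obtain ⟨F, hF⟩ : ∃ F : ℂ × ℂ → ℂ, F = fun x => 1 - x.1 ^ k * ℓ x ^ (k + 1) * v (x.1 * ℓ x) :=
    ⟨_, rfl⟩
  have hFa : AnalyticAt ℂ F 0 := by
    rw [hF]
    exact analyticAt_const.sub (((analyticAt_fst.pow k).mul (hℓa.pow (k + 1))).mul hvc)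
  have hF0 : F 0 = 1 - 0 ^ k * c ^ (k + 1) * v 0 := by
    rw [hF]
    simp only [hℓ0, Prod.fst_zero, zero_mul]
  have hg : ∀ x, ((fun x : ℂ × ℂ => x.1 ^ a * x.2 ^ b * (x.1 - x.2 ^ (k + 1) * v x.2) ^ n * u x) ∘
      bl c) x = x.1 ^ (a + b + n) * (ℓ x ^ b * F x ^ n * u (bl c x)) := by
    intro x
    have e1 : x.1 - (x.1 * ℓ x) ^ (k + 1) * v (x.1 * ℓ x) = x.1 * F x := by
      rw [hF]
      ring
    have e2 : (bl c x).2 = x.1 * ℓ x := by rw [hℓ]; rfl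
    have e3 : (bl c x).1 = x.1 := rfl
    simp only [Function.comp_apply]
    rw [e2, e3, e1]
    ring
  by_cases h0 : F 0 = 0
  · -- the curve passes through this point
    have hk : k = 0 := by
      by_contra hk
      rw [hF0, zero_pow hk, zero_mul, zero_mul, sub_zero] at h0
      exact one_ne_zero h0
    subst hk
    have hc : c ≠ 0 := by
      intro hc
      rw [hF0, hc] at h0
      simp at h0
    have hdy : dy F 0 = -v 0 := by
      refine TanK_dy hFa ?_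
      have e1 : (fun w : ℂ => F (0, w)) = fun w => 1 - (c + w) * v 0 := by
        funext w
        rw [hF, hℓ]
        simp
      rw [e1]
      have h1 : HasDerivAt (fun w : ℂ => (c + w) * v 0) (1 * v 0) 0 :=
        ((hasDerivAt_id' (0 : ℂ)).const_add c).mul_const (v 0)
      have h2 := h1.const_sub 1
      rw [one_mul] at h2
      exact h2
    have hcoord : Coord (fun x => x.1) F := by
      rw [coord_iff analyticAt_fst hFa rfl h0, hdy]
      have e1 : dx (fun x : ℂ × ℂ => x.1) 0 = 1 := by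
        unfold dx
        rw [fderiv_fst]
        rfl
      have e2 : dy (fun x : ℂ × ℂ => x.1) 0 = 0 := by
        unfold dy
        rw [fderiv_fst]
        rfl
      rw [e1, e2]
      simpa using hv0
    obtain ⟨p1, p2⟩ := TanK_unit_pow hℓa (by rw [hℓ0]; exact hc) b
    refine ⟨fun x => x.1, F, a + b + n, n, fun x => ℓ x ^ b * u (bl c x), hcoord, p1.mul hub,
      mul_ne_zero p2 hub0, Eventually.of_forall fun x => ?_⟩
    rw [hg x]
    ring
  · obtain ⟨q1, q2⟩ := TanK_unit_pow hFa h0 n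
    by_cases hc : c = 0
    · refine ⟨fun x => x.1, fun x => x.2, a + b + n, b, fun x => F x ^ n * u (bl c x),
        coord_fst_snd, q1.mul hub, mul_ne_zero q2 hub0, Eventually.of_forall fun x => ?_⟩
      have e1 : ℓ x = x.2 := by rw [hℓ, hc]; simp
      rw [hg x, e1]
      ring
    · obtain ⟨p1, p2⟩ := TanK_unit_pow hℓa (by rw [hℓ0]; exact hc) b
      refine ⟨fun x => x.1, fun x => x.2, a + b + n, 0,
        fun x => ℓ x ^ b * F x ^ n * u (bl c x), coord_fst_snd, (p1.mul q1).mul hub,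
        mul_ne_zero (mul_ne_zero p2 q2) hub0, Eventually.of_forall fun x => ?_⟩
      rw [hg x]
      ring

theorem res_tangent (k : ℕ) : ∀ {v : ℂ → ℂ} (_ : AnalyticAt ℂ v 0) (_ : v 0 ≠ 0) (a b n : ℕ)
    {u : ℂ × ℂ → ℂ} (_ : AnalyticAt ℂ u 0) (_ : u 0 ≠ 0),
    ResN (k + 1) (fun x => x.1 ^ a * x.2 ^ b * (x.1 - x.2 ^ (k + 1) * v x.2) ^ n * u x) := by
  have huc : ∀ {u : ℂ × ℂ → ℂ}, AnalyticAt ℂ u 0 → u 0 ≠ 0 →
      AnalyticAt ℂ (fun x => u (blInf x)) 0 ∧ u (blInf 0) ≠ 0 := by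
    intro u hu hu0
    have h2 : AnalyticAt ℂ u (blInf 0) := by rw [blInf_zero]; exact hu
    exact ⟨h2.comp (analyticAt_blInf 0), by rw [blInf_zero]; exact hu0⟩
  induction k with
  | zero =>
    intro v hv hv0 a b n u hu hu0
    refine resN_succ (fun c => ResN.of_mono (TanK_bl 0 hv hv0 a b n hu hu0 c) 0) ?_
    obtain ⟨w1, w2⟩ := huc hu hu0
    have hw : AnalyticAt ℂ (fun x : ℂ × ℂ => x.1 - v x.2) 0 := by
      have h2 : AnalyticAt ℂ v ((0 : ℂ × ℂ).2) := by simpa using hv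
      exact analyticAt_fst.sub (AnalyticAt.comp (g := v) (f := fun x : ℂ × ℂ => x.2) h2 analyticAt_snd)
    obtain ⟨q1, q2⟩ := TanK_unit_pow hw (by simpa using hv0) n
    refine ⟨fun x => x.1, fun x => x.2, a, a + b + n,
      fun x => (x.1 - v x.2) ^ n * u (blInf x), coord_fst_snd, q1.mul w1, mul_ne_zero q2 w2,
      Eventually.of_forall fun x => ?_⟩
    have e1 : (blInf x).1 = x.1 * x.2 := rfl
    have e2 : (blInf x).2 = x.2 := rfl
    have e3 : x.1 * x.2 - x.2 ^ (0 + 1) * v x.2 = x.2 * (x.1 - v x.2) := by ring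
    simp only [Function.comp_apply]
    rw [e1, e2, e3, mul_pow x.2]
    ring
  | succ k ih =>
    intro v hv hv0 a b n u hu hu0
    refine resN_succ (fun c => ResN.of_mono (TanK_bl (k + 1) hv hv0 a b n hu hu0 c) (k + 1)) ?_
    obtain ⟨w1, w2⟩ := huc hu hu0
    refine (ih hv hv0 a (a + b + n) n w1 w2).congr (Eventually.of_forall fun x => ?_)
    have e1 : (blInf x).1 = x.1 * x.2 := rfl
    have e2 : (blInf x).2 = x.2 := rfl
    have e3 : x.1 * x.2 - x.2 ^ (k + 1 + 1) * v x.2 = x.2 * (x.1 - x.2 ^ (k + 1) * v x.2) := by ring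
    simp only [Function.comp_apply]
    rw [e1, e2, e3, mul_pow x.2]
    ring

end Pool.Agent.H17BP
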